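import Pool.Agent.Y868.TA.E1
import Pool.Agent.TH204.WR.W8

/-! Most polynomials of the box: evaluation of the model, and the count of prime values. -/

set_option autoImplicit false

namespace Pool.Agent.Y868.TA

open Finset Filter
open Polynomial (X C natDegree_X natDegree_mul_le natDegree_add_le_of_degree_le natDegree_C_mul_le natDegree_C)
open scoped Polynomial
open Pool.Agent.H373R2.T7 (pz Vz lamz mem_pz Vz_inv_small ev_L' Vz_inv_le)
open Pool.Agent.TH204.WR (rho hh vN model rho_le hh_nonneg prod_le_one' prod_nonneg')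

/-- choice of the level -/
lemma pickb (C1 E U : ℕ) : ∃ x0 : ℕ, ∀ x : ℕ, x0 ≤ x → ∃ b : ℕ, C1 ≤ b ∧
    2 * (1 / 2 : ℝ) ^ b * Real.log x * x ≤ x / (2 * Real.log x ^ U) ∧
    ∀ z : ℕ, 1 ≤ z → (z : ℝ) ≤ Real.log x ^ E → 3 * (z : ℝ) ^ (C1 * b) * Real.log x ≤ x / (2 * Real.log x ^ U) := by
  obtain ⟨c, hc⟩ : ∃ c : ℕ, c = C1 * (C1 + 2 * U + 10) * E + U + 4 := ⟨_, rfl⟩
  have hlim : Filter.Tendsto (fun N : ℕ => Real.log (N : ℝ)) Filter.atTop Filter.atTop :=
    Real.tendsto_log_atTop.comp (tendsto_natCast_atTop_atTop (R := ℝ))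
  have h1 : ∀ᶠ N : ℕ in Filter.atTop, 1 ≤ Real.log (Real.log N) := by
    exact ((Real.tendsto_log_atTop.comp hlim).eventually_ge_atTop 1)
  have h2 : ∀ᶠ N : ℕ in Filter.atTop, (c : ℝ) * Real.log (Real.log N) ^ 2 ≤ Real.log N := by
    have h3 := (Real.isLittleO_pow_log_id_atTop (n := 2)).bound (show (0 : ℝ) < 1 / ((c : ℝ) + 1) by positivity)
    have h4 := hlim.eventually h3
    filter_upwards [h4, hlim.eventually_ge_atTop 1] with N h5 h6
    simp only [id] at h5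
    rw [Real.norm_of_nonneg (by positivity), Real.norm_of_nonneg (by linarith), one_div, inv_mul_eq_div,
      le_div_iff₀ (by positivity)] at h5
    have h7 : 0 ≤ Real.log (Real.log N) ^ 2 := by positivity
    nlinarith
  obtain ⟨N0, h0⟩ := Filter.eventually_atTop.1 (h1.and (h2.and (hlim.eventually_ge_atTop 8)))
  refine ⟨max N0 1, fun x hx => ?_⟩
  obtain ⟨hℓ1, hcℓ, hL8⟩ := h0 x ((le_max_left _ _).trans hx)
  have hx1 : (1 : ℝ) ≤ x := by exact_mod_cast (le_max_right _ _).trans hx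
  have hx0 : (0 : ℝ) < x := by linarith
  set L := Real.log x with hL
  set ℓ := Real.log L with hℓ
  have hL0 : 0 < L := by linarith
  have hL1 : 1 ≤ L := by linarith
  have hLp : ∀ n : ℕ, 0 < L ^ n := fun n => by positivity
  obtain ⟨T, hT⟩ : ∃ T : ℕ, T = ⌈L ^ (U + 3)⌉₊ := ⟨_, rfl⟩
  have hT1 : L ^ (U + 3) ≤ T := by rw [hT]; exact Nat.le_ceil _
  have hT2 : (T : ℝ) ≤ 2 * L ^ (U + 3) := by
    have h3 := (Nat.ceil_lt_add_one (hLp (U + 3)).le).le
    rw [← hT] at h3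
    have : 1 ≤ L ^ (U + 3) := one_le_pow₀ hL1
    linarith
  have hT0 : (0 : ℝ) < T := (hLp _).trans_le hT1
  have hTn : 1 < T := by
    have h3 : L ≤ L ^ (U + 3) := le_self_pow₀ hL1 (by omega)
    have : (1 : ℝ) < T := by linarith
    exact_mod_cast this
  obtain ⟨b, hb⟩ : ∃ b : ℕ, b = C1 + Nat.clog 2 T := ⟨_, rfl⟩
  have hb1 : L ^ (U + 3) ≤ (2 : ℝ) ^ b := by
    calc L ^ (U + 3) ≤ T := hT1
      _ ≤ ((2 ^ Nat.clog 2 T : ℕ) : ℝ) := by exact_mod_cast Nat.le_pow_clog (by norm_num) T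
      _ = (2 : ℝ) ^ Nat.clog 2 T := by push_cast; rfl
      _ ≤ (2 : ℝ) ^ b := pow_le_pow_right₀ (by norm_num) (by omega)
  have hb2 : (b : ℝ) ≤ (C1 + 2 * U + 10) * ℓ := by
    have h3 : 2 ^ (Nat.clog 2 T - 1) < T := Nat.pow_pred_clog_lt_self (by norm_num) hTn
    have h4 : (2 : ℝ) ^ (Nat.clog 2 T - 1) ≤ 2 * L ^ (U + 3) := by
      have : ((2 ^ (Nat.clog 2 T - 1) : ℕ) : ℝ) ≤ T := by exact_mod_cast h3.le
      push_cast at this
      linarith
    have h5 := Real.log_le_log (by positivity) h4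
    rw [Real.log_pow, Real.log_mul (by norm_num) (hLp _).ne', Real.log_pow, ← hℓ] at h5
    have h6 : (0.69 : ℝ) < Real.log 2 := by have := Real.log_two_gt_d9; linarith
    have h7 : Real.log 2 < 0.7 := by have := Real.log_two_lt_d9; linarith
    have h8 : 1 ≤ Nat.clog 2 T := Nat.clog_pos (by norm_num) hTn
    have h9 : ((Nat.clog 2 T - 1 : ℕ) : ℝ) = (Nat.clog 2 T : ℝ) - 1 := by
      push_cast [Nat.cast_sub h8]; ring
    rw [h9] at h5
    push_cast at h5
    have h10 : (0 : ℝ) ≤ (Nat.clog 2 T : ℝ) - 1 := by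
      have : (1 : ℝ) ≤ Nat.clog 2 T := by exact_mod_cast h8
      linarith
    have h11 : ((Nat.clog 2 T : ℝ) - 1) * 0.69 ≤ ((Nat.clog 2 T : ℝ) - 1) * Real.log 2 :=
      mul_le_mul_of_nonneg_left h6.le h10
    have hU : (0 : ℝ) ≤ U := Nat.cast_nonneg _
    have hC : (0 : ℝ) ≤ C1 := Nat.cast_nonneg _
    rw [hb]
    push_cast
    nlinarith
  refine ⟨b, by omega, ?_, ?_⟩
  · have h3 : (1 / 2 : ℝ) ^ b ≤ 1 / L ^ (U + 3) := by
      rw [one_div_pow]
      exact one_div_le_one_div_of_le (hLp _) hb1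
    calc 2 * (1 / 2 : ℝ) ^ b * L * x ≤ 2 * (1 / L ^ (U + 3)) * L * x := by gcongr
      _ = 4 / L ^ 2 * (x / (2 * L ^ U)) := by
          rw [show U + 3 = U + 2 + 1 by ring, pow_succ L (U + 2), pow_add L U 2]
          field_simp
          ring
      _ ≤ 1 * (x / (2 * L ^ U)) := by
          apply mul_le_mul_of_nonneg_right _ (by positivity)
          rw [div_le_one (hLp 2)]
          nlinarith
      _ = _ := one_mul _
  · intro z hz hzE
    have hz0 : (0 : ℝ) < z := by exact_mod_cast hz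
    have hlz : Real.log z ≤ E * ℓ := by
      have h4 : Real.log z ≤ Real.log (L ^ E) := Real.log_le_log hz0 hzE
      rw [Real.log_pow] at h4
      exact h4
    have hlz0 : 0 ≤ Real.log z := Real.log_nonneg (by exact_mod_cast hz)
    rw [le_div_iff₀ (by positivity), ← Real.log_le_log_iff (by positivity) hx0]
    have h3 : Real.log (3 * (z : ℝ) ^ (C1 * b) * L * (2 * L ^ U)) = Real.log 6 + (C1 * b : ℕ) * Real.log z + (U + 1) * ℓ := by
      have e : 3 * (z : ℝ) ^ (C1 * b) * L * (2 * L ^ U) = 6 * (z : ℝ) ^ (C1 * b) * L ^ (U + 1) := by ring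
      rw [e, Real.log_mul (by positivity) (by positivity), Real.log_mul (by norm_num) (by positivity), Real.log_pow, Real.log_pow]
      push_cast
      ring
    rw [h3]
    have h6 : Real.log 6 ≤ 2 := by
      rw [Real.log_le_iff_le_exp (by norm_num)]
      have h7 := Real.exp_one_gt_d9
      have h8 : Real.exp 2 = Real.exp 1 * Real.exp 1 := by rw [← Real.exp_add]; norm_num
      nlinarith
    have h7 : ((C1 * b : ℕ) : ℝ) * Real.log z ≤ (C1 * ((C1 + 2 * U + 10) * ℓ)) * (E * ℓ) := by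
      push_cast
      apply mul_le_mul _ hlz hlz0 (by positivity)
      exact mul_le_mul_of_nonneg_left hb2 (Nat.cast_nonneg _)
    have h8 : (c : ℝ) = C1 * (C1 + 2 * U + 10) * E + U + 4 := by rw [hc]; push_cast; ring
    rw [h8] at hcℓ
    have h9 : ((U : ℝ) + 1) * ℓ + 2 ≤ (U + 4) * ℓ ^ 2 := by
      have hU : (0 : ℝ) ≤ U := Nat.cast_nonneg _
      have g1 : ℓ ≤ ℓ ^ 2 := by nlinarith
      have g2 : 1 ≤ ℓ ^ 2 := hℓ1.trans g1
      have g3 := mul_le_mul_of_nonneg_left g1 (show (0 : ℝ) ≤ U + 1 by linarith)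
      linarith
    have h10 : (C1 * ((C1 + 2 * U + 10) * ℓ)) * (E * ℓ) = (C1 * (C1 + 2 * U + 10) * E : ℝ) * ℓ ^ 2 := by ring
    nlinarith

/-- the polynomial without its constant term -/
noncomputable def pol (P : ℤ[X]) (a b : ℤ) : ℤ[X] := X * (P + C a * X + C b)

lemma pol_eval (P : ℤ[X]) (a b : ℤ) (m : ℤ) : (pol P a b).eval m = m * (P.eval m + a * m + b) := by
  unfold pol; simp

lemma pol_deg (P : ℤ[X]) (a b : ℤ) (d : ℕ) (hd : 2 ≤ d) (hP : P.natDegree + 1 ≤ d) : (pol P a b).natDegree ≤ d := by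
  unfold pol
  have h1 : (P + C a * X + C b).natDegree ≤ d - 1 := by
    refine (Polynomial.natDegree_add_le _ _).trans (max_le ?_ ?_)
    · refine (Polynomial.natDegree_add_le _ _).trans (max_le (by omega) ?_)
      refine (Polynomial.natDegree_C_mul_le _ _).trans ?_
      rw [Polynomial.natDegree_X]; omega
    · rw [Polynomial.natDegree_C]; omega
  refine (Polynomial.natDegree_mul_le).trans ?_
  rw [Polynomial.natDegree_X]; omega

/-- the value of the polynomial -/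
noncomputable def val (P : ℤ[X]) (c : ℤ) (a b m : ℕ) : ℤ := c + m * (P.eval (m : ℤ) + (a : ℤ) * m + (b : ℤ))

lemma val_eq (P : ℤ[X]) (c : ℤ) (a b m : ℕ) : val P c a b m = (pol P a b).eval (m : ℤ) + c := by
  rw [pol_eval]; unfold val; ring

/-- the local densities -/
noncomputable def dens (P : ℤ[X]) (c : ℤ) (a b z : ℕ) : ℝ := hh (pol P a b) c z

lemma dens_le (P : ℤ[X]) (c : ℤ) (a b z : ℕ) : dens P c a b z ≤ (Vz z)⁻¹ := by
  unfold dens hh
  have h1 := prod_le_one' (pol P a b) c z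
  have h2 : 0 < (Vz z)⁻¹ := inv_pos.2 (Pool.Agent.H373R2.T7.Vz_pos z)
  calc _ ≤ (Vz z)⁻¹ * 1 := mul_le_mul_of_nonneg_left h1 h2.le
    _ = _ := mul_one _

lemma dens_nonneg (P : ℤ[X]) (c : ℤ) (a b z : ℕ) : 0 ≤ dens P c a b z := by
  unfold dens hh
  exact mul_nonneg (inv_pos.2 (Pool.Agent.H373R2.T7.Vz_pos z)).le (prod_nonneg' _ _ _)

/-- the model on a window -/
theorem model_window (d U E : ℕ) (hd : 2 ≤ d) : ∃ x0 z0 : ℕ, ∀ x : ℕ, x0 ≤ x → ∀ z : ℕ, z0 ≤ z → 2 ≤ z → (z : ℝ) ≤ Real.log x ^ E →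
    ∀ (P : ℤ[X]) (c : ℤ) (a b : ℕ), P.natDegree + 1 ≤ d → ∀ u v : ℕ, u ≤ v → v ≤ x → (∀ m ∈ Ioc u v, 0 ≤ val P c a b m) →
    |∑ m ∈ Ioc u v, lamz z (val P c a b m).toNat - ((v : ℝ) - u) * dens P c a b z| ≤ x / Real.log x ^ U := by
  obtain ⟨C1, y0, hC1, hy0, hmod⟩ := model d (by omega)
  obtain ⟨x1, hpb⟩ := pickb C1 E U
  obtain ⟨x2, hv⟩ := Vz_inv_small E
  refine ⟨max (max x1 x2) 1, y0, fun x hx z hzy hz2 hzE P c a b hP u v huv hvx hpos => ?_⟩
  have hx1 : x1 ≤ x := le_trans (le_trans (le_max_left _ _) (le_max_left _ _)) hx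
  have hx2 : x2 ≤ x := le_trans (le_trans (le_max_right _ _) (le_max_left _ _)) hx
  have hx1' : 1 ≤ x := le_trans (le_max_right _ _) hx
  have hx0 : (0 : ℝ) < x := by exact_mod_cast hx1'
  obtain ⟨b', hb1, hb2, hb3⟩ := hpb x hx1
  have hVz := hv x hx2 z (by omega) hzE
  have hL0 : 0 < Real.log x := (inv_pos.2 (Pool.Agent.H373R2.T7.Vz_pos z)).trans_le hVz
  have hval : ∀ m ∈ Ioc u v, (val P c a b m).toNat = vN (pol P a b) c m := by
    intro m hm
    have h1 := hpos m hm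
    rw [val_eq] at h1 ⊢
    unfold vN
    omega
  have h1 : ∑ m ∈ Ioc u v, lamz z (val P c a b m).toNat = ∑ m ∈ Ioc u v, lamz z (vN (pol P a b) c m) :=
    sum_congr rfl fun m hm => by rw [hval m hm]
  rw [h1]
  have hdens0 := dens_nonneg P c a b z
  have hdens := (dens_le P c a b z).trans hVz
  by_cases hrho : ∀ p ∈ pz z, rho (pol P a b) c p < p
  · have h2 := hmod (pol P a b) c (pol_deg P a b d hd hP) b' hb1 z hzy hrho u v huv
    rw [sum_sub_distrib, sum_const, Nat.card_Ioc, nsmul_eq_mul, Nat.cast_sub huv] at h2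
    refine h2.trans ?_
    have h3 : (v : ℝ) - u ≤ x := by
      have h4 : (v : ℝ) ≤ x := by exact_mod_cast hvx
      have h5 : (0 : ℝ) ≤ u := Nat.cast_nonneg _
      linarith
    have h3' : 0 ≤ (v : ℝ) - u := by
      have : (u : ℝ) ≤ v := by exact_mod_cast huv
      linarith
    have hhh : hh (pol P a b) c z = dens P c a b z := rfl
    rw [hhh]
    have h6 : 2 * (1 / 2 : ℝ) ^ b' * dens P c a b z * ((v : ℝ) - u) ≤ 2 * (1 / 2 : ℝ) ^ b' * Real.log x * x := by gcongr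
    have h7 : 3 * (z : ℝ) ^ (C1 * b') * dens P c a b z ≤ 3 * (z : ℝ) ^ (C1 * b') * Real.log x := by gcongr
    have h8 := hb3 z (by omega) hzE
    have h9 : (x : ℝ) / (2 * Real.log x ^ U) + x / (2 * Real.log x ^ U) = x / Real.log x ^ U := by
      field_simp; ring
    linarith
  · push Not at hrho
    obtain ⟨p, hp, hpr⟩ := hrho
    have hpp := (mem_pz.1 hp).2
    have hre : rho (pol P a b) c p = p := le_antisymm (rho_le _ _ _) hpr
    have h2 : dens P c a b z = 0 := by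
      unfold dens hh
      have h3 : ∏ p ∈ pz z, (1 - (rho (pol P a b) c p : ℝ) / p) = 0 := by
        apply prod_eq_zero hp
        rw [hre, div_self (by exact_mod_cast hpp.ne_zero), sub_self]
      rw [h3, mul_zero]
    have hall : ∀ m : ℕ, (p : ℤ) ∣ (pol P a b).eval (m : ℤ) + c := by
      intro m
      have h3 : (range p).filter (fun a' : ℕ => (p : ℤ) ∣ (pol P a b).eval (a' : ℤ) + c) = range p := by
        apply eq_of_subset_of_card_le (filter_subset _ _)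
        rw [card_range]
        exact hpr
      have h4 : m % p ∈ (range p).filter (fun a' : ℕ => (p : ℤ) ∣ (pol P a b).eval (a' : ℤ) + c) := by
        rw [h3, mem_range]; exact Nat.mod_lt _ hpp.pos
      have h5 := (mem_filter.1 h4).2
      have h6 : ((m : ℤ) - ((m % p : ℕ) : ℤ)) ∣ (pol P a b).eval (m : ℤ) - (pol P a b).eval ((m % p : ℕ) : ℤ) :=
        Polynomial.sub_dvd_eval_sub _ _ _
      have h7 : (p : ℤ) ∣ (m : ℤ) - ((m % p : ℕ) : ℤ) := by
        have := Nat.div_add_mod m p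
        refine ⟨((m / p : ℕ) : ℤ), ?_⟩
        have h8 : ((p * (m / p) + m % p : ℕ) : ℤ) = m := by exact_mod_cast this
        push_cast at h8 ⊢
        linarith
      have h8 := dvd_add (h7.trans h6) h5
      have e : (pol P a b).eval (m : ℤ) - (pol P a b).eval ((m % p : ℕ) : ℤ) + ((pol P a b).eval ((m % p : ℕ) : ℤ) + c) =
          (pol P a b).eval (m : ℤ) + c := by ring
      rwa [e] at h8
    have h3 : ∑ m ∈ Ioc u v, lamz z (vN (pol P a b) c m) = 0 := by
      apply sum_eq_zero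
      intro m _
      unfold lamz
      rw [if_neg]
      intro h
      apply h p hp
      have h4 := hall m
      unfold vN
      exact Int.natCast_dvd.1 h4
    rw [h2, h3, mul_zero, sub_zero, abs_zero]
    positivity

/-- **Most pairs: primes with weights.** -/
theorem theta (d U K : ℕ) (hd : 2 ≤ d) : ∃ C E1 : ℕ, ∀ E : ℕ, ∃ x0 : ℕ, ∀ x : ℕ, x0 ≤ x → ∀ z : ℕ,
    Real.log x ^ E1 ≤ z → (z : ℝ) ≤ Real.log x ^ E → ∀ D B : ℕ, Real.log x ^ C ≤ D → (D : ℝ) ≤ (x : ℝ) ^ K →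
    (D : ℝ) * x ≤ B * Real.log x ^ K → (B : ℝ) ≤ D * x * Real.log x ^ K →
    ∀ P : ℤ[X], P.natDegree + 1 ≤ d → (∀ m ∈ Icc 1 x, ((|P.eval (m : ℤ)| : ℤ) : ℝ) ≤ B * Real.log x ^ K) →
    ∀ c : ℤ, c ≠ 0 → ((|c| : ℤ) : ℝ) ≤ B * x * Real.log x ^ K →
    ∃ Bad ⊆ Icc 1 D ×ˢ Icc 1 B, (Bad.card : ℝ) ≤ D * B / Real.log x ^ U ∧
      ∀ a ∈ Icc 1 D, ∀ b ∈ Icc 1 B, (a, b) ∉ Bad → ∀ u v : ℕ, u ≤ v → v ≤ x → (∀ m ∈ Ioc u v, 0 ≤ val P c a b m) →
        |∑ m ∈ Ioc u v, (th (val P c a b m).toNat - dens P c a b z)| ≤ x / Real.log x ^ U := by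
  obtain ⟨C, E1, hwin⟩ := windows (U + 1) K
  refine ⟨C, E1 + 1, fun E => ?_⟩
  obtain ⟨x1, h1⟩ := hwin E
  obtain ⟨x2, z0, h2⟩ := model_window d (U + 1) E hd
  obtain ⟨n1, hn1⟩ := ev_L' (max (4 : ℝ) z0)
  refine ⟨max (max x1 x2) (max n1 3), fun x hx z hz1 hz2 D B hD1 hD2 hDB hBD P hP hPB c hc0 hc => ?_⟩
  have hx1 : x1 ≤ x := le_trans (le_trans (le_max_left _ _) (le_max_left _ _)) hx
  have hx2 : x2 ≤ x := le_trans (le_trans (le_max_right _ _) (le_max_left _ _)) hx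
  have a1 := hn1 x (le_trans (le_trans (le_max_left _ _) (le_max_right _ _)) hx)
  have hx3 : 3 ≤ x := le_trans (le_trans (le_max_right _ _) (le_max_right _ _)) hx
  set L := Real.log x with hL
  have hL4 : 4 ≤ L := (le_max_left _ _).trans a1
  have hLz : (z0 : ℝ) ≤ L := (le_max_right _ _).trans a1
  have hL1 : 1 ≤ L := by linarith
  have hL0 : 0 < L := by linarith
  have hx0 : (0 : ℝ) < x := by exact_mod_cast (by omega : 0 < x)
  have hLE : L ≤ L ^ (E1 + 1) := le_self_pow₀ hL1 (by omega)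
  have hzz : z0 ≤ z := by
    have : (z0 : ℝ) ≤ z := hLz.trans (hLE.trans hz1)
    exact_mod_cast this
  have hz2' : 2 ≤ z := by
    have : (2 : ℝ) ≤ z := by linarith
    exact_mod_cast this
  obtain ⟨Bad, hB1, hB2, hB3⟩ := h1 x hx1 z ((pow_le_pow_right₀ hL1 (by omega)).trans hz1) hz2 D B hD1 hD2 hDB hBD
    (fun m => P.eval (m : ℤ)) hPB c hc0 hc (fun _ => 1) (fun _ => by rw [abs_one])
  have hUU : ∀ y : ℝ, 0 ≤ y → y / L ^ (U + 1) ≤ (1 / 4) * (y / L ^ U) := by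
    intro y hy
    have h3 : y / L ^ (U + 1) = (1 / L) * (y / L ^ U) := by rw [pow_succ]; field_simp
    rw [h3]
    apply mul_le_mul_of_nonneg_right _ (by positivity)
    exact one_div_le_one_div_of_le (by norm_num) hL4
  refine ⟨Bad, hB1, ?_, fun a ha b hb hab u v huv hvx hpos => ?_⟩
  · refine hB2.trans ((hUU _ (by positivity)).trans ?_)
    have : 0 ≤ (D : ℝ) * B / L ^ U := by positivity
    linarith
  · have h3 := hB3 a ha b hb hab u v huv hvx
    have h4 := h2 x hx2 z hzz hz2' hz2 P c a b hP u v huv hvx hpos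
    have e : ∑ m ∈ Ioc u v, (th (val P c a b m).toNat - dens P c a b z) =
        ∑ m ∈ Ioc u v, 1 * FF z (c + m * (P.eval (m : ℤ) + (a : ℤ) * m + (b : ℤ))).toNat +
        (∑ m ∈ Ioc u v, lamz z (val P c a b m).toNat - ((v : ℝ) - u) * dens P c a b z) := by
      rw [sum_sub_distrib, sum_const, Nat.card_Ioc, nsmul_eq_mul, Nat.cast_sub huv]
      have h5 : ∑ m ∈ Ioc u v, 1 * FF z (c + m * (P.eval (m : ℤ) + (a : ℤ) * m + (b : ℤ))).toNat =
          ∑ m ∈ Ioc u v, th (val P c a b m).toNat - ∑ m ∈ Ioc u v, lamz z (val P c a b m).toNat := by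
        rw [← sum_sub_distrib]
        refine sum_congr rfl fun m _ => ?_
        rw [one_mul]
        rfl
      rw [h5]; ring
    rw [e]
    refine (abs_add_le _ _).trans ?_
    have h5 := hUU x hx0.le
    have : 0 ≤ (x : ℝ) / L ^ U := by positivity
    linarith

end Pool.Agent.Y868.TA
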