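import Mathlib
import Pool.Agent.H807R2.Dav1

/-! Discrete Fourier analysis, the row sum bound and the arcs. -/

set_option autoImplicit false

namespace Pool.Agent.Y868.TA

open Finset
open Pool.Agent.H807R2.Dav

lemma conj_ee (x : ℝ) : (starRingEnd ℂ) (ee x) = ee (-x) := by
  unfold ee
  rw [← Complex.exp_conj]
  congr 1
  simp only [map_mul, Complex.conj_ofReal, Complex.conj_I, map_ofNat]
  push_cast
  ring

lemma sum_ee (N : ℕ) (hN : 1 ≤ N) (k : ℤ) :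
    ∑ h ∈ range N, ee ((k : ℝ) * ((h : ℝ) / N)) = if (N : ℤ) ∣ k then (N : ℂ) else 0 := by
  have hN0 : (N : ℝ) ≠ 0 := by
    have : 0 < N := hN
    positivity
  have h1 : ∀ h ∈ range N, ee ((k : ℝ) * ((h : ℝ) / N)) = ee ((k : ℝ) / N) ^ h := by
    intro h _
    rw [← ee_pow]; congr 1; ring
  rw [sum_congr rfl h1]
  split_ifs with hd
  · obtain ⟨j, rfl⟩ := hd
    have h2 : ee ((((N : ℤ) * j : ℤ) : ℝ) / N) = 1 := by
      have h3 : ((((N : ℤ) * j : ℤ) : ℝ) / N) = (j : ℝ) := by push_cast; field_simp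
      rw [h3, ee_int]
    rw [h2]; simp
  · have hne : ee ((k : ℝ) / N) ≠ 1 := by
      intro h
      unfold ee at h
      rw [Complex.exp_eq_one_iff] at h
      obtain ⟨n, hn⟩ := h
      apply hd
      refine ⟨n, ?_⟩
      have hpi : (2 * (Real.pi : ℂ) * Complex.I) ≠ 0 := Complex.two_pi_I_ne_zero
      have h2 : (2 * (Real.pi : ℂ) * Complex.I) * ((((k : ℝ) / N : ℝ)) : ℂ) = (2 * (Real.pi : ℂ) * Complex.I) * ((n : ℝ) : ℂ) := by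
        rw [hn]; push_cast; ring
      have h3 := mul_left_cancel₀ hpi h2
      have h4 : (k : ℝ) / N = n := by exact_mod_cast h3
      rw [div_eq_iff hN0] at h4
      have h5 : (k : ℝ) = ((N * n : ℤ) : ℝ) := by push_cast; rw [h4]; ring
      exact_mod_cast h5
    have hpow : ee ((k : ℝ) / N) ^ N = 1 := by
      rw [← ee_pow]
      have h2 : ((N : ℕ) : ℝ) * ((k : ℝ) / N) = (k : ℝ) := by field_simp
      rw [h2, ee_int]
    rw [geom_sum_eq hne, hpow, sub_self, zero_div]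

/-- Parseval -/
lemma parseval (N : ℕ) (hN : 1 ≤ N) (I : Finset ℤ) (hI : ∀ s ∈ I, ∀ t ∈ I, (N : ℤ) ∣ s - t → s = t)
    (g : ℤ → ℝ) :
    ∑ h ∈ range N, ‖∑ b ∈ I, (g b : ℂ) * ee ((b : ℝ) * ((h : ℝ) / N))‖ ^ 2 = N * ∑ b ∈ I, g b ^ 2 := by
  have key : ((∑ h ∈ range N, ‖∑ b ∈ I, (g b : ℂ) * ee ((b : ℝ) * ((h : ℝ) / N))‖ ^ 2 : ℝ) : ℂ) =
      ((N * ∑ b ∈ I, g b ^ 2 : ℝ) : ℂ) := by
    push_cast
    have h1 : ∀ h ∈ range N, ((‖∑ b ∈ I, (g b : ℂ) * ee ((b : ℝ) * ((h : ℝ) / N))‖ : ℝ) : ℂ) ^ 2 =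
        ∑ s ∈ I, ∑ t ∈ I, ((g s : ℂ) * g t) * ee (((s - t : ℤ) : ℝ) * ((h : ℝ) / N)) := by
      intro h _
      rw [← Complex.mul_conj', map_sum, sum_mul_sum]
      refine sum_congr rfl fun s _ => sum_congr rfl fun t _ => ?_
      rw [map_mul, conj_ee, Complex.conj_ofReal]
      have h2 : ee (((s - t : ℤ) : ℝ) * ((h : ℝ) / N)) = ee ((s : ℝ) * ((h : ℝ) / N)) * ee (-((t : ℝ) * ((h : ℝ) / N))) := by
        rw [← ee_add]; congr 1; push_cast; ring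
      rw [h2]; ring
    rw [sum_congr rfl h1, sum_comm, mul_sum]
    refine sum_congr rfl fun s hs => ?_
    rw [sum_comm]
    have h2 : ∀ t ∈ I, ∑ h ∈ range N, ((g s : ℂ) * g t) * ee (((s - t : ℤ) : ℝ) * ((h : ℝ) / N)) =
        if t = s then (N : ℂ) * (g s : ℂ) ^ 2 else 0 := by
      intro t ht
      rw [← mul_sum, sum_ee N hN]
      by_cases hts : t = s
      · subst hts
        rw [if_pos rfl, if_pos (by simp)]
        ring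
      · rw [if_neg hts, if_neg (fun h => hts (hI s hs t ht h).symm), mul_zero]
    rw [sum_congr rfl h2, sum_ite_eq' I s, if_pos hs]
  exact_mod_cast key

lemma norm_sum_ee_neg (A : Finset ℕ) (y : ℝ) :
    ‖∑ a ∈ A, ee ((a : ℝ) * (-y))‖ = ‖∑ a ∈ A, ee ((a : ℝ) * y)‖ := by
  have h : ∑ a ∈ A, ee ((a : ℝ) * (-y)) = (starRingEnd ℂ) (∑ a ∈ A, ee ((a : ℝ) * y)) := by
    rw [map_sum]
    refine sum_congr rfl fun a _ => ?_
    rw [conj_ee]; congr 1; ring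
  rw [h, RCLike.norm_conj]

/-- Schur's test -/
lemma schur (A M : Finset ℕ) (c : ℕ → ℂ) (θ ρ : ℝ)
    (hρ : ∀ m ∈ M, ∑ m' ∈ M, ‖∑ a ∈ A, ee ((a : ℝ) * (((m' : ℝ) - m) * θ))‖ ≤ ρ) :
    ∑ a ∈ A, ‖∑ m ∈ M, c m * ee (-((a : ℝ) * ((m : ℝ) * θ)))‖ ^ 2 ≤ ρ * ∑ m ∈ M, ‖c m‖ ^ 2 := by
  set K : ℕ → ℕ → ℂ := fun m m' => ∑ a ∈ A, ee ((a : ℝ) * (((m' : ℝ) - m) * θ)) with hK
  have hsym : ∀ m m', ‖K m m'‖ = ‖K m' m‖ := by
    intro m m'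
    have h1 : K m m' = ∑ a ∈ A, ee ((a : ℝ) * (-(((m : ℝ) - m') * θ))) := by
      rw [hK]
      refine sum_congr rfl fun a _ => ?_
      congr 1; ring
    rw [h1, norm_sum_ee_neg]
  have key : ((∑ a ∈ A, ‖∑ m ∈ M, c m * ee (-((a : ℝ) * ((m : ℝ) * θ)))‖ ^ 2 : ℝ) : ℂ) =
      ∑ m ∈ M, ∑ m' ∈ M, (c m * (starRingEnd ℂ) (c m')) * K m m' := by
    push_cast
    have h1 : ∀ a ∈ A, ((‖∑ m ∈ M, c m * ee (-((a : ℝ) * ((m : ℝ) * θ)))‖ : ℝ) : ℂ) ^ 2 =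
        ∑ m ∈ M, ∑ m' ∈ M, (c m * (starRingEnd ℂ) (c m')) * ee ((a : ℝ) * (((m' : ℝ) - m) * θ)) := by
      intro a _
      rw [← Complex.mul_conj', map_sum, sum_mul_sum]
      refine sum_congr rfl fun m _ => sum_congr rfl fun m' _ => ?_
      rw [map_mul, conj_ee]
      have h2 : ee ((a : ℝ) * (((m' : ℝ) - m) * θ)) = ee (-((a : ℝ) * ((m : ℝ) * θ))) * ee (-(-((a : ℝ) * ((m' : ℝ) * θ)))) := by
        rw [← ee_add]; congr 1; ring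
      rw [h2]; ring
    rw [sum_congr rfl h1, sum_comm]
    refine sum_congr rfl fun m _ => ?_
    rw [sum_comm]
    refine sum_congr rfl fun m' _ => ?_
    rw [hK, mul_sum]
  have hS0 : 0 ≤ ∑ a ∈ A, ‖∑ m ∈ M, c m * ee (-((a : ℝ) * ((m : ℝ) * θ)))‖ ^ 2 :=
    sum_nonneg fun _ _ => by positivity
  have h1 : ∑ a ∈ A, ‖∑ m ∈ M, c m * ee (-((a : ℝ) * ((m : ℝ) * θ)))‖ ^ 2 =
      ‖((∑ a ∈ A, ‖∑ m ∈ M, c m * ee (-((a : ℝ) * ((m : ℝ) * θ)))‖ ^ 2 : ℝ) : ℂ)‖ := by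
    rw [Complex.norm_real, Real.norm_of_nonneg hS0]
  rw [h1, key]
  calc ‖∑ m ∈ M, ∑ m' ∈ M, (c m * (starRingEnd ℂ) (c m')) * K m m'‖
      ≤ ∑ m ∈ M, ∑ m' ∈ M, ((‖c m‖ ^ 2 * ‖K m m'‖) / 2 + (‖c m'‖ ^ 2 * ‖K m' m‖) / 2) := by
        refine (norm_sum_le _ _).trans (sum_le_sum fun m _ => (norm_sum_le _ _).trans (sum_le_sum fun m' _ => ?_))
        rw [norm_mul, norm_mul, RCLike.norm_conj, ← hsym m m']
        have h2 := mul_nonneg (sq_nonneg (‖c m‖ - ‖c m'‖)) (norm_nonneg (K m m'))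
        nlinarith
    _ = ∑ m ∈ M, ‖c m‖ ^ 2 * ∑ m' ∈ M, ‖K m m'‖ := by
        simp only [sum_add_distrib]
        rw [sum_comm (f := fun m m' => (‖c m'‖ ^ 2 * ‖K m' m‖) / 2), ← sum_add_distrib]
        refine sum_congr rfl fun m _ => ?_
        rw [← sum_add_distrib, mul_sum]
        refine sum_congr rfl fun m' _ => ?_
        ring
    _ ≤ ∑ m ∈ M, ‖c m‖ ^ 2 * ρ := by
        refine sum_le_sum fun m hm => ?_
        exact mul_le_mul_of_nonneg_left (hρ m hm) (by positivity)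
    _ = ρ * ∑ m ∈ M, ‖c m‖ ^ 2 := by rw [← sum_mul, mul_comm]

lemma row (x D q : ℕ) (hq : 1 ≤ q) (u : ℤ) (hcop : IsCoprime u (q : ℤ)) (θ : ℝ)
    (hθ : |θ - u / q| ≤ 1 / (q : ℝ) ^ 2) (m : ℕ) :
    ∑ m' ∈ Icc 1 x, ‖∑ a ∈ Icc 1 D, ee ((a : ℝ) * (((m' : ℝ) - m) * θ))‖ ≤
      ((x : ℝ) / q + 1) * (39 * D + 3 * q * (1 + Real.log q)) := by
  refine le_trans ?_ (vino hq hcop hθ (Nat.cast_nonneg D) ((1 - m) * θ) x)
  have e1 : Icc 1 x = (range x).image (fun j => j + 1) := by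
    ext n
    simp only [mem_Icc, mem_image, mem_range]
    constructor
    · rintro ⟨h1, h2⟩; exact ⟨n - 1, by omega, by omega⟩
    · rintro ⟨j, h1, rfl⟩; omega
  rw [e1, sum_image (by intro a _ b _ h; simpa using h)]
  refine sum_le_sum fun j _ => ?_
  have e2 : Icc 1 D = Ico 1 (D + 1) := by ext n; simp only [mem_Icc, mem_Ico]; omega
  rw [e2]
  have h := geo_bound 1 (D + 1) (by omega) (M := D) (by push_cast; linarith) ((((j + 1 : ℕ) : ℝ) - m) * θ)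
  refine h.trans (le_of_eq ?_)
  congr 1
  push_cast
  ring

/-- the Fourier transform of the `m`-th function -/
noncomputable def Gh (G : ℕ → ℤ → ℝ) (R m : ℕ) (θ : ℝ) : ℂ :=
  ∑ r ∈ Icc (-(R : ℤ)) R, (G m r : ℂ) * ee ((r : ℝ) * θ)

lemma shift_sum (G : ℕ → ℤ → ℝ) (R m : ℕ) (hG : ∀ r : ℤ, (R : ℤ) < |r| → G m r = 0) (s : ℤ) (hs : |s| ≤ R) (θ : ℝ) :
    ∑ b ∈ Icc (-(2 * R : ℤ)) (2 * R), (G m (s + b) : ℂ) * ee ((b : ℝ) * θ) = ee (-((s : ℝ) * θ)) * Gh G R m θ := by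
  unfold Gh
  rw [mul_sum]
  have h1 : ∑ r ∈ (Icc (-(2 * R : ℤ)) (2 * R)).image (fun b => s + b), ee (-((s : ℝ) * θ)) * ((G m r : ℂ) * ee ((r : ℝ) * θ)) =
      ∑ b ∈ Icc (-(2 * R : ℤ)) (2 * R), (G m (s + b) : ℂ) * ee ((b : ℝ) * θ) := by
    rw [sum_image (by intro a _ b _ h; simpa using h)]
    refine sum_congr rfl fun b _ => ?_
    have h2 : ee ((b : ℝ) * θ) = ee (-((s : ℝ) * θ)) * ee (((s + b : ℤ) : ℝ) * θ) := by
      rw [← ee_add]; congr 1; push_cast; ring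
    rw [h2]; ring
  rw [← h1]
  symm
  apply sum_subset
  · intro r hr
    rw [mem_Icc] at hr
    rw [mem_image]
    refine ⟨r - s, ?_, by ring⟩
    rw [mem_Icc]
    have := abs_le.1 hs
    constructor <;> linarith
  · intro r _ hr
    rw [hG r, Complex.ofReal_zero, zero_mul, mul_zero]
    by_contra h
    rw [not_lt] at h
    have h' := abs_le.1 h
    exact hr (mem_Icc.2 ⟨h'.1, h'.2⟩)

lemma I_inj (R : ℕ) : ∀ s ∈ Icc (-(2 * R : ℤ)) (2 * R), ∀ t ∈ Icc (-(2 * R : ℤ)) (2 * R),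
    ((4 * R + 1 : ℕ) : ℤ) ∣ s - t → s = t := by
  intro s hs t ht h
  rw [mem_Icc] at hs ht
  have h1 : s - t = 0 := by
    apply Int.eq_zero_of_abs_lt_dvd h
    push_cast
    rw [abs_lt]
    constructor <;> linarith
  linarith

/-- the mean square over the box by Fourier analysis -/
theorem parsV (x D B R : ℕ) (φ : ℕ → ℤ) (G : ℕ → ℤ → ℝ) (hG : ∀ m, ∀ r : ℤ, (R : ℤ) < |r| → G m r = 0)
    (hR : ∀ m ∈ Icc 1 x, ∀ a ∈ Icc 1 D, |φ m + (a : ℤ) * m| ≤ R) (hB : B ≤ 2 * R) (w : ℕ → ℝ) :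
    ∑ a ∈ Icc 1 D, ∑ b ∈ Icc 1 B, (∑ m ∈ Icc 1 x, w m * G m (φ m + (a : ℤ) * m + (b : ℤ))) ^ 2 ≤
      (1 / ((4 * R + 1 : ℕ) : ℝ)) * ∑ h ∈ range (4 * R + 1), ∑ a ∈ Icc 1 D,
        ‖∑ m ∈ Icc 1 x, ((w m : ℂ) * ee (-((φ m : ℝ) * ((h : ℝ) / (4 * R + 1 : ℕ)))) * Gh G R m ((h : ℝ) / (4 * R + 1 : ℕ))) *
          ee (-((a : ℝ) * ((m : ℝ) * ((h : ℝ) / (4 * R + 1 : ℕ)))))‖ ^ 2 := by
  rw [sum_comm (s := range (4 * R + 1)), mul_sum]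
  refine sum_le_sum fun a ha => ?_
  set g : ℤ → ℝ := fun b => ∑ m ∈ Icc 1 x, w m * G m (φ m + (a : ℤ) * m + b) with hg
  have h1 : ∑ b ∈ Icc 1 B, (∑ m ∈ Icc 1 x, w m * G m (φ m + (a : ℤ) * m + (b : ℤ))) ^ 2 ≤
      ∑ b ∈ Icc (-(2 * R : ℤ)) (2 * R), g b ^ 2 := by
    have h2 : ∑ b ∈ Icc 1 B, (∑ m ∈ Icc 1 x, w m * G m (φ m + (a : ℤ) * m + (b : ℤ))) ^ 2 =
        ∑ b ∈ (Icc 1 B).image (fun b : ℕ => (b : ℤ)), g b ^ 2 := by
      rw [sum_image (by intro a _ b _ h; simpa using h)]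
    rw [h2]
    apply sum_le_sum_of_subset_of_nonneg
    · intro b hb
      rw [mem_image] at hb
      obtain ⟨b', hb', rfl⟩ := hb
      rw [mem_Icc] at hb' ⊢
      constructor
      · have : (0 : ℤ) ≤ b' := Int.natCast_nonneg _
        have : (0 : ℤ) ≤ R := Int.natCast_nonneg _
        linarith
      · have := hb'.2.trans hB
        exact_mod_cast this
    · intro _ _ _; positivity
  refine h1.trans (le_of_eq ?_)
  have hp := parseval (4 * R + 1) (by omega) (Icc (-(2 * R : ℤ)) (2 * R)) (I_inj R) g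
  have hN0 : ((4 * R + 1 : ℕ) : ℝ) ≠ 0 := by positivity
  rw [one_div, eq_inv_mul_iff_mul_eq₀ hN0, ← hp]
  refine sum_congr rfl fun h _ => ?_
  congr 2
  set θ : ℝ := (h : ℝ) / (4 * R + 1 : ℕ) with hθ
  have h2 : ∀ b ∈ Icc (-(2 * R : ℤ)) (2 * R), ((g b : ℝ) : ℂ) * ee ((b : ℝ) * θ) =
      ∑ m ∈ Icc 1 x, (w m : ℂ) * ((G m ((φ m + (a : ℤ) * m) + b) : ℂ) * ee ((b : ℝ) * θ)) := by
    intro b _
    rw [hg]
    push_cast
    rw [sum_mul]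
    refine sum_congr rfl fun m _ => ?_
    ring
  rw [sum_congr rfl h2, sum_comm]
  refine sum_congr rfl fun m hm => ?_
  rw [← mul_sum, shift_sum G R m (hG m) _ (hR m hm a ha)]
  have h3 : ee (-(((φ m + (a : ℤ) * m : ℤ) : ℝ) * θ)) = ee (-((φ m : ℝ) * θ)) * ee (-((a : ℝ) * ((m : ℝ) * θ))) := by
    rw [← ee_add]; congr 1; push_cast; ring
  rw [h3]; ring

end Pool.Agent.Y868.TA
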