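import Pool.Agent.Y868.TA.A1

/-! The arcs. -/

set_option autoImplicit false

namespace Pool.Agent.Y868.TA

open Finset
open Pool.Agent.H807R2.Dav

/-- close to a fraction with a small denominator -/
def Maj (Q0 Q : ℕ) (θ : ℝ) : Prop :=
  ∃ q ∈ Icc 1 Q0, ∃ u ∈ range (q + 1), |θ - (u : ℝ) / q| ≤ 1 / ((q : ℝ) * (Q + 1))

lemma count_int (N : ℕ) (α δ : ℝ) (hδ : 0 ≤ δ) :
    (((range N).filter (fun h : ℕ => |(h : ℝ) - α| ≤ δ)).card : ℝ) ≤ 2 * δ + 1 := by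
  set S := (range N).filter (fun h : ℕ => |(h : ℝ) - α| ≤ δ) with hS
  have h1 : S.image (fun h : ℕ => (h : ℤ)) ⊆ Icc ⌈α - δ⌉ ⌊α + δ⌋ := by
    intro y hy
    rw [mem_image] at hy
    obtain ⟨h, hh, rfl⟩ := hy
    have h2 := abs_le.1 (mem_filter.1 hh).2
    rw [mem_Icc, Int.ceil_le, Int.le_floor]
    push_cast
    constructor <;> linarith
  have h2 : S.card = (S.image (fun h : ℕ => (h : ℤ))).card :=
    (card_image_of_injective _ Nat.cast_injective).symm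
  have h3 : (S.card : ℝ) ≤ ((Icc ⌈α - δ⌉ ⌊α + δ⌋).card : ℝ) := by
    rw [h2]; exact_mod_cast card_le_card h1
  refine h3.trans ?_
  rw [Int.card_Icc]
  have h4 : ((⌊α + δ⌋ + 1 - ⌈α - δ⌉ : ℤ) : ℝ) ≤ 2 * δ + 1 := by
    push_cast
    linarith [Int.floor_le (α + δ), Int.le_ceil (α - δ)]
  rcases le_total 0 (⌊α + δ⌋ + 1 - ⌈α - δ⌉) with h | h
  · have h5 : (((⌊α + δ⌋ + 1 - ⌈α - δ⌉).toNat : ℤ) : ℝ) = ((⌊α + δ⌋ + 1 - ⌈α - δ⌉ : ℤ) : ℝ) := by
      rw [Int.toNat_of_nonneg h]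
    have h6 : (((⌊α + δ⌋ + 1 - ⌈α - δ⌉).toNat : ℕ) : ℝ) = (((⌊α + δ⌋ + 1 - ⌈α - δ⌉).toNat : ℤ) : ℝ) := by
      push_cast; rfl
    rw [h6, h5]; exact h4
  · rw [Int.toNat_of_nonpos h]
    push_cast
    linarith

open Classical in
lemma maj_count (Q0 Q N : ℕ) (hN : 1 ≤ N) :
    (((range N).filter (fun h : ℕ => Maj Q0 Q ((h : ℝ) / N))).card : ℝ) ≤
      Q0 * ((Q0 + 1) * (2 * N / (Q + 1) + 1)) := by
  have hN0 : (0 : ℝ) < N := by exact_mod_cast hN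
  have h1 : (range N).filter (fun h : ℕ => Maj Q0 Q ((h : ℝ) / N)) ⊆
      (Icc 1 Q0).biUnion (fun q => (range (q + 1)).biUnion (fun u =>
        (range N).filter (fun h : ℕ => |(h : ℝ) - N * ((u : ℝ) / q)| ≤ N / (Q + 1)))) := by
    intro h hh
    rw [mem_filter] at hh
    obtain ⟨q, hq, u, hu, hb⟩ := hh.2
    rw [mem_biUnion]
    refine ⟨q, hq, ?_⟩
    rw [mem_biUnion]
    refine ⟨u, hu, ?_⟩
    rw [mem_filter]
    refine ⟨hh.1, ?_⟩
    have hq1 : (1 : ℝ) ≤ q := by exact_mod_cast (mem_Icc.1 hq).1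
    have h2 : (h : ℝ) - N * ((u : ℝ) / q) = N * ((h : ℝ) / N - (u : ℝ) / q) := by
      field_simp
    rw [h2, abs_mul, abs_of_pos hN0, div_eq_mul_one_div (N : ℝ)]
    apply mul_le_mul_of_nonneg_left (hb.trans _) hN0.le
    apply one_div_le_one_div_of_le (by positivity)
    exact le_mul_of_one_le_left (by positivity) hq1
  have h2 : ∀ q ∈ Icc 1 Q0, (((range (q + 1)).biUnion (fun u =>
        (range N).filter (fun h : ℕ => |(h : ℝ) - N * ((u : ℝ) / q)| ≤ N / (Q + 1)))).card : ℝ) ≤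
        (Q0 + 1) * (2 * N / (Q + 1) + 1) := by
    intro q hq
    have h3 : (((range (q + 1)).biUnion (fun u =>
        (range N).filter (fun h : ℕ => |(h : ℝ) - N * ((u : ℝ) / q)| ≤ N / (Q + 1)))).card : ℝ) ≤
        ∑ u ∈ range (q + 1), (((range N).filter (fun h : ℕ => |(h : ℝ) - N * ((u : ℝ) / q)| ≤ N / (Q + 1))).card : ℝ) := by
      exact_mod_cast card_biUnion_le
    refine h3.trans ?_
    have h4 : ∀ u ∈ range (q + 1), (((range N).filter (fun h : ℕ => |(h : ℝ) - N * ((u : ℝ) / q)| ≤ N / (Q + 1))).card : ℝ) ≤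
        2 * N / (Q + 1) + 1 := by
      intro u _
      refine (count_int N _ _ (by positivity)).trans (le_of_eq ?_)
      ring
    refine (sum_le_sum h4).trans ?_
    rw [sum_const, card_range, nsmul_eq_mul]
    apply mul_le_mul_of_nonneg_right _ (by positivity)
    have : q ≤ Q0 := (mem_Icc.1 hq).2
    push_cast
    have : (q : ℝ) ≤ Q0 := by exact_mod_cast this
    linarith
  calc (((range N).filter (fun h : ℕ => Maj Q0 Q ((h : ℝ) / N))).card : ℝ)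
      ≤ ∑ q ∈ Icc 1 Q0, (((range (q + 1)).biUnion (fun u =>
        (range N).filter (fun h : ℕ => |(h : ℝ) - N * ((u : ℝ) / q)| ≤ N / (Q + 1)))).card : ℝ) := by
        exact_mod_cast (card_le_card h1).trans card_biUnion_le
    _ ≤ ∑ q ∈ Icc 1 Q0, ((Q0 + 1) * (2 * N / (Q + 1) + 1) : ℝ) := sum_le_sum h2
    _ = _ := by
        rw [sum_const, nsmul_eq_mul, Nat.card_Icc]
        simp

/-- every point is on a major arc or satisfies the row sum bound -/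
lemma arcs (x D Q0 Q N h : ℕ) (hN : h < N) (hQ0 : 1 ≤ Q0) (hQ : 1 ≤ Q) (hM : ¬ Maj Q0 Q ((h : ℝ) / N)) (m : ℕ) :
    ∑ m' ∈ Icc 1 x, ‖∑ a ∈ Icc 1 D, ee ((a : ℝ) * (((m' : ℝ) - m) * ((h : ℝ) / N)))‖ ≤
      39 * x * D / Q0 + 39 * D + 3 * x * (1 + Real.log Q) + 3 * Q * (1 + Real.log Q) := by
  set θ : ℝ := (h : ℝ) / N with hθ
  have hN0 : (0 : ℝ) < N := by exact_mod_cast (by omega : 0 < N)
  have hθ0 : 0 ≤ θ := by positivity
  have hθ1 : θ < 1 := by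
    rw [hθ, div_lt_one hN0]; exact_mod_cast hN
  obtain ⟨r, hr1, hr2⟩ := Real.exists_rat_abs_sub_le_and_den_le θ (by omega : 0 < Q)
  set q : ℕ := r.den with hq
  have hq1 : 1 ≤ q := r.den_pos
  have hq0 : (0 : ℝ) < q := by exact_mod_cast hq1
  have hrq : ((r : ℚ) : ℝ) = (r.num : ℝ) / q := by
    rw [hq]; exact_mod_cast (Rat.num_div_den r).symm
  rw [hrq] at hr1
  have hcop : IsCoprime r.num (q : ℤ) := by
    rw [Int.isCoprime_iff_gcd_eq_one]
    have := r.reduced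
    rw [Nat.Coprime] at this
    rw [Int.gcd]
    simpa using this
  have hqQ : (q : ℝ) ≤ Q := by exact_mod_cast hr2
  have hQr : (1 : ℝ) ≤ Q := by exact_mod_cast hQ
  have hθq : |θ - (r.num : ℝ) / q| ≤ 1 / (q : ℝ) ^ 2 := by
    refine hr1.trans ?_
    rw [pow_two]
    apply one_div_le_one_div_of_le (by positivity)
    apply mul_le_mul_of_nonneg_right _ hq0.le
    linarith
  -- `q` is large
  have hqQ0 : Q0 < q := by
    by_contra hle
    rw [not_lt] at hle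
    apply hM
    have hlt : |θ - (r.num : ℝ) / q| < 1 / q := by
      refine lt_of_le_of_lt hr1 ?_
      apply one_div_lt_one_div_of_lt hq0
      nlinarith
    rw [abs_lt] at hlt
    have e1 : θ * q < r.num + 1 := by
      have h1 : θ < (r.num : ℝ) / q + 1 / q := by linarith [hlt.2]
      rw [← add_div, lt_div_iff₀ hq0] at h1
      exact h1
    have e2 : (r.num : ℝ) - 1 < θ * q := by
      have h1 : (r.num : ℝ) / q - 1 / q < θ := by linarith [hlt.1]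
      rw [← sub_div, div_lt_iff₀ hq0] at h1
      exact h1
    have hu0 : 0 ≤ r.num := by
      have h1 : (0 : ℝ) ≤ θ * q := by positivity
      have h2 : (-1 : ℝ) < r.num := by linarith
      have h3 : (-1 : ℤ) < r.num := by exact_mod_cast h2
      omega
    have hu1 : r.num < q + 1 := by
      have h1 : θ * q < 1 * q := mul_lt_mul_of_pos_right hθ1 hq0
      have h2 : (r.num : ℝ) < q + 1 := by linarith
      exact_mod_cast h2
    refine ⟨q, mem_Icc.2 ⟨hq1, hle⟩, r.num.toNat, mem_range.2 (by omega), ?_⟩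
    have h1 : ((r.num.toNat : ℕ) : ℝ) = (r.num : ℝ) := by
      have : ((r.num.toNat : ℕ) : ℤ) = r.num := Int.toNat_of_nonneg hu0
      exact_mod_cast congrArg (fun t : ℤ => (t : ℝ)) this
    rw [h1]
    refine hr1.trans (le_of_eq ?_)
    congr 1
    ring
  refine (row x D q hq1 r.num hcop θ hθq m).trans ?_
  have hQ0r : (1 : ℝ) ≤ Q0 := by exact_mod_cast hQ0
  have hqQ0r : (Q0 : ℝ) ≤ q := by exact_mod_cast hqQ0.le
  have hlog : Real.log q ≤ Real.log Q := Real.log_le_log hq0 hqQ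
  have hlog0 : 0 ≤ Real.log q := Real.log_nonneg (by exact_mod_cast hq1)
  have t1 : (x : ℝ) / q * (39 * D) ≤ 39 * x * D / Q0 := by
    rw [show (x : ℝ) / q * (39 * D) = 39 * x * D / q by ring]
    exact div_le_div_of_nonneg_left (by positivity) (by linarith) hqQ0r
  have t2 : (x : ℝ) / q * (3 * q * (1 + Real.log q)) ≤ 3 * x * (1 + Real.log Q) := by
    rw [show (x : ℝ) / q * (3 * q * (1 + Real.log q)) = 3 * x * (1 + Real.log q) by field_simp]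
    apply mul_le_mul_of_nonneg_left _ (by positivity)
    linarith
  have t3 : 3 * (q : ℝ) * (1 + Real.log q) ≤ 3 * Q * (1 + Real.log Q) := by
    apply mul_le_mul _ _ (by positivity) (by positivity)
    · linarith
    · linarith
  calc ((x : ℝ) / q + 1) * (39 * D + 3 * q * (1 + Real.log q)) =
        (x : ℝ) / q * (39 * D) + (x : ℝ) / q * (3 * q * (1 + Real.log q)) + 39 * D + 3 * q * (1 + Real.log q) := by ring
    _ ≤ _ := by linarith

open Classical in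
/-- the mean square over the box from the major arcs -/
theorem absV (x D B R Q0 Q : ℕ) (hQ0 : 1 ≤ Q0) (hQ : 1 ≤ Q) (φ : ℕ → ℤ) (G : ℕ → ℤ → ℝ)
    (hG : ∀ m, ∀ r : ℤ, (R : ℤ) < |r| → G m r = 0)
    (hR : ∀ m ∈ Icc 1 x, ∀ a ∈ Icc 1 D, |φ m + (a : ℤ) * m| ≤ R) (hB : B ≤ 2 * R) (w : ℕ → ℝ)
    (hw : ∀ m, |w m| ≤ 1) (S : ℝ) (hS : ∀ θ, Maj Q0 Q θ → ∑ m ∈ Icc 1 x, |w m| * ‖Gh G R m θ‖ ≤ S) :
    ∑ a ∈ Icc 1 D, ∑ b ∈ Icc 1 B, (∑ m ∈ Icc 1 x, w m * G m (φ m + (a : ℤ) * m + (b : ℤ))) ^ 2 ≤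
      (39 * x * D / Q0 + 39 * D + 3 * x * (1 + Real.log Q) + 3 * Q * (1 + Real.log Q)) *
        (∑ m ∈ Icc 1 x, ∑ r ∈ Icc (-(R : ℤ)) R, G m r ^ 2) +
      Q0 * ((Q0 + 1) * (2 / (Q + 1) + 1 / (4 * R + 1))) * (D * S ^ 2) := by
  set N : ℕ := 4 * R + 1 with hN
  have hN1 : 1 ≤ N := by omega
  have hN0 : (0 : ℝ) < N := by exact_mod_cast hN1
  set ρ : ℝ := 39 * x * D / Q0 + 39 * D + 3 * x * (1 + Real.log Q) + 3 * Q * (1 + Real.log Q) with hρ
  have hlogQ : 0 ≤ Real.log Q := Real.log_nonneg (by exact_mod_cast hQ)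
  have hρ0 : 0 ≤ ρ := by rw [hρ]; positivity
  refine (parsV x D B R φ G hG hR hB w).trans ?_
  rw [← hN]
  set c : ℝ → ℕ → ℂ := fun θ m => (w m : ℂ) * ee (-((φ m : ℝ) * θ)) * Gh G R m θ with hc
  have hcn : ∀ θ m, ‖c θ m‖ = |w m| * ‖Gh G R m θ‖ := by
    intro θ m
    rw [hc, norm_mul, norm_mul, norm_ee, mul_one, Complex.norm_real, Real.norm_eq_abs]
  have hcn1 : ∀ θ m, ‖c θ m‖ ≤ ‖Gh G R m θ‖ := by
    intro θ m
    rw [hcn]
    exact mul_le_of_le_one_left (norm_nonneg _) (hw m)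
  have hpt : ∀ h ∈ range N, ∑ a ∈ Icc 1 D, ‖∑ m ∈ Icc 1 x, c ((h : ℝ) / N) m * ee (-((a : ℝ) * ((m : ℝ) * ((h : ℝ) / N))))‖ ^ 2 ≤
      ρ * ∑ m ∈ Icc 1 x, ‖Gh G R m ((h : ℝ) / N)‖ ^ 2 + (if Maj Q0 Q ((h : ℝ) / N) then D * S ^ 2 else 0) := by
    intro h hh
    rw [mem_range] at hh
    set θ : ℝ := (h : ℝ) / N with hθ
    have h0 : 0 ≤ ρ * ∑ m ∈ Icc 1 x, ‖Gh G R m θ‖ ^ 2 := mul_nonneg hρ0 (sum_nonneg fun _ _ => by positivity)
    by_cases hM : Maj Q0 Q θ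
    · rw [if_pos hM]
      have hS' := hS θ hM
      have hS0 : 0 ≤ ∑ m ∈ Icc 1 x, |w m| * ‖Gh G R m θ‖ := sum_nonneg fun _ _ => by positivity
      have h1 : ∀ a ∈ Icc 1 D, ‖∑ m ∈ Icc 1 x, c θ m * ee (-((a : ℝ) * ((m : ℝ) * θ)))‖ ^ 2 ≤ S ^ 2 := by
        intro a _
        apply pow_le_pow_left₀ (norm_nonneg _)
        refine (norm_sum_le _ _).trans (le_trans (sum_le_sum fun m _ => ?_) hS')
        rw [norm_mul, norm_ee, mul_one, hcn]
      have h2 := sum_le_sum h1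
      rw [sum_const, Nat.card_Icc, nsmul_eq_mul] at h2
      have h3 : ((D + 1 - 1 : ℕ) : ℝ) = D := by simp
      rw [h3] at h2
      linarith
    · rw [if_neg hM, add_zero]
      have h1 := schur (Icc 1 D) (Icc 1 x) (c θ) θ ρ (fun m _ => arcs x D Q0 Q N h hh hQ0 hQ hM m)
      refine h1.trans (mul_le_mul_of_nonneg_left ?_ hρ0)
      exact sum_le_sum fun m _ => pow_le_pow_left₀ (norm_nonneg _) (hcn1 θ m) 2
  have hI : ∀ s ∈ Icc (-(R : ℤ)) R, ∀ t ∈ Icc (-(R : ℤ)) R, (N : ℤ) ∣ s - t → s = t := by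
    intro s hs t ht h
    rw [mem_Icc] at hs ht
    have hR0 : (0 : ℤ) ≤ R := Int.natCast_nonneg _
    refine I_inj R s (mem_Icc.2 ⟨by linarith, by linarith⟩) t (mem_Icc.2 ⟨by linarith, by linarith⟩) h
  have hpars : ∀ m, ∑ h ∈ range N, ‖Gh G R m ((h : ℝ) / N)‖ ^ 2 = N * ∑ r ∈ Icc (-(R : ℤ)) R, G m r ^ 2 := by
    intro m
    exact parseval N hN1 _ hI (G m)
  calc (1 / (N : ℝ)) * ∑ h ∈ range N, ∑ a ∈ Icc 1 D, ‖∑ m ∈ Icc 1 x, c ((h : ℝ) / N) m * ee (-((a : ℝ) * ((m : ℝ) * ((h : ℝ) / N))))‖ ^ 2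
      ≤ (1 / (N : ℝ)) * ∑ h ∈ range N, (ρ * ∑ m ∈ Icc 1 x, ‖Gh G R m ((h : ℝ) / N)‖ ^ 2 + (if Maj Q0 Q ((h : ℝ) / N) then D * S ^ 2 else 0)) :=
        mul_le_mul_of_nonneg_left (sum_le_sum hpt) (by positivity)
    _ = ρ * (∑ m ∈ Icc 1 x, ∑ r ∈ Icc (-(R : ℤ)) R, G m r ^ 2) +
        (1 / (N : ℝ)) * ((((range N).filter (fun h : ℕ => Maj Q0 Q ((h : ℝ) / N))).card : ℝ) * (D * S ^ 2)) := by
        rw [sum_add_distrib, ← mul_sum, sum_comm (s := range N), sum_congr rfl (fun m _ => hpars m), ← mul_sum,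
          ← sum_filter, sum_const, nsmul_eq_mul]
        field_simp
    _ ≤ _ := by
        have h1 := maj_count Q0 Q N hN1
        have h2 : (1 / (N : ℝ)) * ((((range N).filter (fun h : ℕ => Maj Q0 Q ((h : ℝ) / N))).card : ℝ) * (D * S ^ 2)) ≤
            (1 / (N : ℝ)) * ((Q0 * ((Q0 + 1) * (2 * N / (Q + 1) + 1))) * (D * S ^ 2)) := by
          apply mul_le_mul_of_nonneg_left _ (by positivity)
          exact mul_le_mul_of_nonneg_right h1 (by positivity)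
        have h3 : (1 / (N : ℝ)) * ((Q0 * ((Q0 + 1) * (2 * N / (Q + 1) + 1))) * (D * S ^ 2)) =
            Q0 * ((Q0 + 1) * (2 / (Q + 1) + 1 / N)) * (D * S ^ 2) := by
          have hQ1 : (Q : ℝ) + 1 ≠ 0 := by positivity
          field_simp
        have h4 : (N : ℝ) = 4 * R + 1 := by rw [hN]; push_cast; ring
        have h5 : (1 : ℝ) / (4 * R + 1) = 1 / N := by rw [h4]
        rw [h3] at h2
        rw [h5]
        linarith

end Pool.Agent.Y868.TA
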