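import Pool.Agent.H343R2.EH.Psi
import Pool.Agent.H343R2.EH.Primes
import Pool.Agent.H373R2.T7.LamZ2
import Pool.Agent.H373R2.T7.LamMaj

/-! Sums over residue classes of the primes and of the sieve model. -/

set_option autoImplicit false

namespace Pool.Agent.Y868.TA

open Finset
open Pool.Agent.H373R2.T7
open H343E (Fam psiAP psi1)

/-- the primes with weight `log p` -/
noncomputable def th (n : ℕ) : ℝ := if n.Prime then Real.log n else 0

/-- the difference function -/
noncomputable def FF (z n : ℕ) : ℝ := th n - lamz z n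

/-- sum over a residue class -/
noncomputable def cs (f : ℕ → ℝ) (Y k a : ℕ) : ℝ := ∑ n ∈ (Icc 1 Y).filter (fun n => n ≡ a [MOD k]), f n

lemma cs_sub (f g : ℕ → ℝ) (Y k a : ℕ) : cs (fun n => f n - g n) Y k a = cs f Y k a - cs g Y k a := by
  unfold cs; rw [sum_sub_distrib]

lemma th_nonneg (n : ℕ) : 0 ≤ th n := by
  unfold th
  split_ifs
  · exact Real.log_natCast_nonneg n
  · exact le_rfl

lemma th_le (n X : ℕ) (hX : 1 ≤ X) (h : n ≤ X) : th n ≤ Real.log X := by
  unfold th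
  split_ifs with hp
  · exact Real.log_le_log (by exact_mod_cast hp.pos) (by exact_mod_cast h)
  · exact Real.log_nonneg (by exact_mod_cast hX)

/-- residue classes are disjoint -/
lemma disj_classes {A : ℝ} {L : ℕ → Finset ℕ} (hL : Fam A L) (g : ℕ → ℝ) (hg : ∀ n, 0 ≤ g n) (Y k : ℕ) :
    ∑ a ∈ L k, cs g Y k a ≤ ∑ n ∈ Icc 1 Y, g n := by
  have h1 : ∀ a, cs g Y k a = ∑ m ∈ Icc 1 Y, (if m ≡ a [MOD k] then g m else 0) := by
    intro a
    unfold cs
    rw [sum_filter]
  simp only [h1]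
  rw [sum_comm]
  apply sum_le_sum
  intro m _
  by_cases h3 : m % k ∈ L k
  · rw [sum_eq_single (m % k)]
    · split_ifs
      · exact le_rfl
      · exact hg m
    · intro b hb hne
      have hbq := (hL.cop k b hb).1
      rw [if_neg]
      intro h4
      apply hne
      have : m % k = b % k := h4
      rw [this, Nat.mod_eq_of_lt hbq]
    · intro h; exact absurd h3 h
  · rw [sum_eq_zero]
    · exact hg m
    · intro b hb
      have hbq := (hL.cop k b hb).1
      rw [if_neg]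
      intro h4
      apply h3
      have : m % k = b % k := h4
      rw [this, Nat.mod_eq_of_lt hbq]
      exact hb

lemma psi_th {A : ℝ} {L : ℕ → Finset ℕ} (hL : Fam A L) (Y k : ℕ) (hY : 1 ≤ Y) :
    ∑ a ∈ L k, |cs th Y k a - psiAP Y k a| ≤ 2 * (√(Y : ℝ) * Real.log Y) := by
  have hY1 : (1 : ℝ) ≤ Y := by exact_mod_cast hY
  have hg : ∀ n : ℕ, 0 ≤ ArithmeticFunction.vonMangoldt n - th n := by
    intro n
    unfold th
    split_ifs with hp
    · rw [ArithmeticFunction.vonMangoldt_apply_prime hp, sub_self]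
    · rw [sub_zero]; exact ArithmeticFunction.vonMangoldt_nonneg
  have h1 : ∀ a, |cs th Y k a - psiAP Y k a| = cs (fun n => ArithmeticFunction.vonMangoldt n - th n) Y k a := by
    intro a
    rw [abs_sub_comm]
    have h2 : psiAP Y k a - cs th Y k a = cs (fun n => ArithmeticFunction.vonMangoldt n - th n) Y k a := by
      rw [cs_sub]
      unfold psiAP cs
      rw [Nat.floor_natCast]
    rw [h2, abs_of_nonneg]
    exact sum_nonneg fun n _ => hg n
  simp only [h1]
  refine (disj_classes hL _ hg Y k).trans ?_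
  have h3 := Chebyshev.psi_sub_theta_le hY1
  rw [Chebyshev.psi_sub_theta_eq_sum_not_prime, Nat.floor_natCast] at h3
  have h4 : ∑ n ∈ Icc 1 Y, (ArithmeticFunction.vonMangoldt n - th n) =
      ∑ n ∈ (Ioc 0 Y).filter (fun n => ¬ n.Prime), ArithmeticFunction.vonMangoldt n := by
    rw [sum_filter]
    have h0 : Icc 1 Y = Ioc 0 Y := by ext; simp [Nat.succ_le_iff]
    rw [h0]
    refine sum_congr rfl fun n _ => ?_
    unfold th
    by_cases hp : n.Prime
    · rw [if_pos hp, if_neg (by simpa using hp), ArithmeticFunction.vonMangoldt_apply_prime hp, sub_self]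
    · rw [if_neg hp, if_pos hp, sub_zero]
  rw [h4]
  linarith

/-- the numbers free of small primes in a progression -/
lemma rough_ap2 (z q c y r : ℕ) (hq : 1 ≤ q) (hc : c.Coprime q) :
    |(((Icc 1 y).filter (fun n => n ≡ c [MOD q])).filter (fun n => ∀ p ∈ pz z, ¬ p ∣ n)).card -
      (y : ℝ) / q * ∏ p ∈ (pz z).filter (fun p => ¬ p ∣ q), (1 - 1 / (p : ℝ))| ≤
      ((z : ℝ) + 1) ^ r + 2 * (y / q) * Real.exp (3 * (1 + Real.log z) - r) := by
  set T := (pz z).filter (fun p => ¬ p ∣ q) with hT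
  have hq0 : (0 : ℝ) < q := by exact_mod_cast hq
  have hTz : T ⊆ pz z := filter_subset _ _
  have e1 : ((Icc 1 y).filter (fun n => n ≡ c [MOD q])).filter (fun n => ∀ p ∈ pz z, ¬ p ∣ n) =
      ((Icc 1 y).filter (fun n => n ≡ c [MOD q])).filter (fun n => ∀ p ∈ T, ¬ p ∣ n) := by
    apply filter_congr
    intro n hn
    rw [mem_filter] at hn
    constructor
    · intro h p hp
      exact h p (hTz hp)
    · intro h p hp hpn
      by_cases hpq : p ∣ q
      · have h1 : p ∣ c := (hn.2.dvd_iff hpq).1 hpn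
        have h2 := Nat.dvd_gcd h1 hpq
        rw [hc] at h2
        exact (mem_pz.1 hp).2.one_lt.ne' (Nat.dvd_one.1 h2)
      · exact h p (mem_filter.2 ⟨hp, hpq⟩) hpn
  rw [e1]
  have key := sieve_gen' ((Icc 1 y).filter (fun n => n ≡ c [MOD q])) (fun _ => (1 : ℝ)) (fun _ _ => zero_le_one)
    (fun p n => p ∣ n) T (fun p => 1 / (p : ℝ)) (fun p hp => by
      have hp2 : (2 : ℝ) ≤ p := by exact_mod_cast (mem_pz.1 (hTz hp)).2.two_le
      constructor
      · positivity
      · rw [div_le_one (by linarith)]; linarith) ((y : ℝ) / q) (by positivity) (fun _ => 1) r (by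
      intro S hS _
      have hSp : ∀ p ∈ S, p.Prime := fun p hp => (mem_pz.1 (hTz (hS hp))).2
      have h := count_sys (fun _ a => a = 0) y S hSp q hq (fun p hp => (mem_filter.1 (hS hp)).2) c
      have h1 : ∀ p ∈ S, (((range p).filter (fun a => a = 0)).card : ℝ) = 1 := by
        intro p hp
        have : (range p).filter (fun a => a = 0) = {0} := by
          ext a
          rw [mem_filter, mem_range, mem_singleton]
          constructor
          · rintro ⟨_, h⟩; exact h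
          · rintro rfl; exact ⟨(hSp p hp).pos, rfl⟩
        rw [this]; simp
      have h2 : ∏ p ∈ S, ((((range p).filter (fun a => a = 0)).card : ℝ) / p) = ∏ p ∈ S, (1 / (p : ℝ)) :=
        prod_congr rfl fun p hp => by rw [h1 p hp]
      rw [h2, prod_congr rfl h1, prod_const_one] at h
      have h3 : ∑ i ∈ ((Icc 1 y).filter (fun n => n ≡ c [MOD q])) with ∀ p ∈ S, p ∣ i, (1 : ℝ) =
          (((Icc 1 y).filter (fun n => n ≡ c [MOD q] ∧ ∀ p ∈ S, n % p = 0)).card : ℝ) := by
        rw [sum_const, nsmul_eq_mul, mul_one, filter_filter]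
        congr 2
        apply filter_congr
        intro n _
        simp only [Nat.dvd_iff_mod_eq_zero]
      rw [h3]
      exact h)
  have e2 : ∑ i ∈ ((Icc 1 y).filter (fun n => n ≡ c [MOD q])) with ∀ p ∈ T, ¬ p ∣ i, (1 : ℝ) =
      ((((Icc 1 y).filter (fun n => n ≡ c [MOD q])).filter (fun n => ∀ p ∈ T, ¬ p ∣ n)).card : ℝ) := by
    rw [sum_const, nsmul_eq_mul, mul_one]
  rw [e2] at key
  refine key.trans ?_
  have h4 : ∑ j ∈ range (r + 1), ∑ S ∈ T.powersetCard j, (1 : ℝ) ≤ ((z : ℝ) + 1) ^ r := by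
    have h5 := card_small T r
    have h6 : ∑ j ∈ range (r + 1), ∑ S ∈ T.powersetCard j, (1 : ℝ) = ((∑ j ∈ range (r + 1), (T.powersetCard j).card : ℕ) : ℝ) := by
      push_cast
      apply sum_congr rfl
      intro j _
      rw [sum_const, nsmul_eq_mul, mul_one]
    rw [h6]
    refine h5.trans ?_
    have h7 : (T.card : ℝ) ≤ z := by exact_mod_cast (card_le_card hTz).trans (card_pz_le z)
    gcongr
  have h5 : es (fun p => 1 / (p : ℝ)) T r ≤ Real.exp (3 * (1 + Real.log z) - r) := by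
    refine (es_le (fun p _ => by positivity) r).trans ?_
    apply Real.exp_le_exp.2
    have h6 : ∑ p ∈ T, 1 / (p : ℝ) ≤ ∑ p ∈ pz z, 1 / (p : ℝ) :=
      sum_le_sum_of_subset_of_nonneg hTz (fun _ _ _ => by positivity)
    have := sum_pz_le z
    linarith
  have h7 : 2 * ((y : ℝ) / q) * es (fun p => 1 / (p : ℝ)) T r ≤ 2 * (y / q) * Real.exp (3 * (1 + Real.log z) - r) := by
    gcongr
  linarith

/-- the product over the large prime factors -/
lemma large_pf (z k : ℕ) (hz : 1 ≤ z) (hk : 1 ≤ k) :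
    |∏ p ∈ k.primeFactors.filter (fun p => ¬ p ≤ z), (1 - 1 / (p : ℝ)) - 1| ≤ 2 * Real.log k / z := by
  have hz0 : (0 : ℝ) < z := by exact_mod_cast hz
  set T := k.primeFactors.filter (fun p => ¬ p ≤ z) with hT
  have h01 : ∀ p ∈ T, (0 : ℝ) ≤ 1 / (p : ℝ) ∧ 1 / (p : ℝ) ≤ 1 ∧ 1 / (p : ℝ) ≤ 1 / z := by
    intro p hp
    rw [hT, mem_filter, not_le] at hp
    have h1 : (z : ℝ) ≤ p := by exact_mod_cast hp.2.le
    have h2 : (1 : ℝ) ≤ z := by exact_mod_cast hz
    refine ⟨by positivity, ?_, one_div_le_one_div_of_le hz0 h1⟩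
    rw [div_le_one (by linarith)]; linarith
  have hle : ∏ p ∈ T, (1 - 1 / (p : ℝ)) ≤ 1 := by
    apply prod_le_one
    · intro p hp; linarith [(h01 p hp).2.1]
    · intro p hp; linarith [(h01 p hp).1]
  have hge : 1 - ∑ p ∈ T, 1 / (p : ℝ) ≤ ∏ p ∈ T, (1 - 1 / (p : ℝ)) := by
    have : ∀ S : Finset ℕ, S ⊆ T → 1 - ∑ p ∈ S, 1 / (p : ℝ) ≤ ∏ p ∈ S, (1 - 1 / (p : ℝ)) := by
      intro S
      induction S using Finset.induction_on with
      | empty => intro _; simp
      | insert p S hp ih =>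
        intro hS
        have h1 := ih ((subset_insert p S).trans hS)
        have h2 := h01 p (hS (mem_insert_self p S))
        rw [sum_insert hp, prod_insert hp]
        have h3 : 0 ≤ ∑ p ∈ S, 1 / (p : ℝ) := sum_nonneg fun _ _ => by positivity
        have h4 := mul_nonneg h2.1 h3
        have h5 : (1 - 1 / (p : ℝ)) * (1 - ∑ p ∈ S, 1 / (p : ℝ)) ≤ (1 - 1 / (p : ℝ)) * ∏ p ∈ S, (1 - 1 / (p : ℝ)) :=
          mul_le_mul_of_nonneg_left h1 (by linarith)
        linarith
    exact this T subset_rfl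
  have hsum : ∑ p ∈ T, 1 / (p : ℝ) ≤ 2 * Real.log k / z := by
    calc ∑ p ∈ T, 1 / (p : ℝ) ≤ ∑ p ∈ T, 1 / (z : ℝ) := sum_le_sum fun p hp => (h01 p hp).2.2
      _ = (T.card : ℝ) * (1 / z) := by rw [sum_const, nsmul_eq_mul]
      _ ≤ (2 * Real.log k) * (1 / z) := by
          apply mul_le_mul_of_nonneg_right _ (by positivity)
          refine le_trans ?_ (Pool.Agent.H398R2.BV.omega_le_log k hk)
          exact_mod_cast card_le_card (filter_subset _ _)
      _ = _ := by ring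
  rw [abs_le]
  constructor <;> linarith

/-- the model in a reduced class -/
lemma lamz_ap2 (z k a Y r : ℕ) (hz : 1 ≤ z) (hk : 1 ≤ k) (ha : a.Coprime k) :
    |cs (lamz z) Y k a - (Y : ℝ) / (Nat.totient k : ℝ)| ≤
      z * (((z : ℝ) + 1) ^ r + 2 * (Y / k) * Real.exp (3 * (1 + Real.log z) - r)) +
        (Y : ℝ) / (Nat.totient k : ℝ) * (2 * Real.log k / z) := by
  have hk0 : (0 : ℝ) < k := by exact_mod_cast hk
  have hV := Vz_pos z
  have hVinv := Vz_inv_le z hz
  have hφ : (0 : ℝ) < Nat.totient k := by exact_mod_cast Nat.totient_pos.2 (by omega)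
  have h4 : cs (lamz z) Y k a =
      (Vz z)⁻¹ * ((((Icc 1 Y).filter (fun n => n ≡ a [MOD k])).filter (fun n => ∀ p ∈ pz z, ¬ p ∣ n)).card : ℝ) := by
    unfold cs lamz
    rw [← sum_filter, sum_const, nsmul_eq_mul, mul_comm]
  set W : ℝ := ((((Icc 1 Y).filter (fun n => n ≡ a [MOD k])).filter (fun n => ∀ p ∈ pz z, ¬ p ∣ n)).card : ℝ) with hW
  set T := ∏ p ∈ (pz z).filter (fun p => ¬ p ∣ k), (1 - 1 / (p : ℝ)) with hT
  set P := ∏ p ∈ k.primeFactors.filter (fun p => ¬ p ≤ z), (1 - 1 / (p : ℝ)) with hP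
  have h5 := rough_ap2 z k a Y r hk ha
  rw [← hW, ← hT] at h5
  have hlp := large_pf z k hz hk
  rw [← hP] at hlp
  -- identity
  have e1 : (Vz z)⁻¹ * ((Y : ℝ) / k * T) = (Y : ℝ) / (Nat.totient k : ℝ) * P := by
    have h1 : ((Nat.totient k : ℕ) : ℝ) = k * ∏ p ∈ k.primeFactors, (1 - 1 / (p : ℝ)) := by
      have := Nat.totient_eq_mul_prod_factors k
      have h2 : (((Nat.totient k : ℕ) : ℚ) : ℝ) = ((k * ∏ p ∈ k.primeFactors, (1 - (p : ℚ)⁻¹) : ℚ) : ℝ) := by rw [this]
      push_cast at h2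
      simp only [one_div]
      exact h2
    set Q := ∏ p ∈ (pz z).filter (fun p => p ∣ k), (1 - 1 / (p : ℝ)) with hQ
    have h2 : Vz z = Q * T := by
      unfold Vz
      rw [hQ, hT, prod_filter_mul_prod_filter_not]
    have h3 : ∏ p ∈ k.primeFactors, (1 - 1 / (p : ℝ)) = Q * P := by
      rw [← prod_filter_mul_prod_filter_not k.primeFactors (fun p => p ≤ z), hQ, hP]
      congr 1
      apply prod_congr _ (fun _ _ => rfl)
      ext p
      rw [mem_filter, mem_filter, Nat.mem_primeFactors, mem_pz]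
      constructor
      · rintro ⟨⟨h1, h2, h3⟩, h4⟩; exact ⟨⟨h4, h1⟩, h2⟩
      · rintro ⟨⟨h1, h2⟩, h3⟩; exact ⟨⟨h2, h3, by omega⟩, h1⟩
    have hQT : Q * T ≠ 0 := by rw [← h2]; exact hV.ne'
    have hQ0 : Q ≠ 0 := left_ne_zero_of_mul hQT
    have hT0 : T ≠ 0 := right_ne_zero_of_mul hQT
    have hφ' := hφ.ne'
    rw [h1, h3] at hφ'
    have hP0 : P ≠ 0 := right_ne_zero_of_mul (right_ne_zero_of_mul hφ')
    rw [h1, h2, h3]
    field_simp
  rw [h4]
  have e2 : (Vz z)⁻¹ * W - (Y : ℝ) / (Nat.totient k : ℝ) =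
      (Vz z)⁻¹ * (W - (Y : ℝ) / k * T) + (Y : ℝ) / (Nat.totient k : ℝ) * (P - 1) := by
    rw [mul_sub, e1]; ring
  rw [e2]
  refine (abs_add_le _ _).trans (add_le_add ?_ ?_)
  · rw [abs_mul, abs_of_pos (inv_pos.2 hV)]
    exact mul_le_mul hVinv h5 (abs_nonneg _) (Nat.cast_nonneg _)
  · rw [abs_mul, abs_of_nonneg (by positivity : (0 : ℝ) ≤ (Y : ℝ) / (Nat.totient k : ℝ))]
    exact mul_le_mul_of_nonneg_left hlp (by positivity)

end Pool.Agent.Y868.TA
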