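import Pool.Agent.Y868.TA.B1

/-! The Bombieri-Vinogradov theorem for the difference of the primes and their sieve model. -/

set_option autoImplicit false

namespace Pool.Agent.Y868.TA

open Finset
open Pool.Agent.H373R2.T7
open H343E (Fam psiAP psi1)

lemma fam_sum {A : ℝ} {L : ℕ → Finset ℕ} (hL : Fam A L) (Kd : ℕ) (g : ℕ → ℝ) (hg : ∀ k, 0 ≤ g k) :
    ∑ k ∈ Icc 1 Kd, ∑ _a ∈ L k, g k ≤ A * ∑ k ∈ Icc 1 Kd, g k := by
  rw [mul_sum]
  refine sum_le_sum fun k _ => ?_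
  rw [sum_const, nsmul_eq_mul]
  exact mul_le_mul_of_nonneg_right (hL.card k) (hg k)

theorem bv_FF (U : ℕ) : ∃ B E0 : ℕ, ∀ E : ℕ, ∃ Y0 : ℕ, ∀ X z : ℕ, Real.log X ^ E0 ≤ z → (z : ℝ) ≤ Real.log X ^ E →
    ∀ Y : ℕ, Y0 ≤ Y → Y ≤ X → X ≤ Y ^ 2 → ∀ A : ℝ, 1 ≤ A → A ≤ z → ∀ Kd : ℕ,
    (Kd : ℝ) ≤ Y / Real.log X ^ B → (Kd : ℝ) ^ 2 ≤ A * Y / Real.log X ^ B → ∀ L : ℕ → Finset ℕ, Fam A L →
    ∑ k ∈ Icc 1 Kd, ∑ a ∈ L k, |cs (FF z) Y k a| ≤ A * Y / Real.log X ^ U := by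
  obtain ⟨κ', hκ⟩ := Pool.Agent.H398R2.BV.sum_pow_omega_div_totient 1 le_rfl
  obtain ⟨κ, hκd⟩ : ∃ κ, κ = 2 ^ κ' := ⟨_, rfl⟩
  rw [← hκd] at hκ
  simp only [one_pow] at hκ
  obtain ⟨B1, X1, hbv⟩ := H343E.unsmoothed (U + 2)
  refine ⟨B1 + 2 * (U + 3), κ + U + 3, fun E => ?_⟩
  obtain ⟨n3, hlam⟩ := lam_ap 0 (U + κ + 2)
  obtain ⟨n4, hch⟩ := choice 1 (E + 1) (U + E + κ + 2) 4
  obtain ⟨n5, hv5⟩ := ev_log' (3 * E + 2 * U + 2) (2 ^ (3 * E + 2 * U + 2))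
  obtain ⟨n6, hv6⟩ := ev_L' (2 ^ (3 * U + 3 * κ + 3 * E + 20))
  refine ⟨max (max (max n3 n4) (max n5 n6)) (max ⌈X1⌉₊ 3), fun X z hz1 hz2 Y hY hYX hXY A hA hAz Kd hK1 hK2 L hL => ?_⟩
  have hn3 : n3 ≤ Y := le_trans (le_trans (le_trans (le_max_left _ _) (le_max_left _ _)) (le_max_left _ _)) hY
  have hn4 : n4 ≤ Y := le_trans (le_trans (le_trans (le_max_right _ _) (le_max_left _ _)) (le_max_left _ _)) hY
  have hn5 : n5 ≤ Y := le_trans (le_trans (le_trans (le_max_left _ _) (le_max_right _ _)) (le_max_left _ _)) hY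
  have hn6 : n6 ≤ Y := le_trans (le_trans (le_trans (le_max_right _ _) (le_max_right _ _)) (le_max_left _ _)) hY
  have hX1 : X1 ≤ Y := (Nat.le_ceil _).trans (by exact_mod_cast le_trans (le_trans (le_max_left _ _) (le_max_right _ _)) hY)
  have hY3 : 3 ≤ Y := le_trans (le_trans (le_max_right _ _) (le_max_right _ _)) hY
  have hYr : (3 : ℝ) ≤ Y := by exact_mod_cast hY3
  have hY0 : (0 : ℝ) < Y := by linarith
  have a5 := hv5 Y hn5
  have a6 := hv6 Y hn6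
  set ℓ := Real.log Y with hℓd
  set Λ := Real.log X with hΛd
  set P : ℝ := 2 ^ (3 * U + 3 * κ + 3 * E + 20) with hP
  have hP1 : (2 : ℝ) ^ 20 ≤ P := pow_le_pow_right₀ (by norm_num) (by omega)
  have hℓ0 : 0 < ℓ := by
    have : (0 : ℝ) < 2 ^ 20 := by positivity
    linarith
  have hℓΛ : ℓ ≤ Λ := Real.log_le_log hY0 (by exact_mod_cast hYX)
  have hX3 : 3 ≤ X := hY3.trans hYX
  have hΛℓ : Λ ≤ 2 * ℓ := by
    have h1 : (X : ℝ) ≤ (Y : ℝ) ^ 2 := by exact_mod_cast hXY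
    have h2 := Real.log_le_log (by exact_mod_cast (by omega : 0 < X)) h1
    rw [Real.log_pow] at h2
    exact_mod_cast h2
  have hPΛ : P ≤ Λ := a6.trans hℓΛ
  have hΛ1 : 1 ≤ Λ := by
    have : (1 : ℝ) ≤ 2 ^ 20 := one_le_pow₀ (by norm_num)
    linarith
  have hΛ0 : 0 < Λ := by linarith
  have hℓ1 : 1 ≤ ℓ := by
    have : (1 : ℝ) ≤ 2 ^ 20 := one_le_pow₀ (by norm_num)
    linarith
  have hΛp : ∀ n : ℕ, 0 < Λ ^ n := fun n => by positivity
  have hΛ1p : ∀ n : ℕ, 1 ≤ Λ ^ n := fun n => one_le_pow₀ hΛ1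
  have hzr : (1 : ℝ) ≤ z := (hΛ1p _).trans hz1
  have hz : 1 ≤ z := by exact_mod_cast hzr
  have hz0 : (0 : ℝ) < z := by linarith
  have hA0 : 0 < A := by linarith
  -- comparison of powers of the two logarithms
  have hinv : ∀ n : ℕ, 1 / ℓ ^ n ≤ 2 ^ n / Λ ^ n := by
    intro n
    rw [div_le_div_iff₀ (by positivity) (hΛp n), one_mul, ← mul_pow]
    exact pow_le_pow_left₀ hΛ0.le hΛℓ n
  -- the target size
  set W : ℝ := A * Y / Λ ^ (U + 2) with hW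
  have hW0 : 0 ≤ W := by positivity
  have hsmall : ∀ c : ℝ, c ≤ P → c * W ≤ A * Y / Λ ^ (U + 1) := by
    intro c hc
    calc c * W ≤ Λ * W := mul_le_mul_of_nonneg_right (hc.trans hPΛ) hW0
      _ = A * Y / Λ ^ (U + 1) := by
          rw [hW, show U + 2 = (U + 1) + 1 by ring, pow_succ]
          field_simp
  have h2P : ∀ n : ℕ, n ≤ 3 * U + 3 * κ + 3 * E + 20 → (2 : ℝ) ^ n ≤ P := fun n hn =>
    pow_le_pow_right₀ (by norm_num) hn
  -- the number of moduli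
  have hKY : (Kd : ℝ) ≤ Y := hK1.trans (div_le_self hY0.le (hΛ1p _))
  have hlogK : 1 + Real.log Kd ≤ 2 * Λ := by
    rcases Nat.eq_zero_or_pos Kd with h | h
    · rw [h]; simp; linarith
    · have h1 : Real.log Kd ≤ ℓ := Real.log_le_log (by exact_mod_cast h) hKY
      linarith
  have hlogK0 : 0 ≤ 1 + Real.log Kd := by
    have := Real.log_natCast_nonneg Kd
    linarith
  have hφs : ∑ k ∈ Icc 1 Kd, 1 / (Nat.totient k : ℝ) ≤ 2 ^ κ * Λ ^ κ := by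
    refine (hκ Kd).trans ?_
    rw [← mul_pow]
    exact pow_le_pow_left₀ hlogK0 hlogK κ
  -- the decomposition
  obtain ⟨r, hr1, hr2, -⟩ := hch Y hn4 z (by
    calc (z : ℝ) ≤ Λ ^ E := hz2
      _ ≤ (2 * ℓ) ^ E := pow_le_pow_left₀ hΛ0.le hΛℓ E
      _ = 2 ^ E * ℓ ^ E := mul_pow _ _ _
      _ ≤ ℓ * ℓ ^ E := by
          apply mul_le_mul_of_nonneg_right _ (by positivity)
          exact (h2P E (by omega)).trans a6
      _ = ℓ ^ (E + 1) := by ring)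
  set e : ℝ := Real.exp (3 * (1 + Real.log z) - r) with he
  have hr1' : e ≤ 1 / ℓ ^ (U + E + κ + 2) := by
    refine le_trans (le_of_eq ?_) hr1
    rw [he]; push_cast; ring_nf
  have he0 : 0 ≤ e := (Real.exp_pos _).le
  have hpt : ∀ k ∈ Icc 1 Kd, ∀ a ∈ L k, |cs (FF z) Y k a| ≤
      |cs th Y k a - psiAP Y k a| + |psiAP Y k a - psi1 Y / (Nat.totient k : ℝ)| +
      |psi1 Y - Y| * (1 / (Nat.totient k : ℝ)) + z * ((z : ℝ) + 1) ^ r +
      (z * (2 * Y * e)) * (1 / (Nat.totient k : ℝ)) + (Y * (2 * Λ / z)) * (1 / (Nat.totient k : ℝ)) := by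
    intro k hk a ha
    rw [mem_Icc] at hk
    have hcop := (hL.cop k a ha).2
    have h1 := lamz_ap2 z k a Y r hz hk.1 hcop
    rw [← he] at h1
    have hφ : (0 : ℝ) < Nat.totient k := by exact_mod_cast Nat.totient_pos.2 (by omega)
    have hk0 : (0 : ℝ) < k := by exact_mod_cast (by omega : 0 < k)
    have hφk : (Nat.totient k : ℝ) ≤ k := by exact_mod_cast Nat.totient_le k
    have h2 : cs (FF z) Y k a = (cs th Y k a - psiAP Y k a) + (psiAP Y k a - psi1 Y / (Nat.totient k : ℝ)) +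
        (psi1 Y - Y) * (1 / (Nat.totient k : ℝ)) - (cs (lamz z) Y k a - (Y : ℝ) / (Nat.totient k : ℝ)) := by
      have : cs (FF z) Y k a = cs th Y k a - cs (lamz z) Y k a := cs_sub th (lamz z) Y k a
      rw [this]; ring
    have h3 : z * (((z : ℝ) + 1) ^ r + 2 * (Y / k) * e) ≤ z * ((z : ℝ) + 1) ^ r + (z * (2 * Y * e)) * (1 / (Nat.totient k : ℝ)) := by
      have h4 : (Y : ℝ) / k ≤ Y * (1 / (Nat.totient k : ℝ)) := by
        rw [mul_one_div]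
        exact div_le_div_of_nonneg_left hY0.le hφ hφk
      have h5 : 2 * ((Y : ℝ) / k) * e ≤ 2 * (Y * (1 / (Nat.totient k : ℝ))) * e := by gcongr
      calc z * (((z : ℝ) + 1) ^ r + 2 * (Y / k) * e) ≤ z * (((z : ℝ) + 1) ^ r + 2 * (Y * (1 / (Nat.totient k : ℝ))) * e) := by gcongr
        _ = _ := by ring
    have h6 : (Y : ℝ) / (Nat.totient k : ℝ) * (2 * Real.log k / z) ≤ (Y * (2 * Λ / z)) * (1 / (Nat.totient k : ℝ)) := by
      have h7 : Real.log k ≤ Λ := by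
        refine (Real.log_le_log hk0 ?_).trans hℓΛ
        exact le_trans (by exact_mod_cast hk.2) hKY
      calc (Y : ℝ) / (Nat.totient k : ℝ) * (2 * Real.log k / z) ≤ (Y : ℝ) / (Nat.totient k : ℝ) * (2 * Λ / z) := by gcongr
        _ = _ := by ring
    have h8 : |(psi1 Y - Y) * (1 / (Nat.totient k : ℝ))| = |psi1 Y - Y| * (1 / (Nat.totient k : ℝ)) := by
      rw [abs_mul, abs_of_nonneg (by positivity : (0 : ℝ) ≤ 1 / (Nat.totient k : ℝ))]
    rw [h2]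
    refine (abs_sub _ _).trans ?_
    have h9 := abs_add_three (cs th Y k a - psiAP Y k a) (psiAP Y k a - psi1 Y / (Nat.totient k : ℝ)) ((psi1 Y - Y) * (1 / (Nat.totient k : ℝ)))
    rw [h8] at h9
    linarith
  -- summation
  have hsum : ∑ k ∈ Icc 1 Kd, ∑ a ∈ L k, |cs (FF z) Y k a| ≤
      ∑ k ∈ Icc 1 Kd, ∑ a ∈ L k, |cs th Y k a - psiAP Y k a| +
      ∑ k ∈ Icc 1 Kd, ∑ a ∈ L k, |psiAP Y k a - psi1 Y / (Nat.totient k : ℝ)| +
      ∑ k ∈ Icc 1 Kd, ∑ a ∈ L k, |psi1 Y - Y| * (1 / (Nat.totient k : ℝ)) +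
      ∑ k ∈ Icc 1 Kd, ∑ a ∈ L k, z * ((z : ℝ) + 1) ^ r +
      ∑ k ∈ Icc 1 Kd, ∑ a ∈ L k, (z * (2 * Y * e)) * (1 / (Nat.totient k : ℝ)) +
      ∑ k ∈ Icc 1 Kd, ∑ a ∈ L k, (Y * (2 * Λ / z)) * (1 / (Nat.totient k : ℝ)) := by
    refine (sum_le_sum fun k hk => sum_le_sum fun a ha => hpt k hk a ha).trans (le_of_eq ?_)
    simp only [sum_add_distrib]
  -- the six terms
  have t1 : ∑ k ∈ Icc 1 Kd, ∑ a ∈ L k, |cs th Y k a - psiAP Y k a| ≤ 2 * W := by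
    have h1 : ∑ k ∈ Icc 1 Kd, ∑ a ∈ L k, |cs th Y k a - psiAP Y k a| ≤ Kd * (2 * (√(Y : ℝ) * ℓ)) := by
      refine (sum_le_sum fun k _ => psi_th hL Y k (by omega)).trans ?_
      rw [sum_const, Nat.card_Icc, nsmul_eq_mul, Nat.add_sub_cancel]
    have h2 : (Kd : ℝ) * √(Y : ℝ) ≤ A * Y / Λ ^ (U + 3) := by
      have h3 : ((Kd : ℝ) * √(Y : ℝ)) ^ 2 ≤ (A * Y / Λ ^ (U + 3)) ^ 2 := by
        rw [mul_pow, Real.sq_sqrt hY0.le]
        calc (Kd : ℝ) ^ 2 * Y ≤ (A * Y / Λ ^ (B1 + 2 * (U + 3))) * Y := mul_le_mul_of_nonneg_right hK2 hY0.le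
          _ ≤ (A * Y / Λ ^ (2 * (U + 3))) * Y := by
              apply mul_le_mul_of_nonneg_right _ hY0.le
              apply div_le_div_of_nonneg_left (by positivity) (hΛp _)
              exact pow_le_pow_right₀ hΛ1 (by omega)
          _ ≤ (A * A * Y / Λ ^ (2 * (U + 3))) * Y := by
              apply mul_le_mul_of_nonneg_right _ hY0.le
              apply div_le_div_of_nonneg_right _ (hΛp _).le
              apply mul_le_mul_of_nonneg_right _ hY0.le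
              exact le_mul_of_one_le_left hA0.le hA
          _ = _ := by
              rw [div_pow, ← pow_mul, mul_comm (U + 3) 2]; ring
      exact le_of_sq_le_sq h3 (by positivity)
    calc _ ≤ (Kd : ℝ) * (2 * (√(Y : ℝ) * ℓ)) := h1
      _ = 2 * ((Kd * √(Y : ℝ)) * ℓ) := by ring
      _ ≤ 2 * ((A * Y / Λ ^ (U + 3)) * Λ) := by gcongr
      _ = 2 * W := by
          rw [hW, show U + 3 = (U + 2) + 1 by ring, pow_succ]
          field_simp
  have t2 : ∑ k ∈ Icc 1 Kd, ∑ a ∈ L k, |psiAP Y k a - psi1 Y / (Nat.totient k : ℝ)| ≤ 2 ^ (U + 2) * W := by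
    have hBℓ : ℓ ^ B1 ≤ Λ ^ (B1 + 2 * (U + 3)) :=
      (pow_le_pow_left₀ hℓ0.le hℓΛ _).trans (pow_le_pow_right₀ hΛ1 (by omega))
    have h1 := hbv Y hX1 A hA Kd (hK1.trans (div_le_div_of_nonneg_left hY0.le (by positivity) hBℓ))
      (hK2.trans (div_le_div_of_nonneg_left (by positivity) (by positivity) hBℓ)) L hL
    rw [← hℓd] at h1
    refine h1.trans ?_
    calc A * Y / ℓ ^ (U + 2) = A * Y * (1 / ℓ ^ (U + 2)) := by ring
      _ ≤ A * Y * (2 ^ (U + 2) / Λ ^ (U + 2)) := mul_le_mul_of_nonneg_left (hinv _) (by positivity)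
      _ = _ := by rw [hW]; ring
  have hfam : ∀ g : ℝ, 0 ≤ g → ∑ k ∈ Icc 1 Kd, ∑ a ∈ L k, g * (1 / (Nat.totient k : ℝ)) ≤ A * (g * (2 ^ κ * Λ ^ κ)) := by
    intro g hg
    refine (fam_sum hL Kd (fun k => g * (1 / (Nat.totient k : ℝ))) (fun k => by positivity)).trans ?_
    rw [← mul_sum]
    gcongr
  have t3 : ∑ k ∈ Icc 1 Kd, ∑ a ∈ L k, |psi1 Y - Y| * (1 / (Nat.totient k : ℝ)) ≤ 2 ^ (U + 2 * κ + 2) * W := by
    refine (hfam _ (abs_nonneg _)).trans ?_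
    have h1 := hlam Y hn3 1 le_rfl (by simp) 0 Y le_rfl
    have h2 : ∑ n ∈ (Icc 1 Y).filter (fun n => n ≡ 0 [MOD 1]), ArithmeticFunction.vonMangoldt n = psi1 Y := by
      unfold psi1
      rw [Nat.floor_natCast, filter_true_of_mem (fun n _ => Nat.modEq_one)]
    rw [h2, if_pos (by simp)] at h1
    simp only [Nat.totient_one, Nat.cast_one, div_one] at h1
    rw [← hℓd] at h1
    calc A * (|psi1 Y - Y| * (2 ^ κ * Λ ^ κ)) ≤ A * ((Y * (2 ^ (U + κ + 2) / Λ ^ (U + κ + 2))) * (2 ^ κ * Λ ^ κ)) := by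
          apply mul_le_mul_of_nonneg_left _ hA0.le
          apply mul_le_mul_of_nonneg_right _ (by positivity)
          refine h1.trans ?_
          rw [div_eq_mul_one_div]
          exact mul_le_mul_of_nonneg_left (hinv _) hY0.le
      _ = 2 ^ (U + 2 * κ + 2) * W := by
          rw [hW, show U + κ + 2 = (U + 2) + κ by ring, show U + 2 * κ + 2 = (U + 2) + κ + κ by ring]
          simp only [pow_add Λ (U + 2) κ, pow_add (2 : ℝ) (U + 2 + κ) κ]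
          have := (hΛp κ).ne'
          have := (hΛp (U + 2)).ne'
          field_simp
  have t4 : ∑ k ∈ Icc 1 Kd, ∑ a ∈ L k, z * ((z : ℝ) + 1) ^ r ≤ A * Y / Λ ^ (U + 1) := by
    refine (fam_sum hL Kd (fun _ => z * ((z : ℝ) + 1) ^ r) (fun _ => by positivity)).trans ?_
    rw [sum_const, Nat.card_Icc, nsmul_eq_mul, Nat.add_sub_cancel, mul_div_assoc]
    apply mul_le_mul_of_nonneg_left _ hA0.le
    have h1 : ((Kd : ℝ) * (z * ((z : ℝ) + 1) ^ r)) ^ 2 ≤ (Y / Λ ^ (U + 1)) ^ 2 := by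
      have h2 : (((z : ℝ) + 1) ^ r) ^ 2 ≤ √(Y : ℝ) := by
        rw [← Real.sqrt_sq (by positivity : (0 : ℝ) ≤ (((z : ℝ) + 1) ^ r) ^ 2)]
        apply Real.sqrt_le_sqrt
        rw [← pow_mul]
        exact hr2
      have h3 : (Kd : ℝ) ^ 2 ≤ z * Y := by
        refine hK2.trans ((div_le_self (by positivity) (hΛ1p _)).trans ?_)
        exact mul_le_mul_of_nonneg_right hAz hY0.le
      have h4 : (z : ℝ) ^ 3 * Λ ^ (2 * (U + 1)) ≤ √(Y : ℝ) := by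
        calc (z : ℝ) ^ 3 * Λ ^ (2 * (U + 1)) ≤ (Λ ^ E) ^ 3 * Λ ^ (2 * (U + 1)) := by gcongr
          _ = Λ ^ (3 * E + 2 * U + 2) := by rw [← pow_mul, ← pow_add]; congr 1; ring
          _ ≤ (2 * ℓ) ^ (3 * E + 2 * U + 2) := pow_le_pow_left₀ hΛ0.le hΛℓ _
          _ = 2 ^ (3 * E + 2 * U + 2) * ℓ ^ (3 * E + 2 * U + 2) := mul_pow _ _ _
          _ ≤ √(Y : ℝ) := a5
      calc ((Kd : ℝ) * (z * ((z : ℝ) + 1) ^ r)) ^ 2 = (Kd : ℝ) ^ 2 * ((z : ℝ) ^ 2 * (((z : ℝ) + 1) ^ r) ^ 2) := by ring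
        _ ≤ (z * Y) * ((z : ℝ) ^ 2 * √(Y : ℝ)) := by gcongr
        _ = ((z : ℝ) ^ 3 * Λ ^ (2 * (U + 1))) * √(Y : ℝ) * Y / Λ ^ (2 * (U + 1)) := by
            have := (hΛp (2 * (U + 1))).ne'
            field_simp
        _ ≤ √(Y : ℝ) * √(Y : ℝ) * Y / Λ ^ (2 * (U + 1)) := by gcongr
        _ = (Y / Λ ^ (U + 1)) ^ 2 := by
            rw [Real.mul_self_sqrt hY0.le, div_pow, ← pow_mul, mul_comm (U + 1) 2]; ring
    exact le_of_sq_le_sq h1 (by positivity)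
  have t5 : ∑ k ∈ Icc 1 Kd, ∑ a ∈ L k, (z * (2 * Y * e)) * (1 / (Nat.totient k : ℝ)) ≤ 2 ^ (U + E + 2 * κ + 3) * W := by
    refine (hfam _ (by positivity)).trans ?_
    calc A * ((z * (2 * Y * e)) * (2 ^ κ * Λ ^ κ)) ≤
        A * ((Λ ^ E * (2 * Y * (2 ^ (U + E + κ + 2) / Λ ^ (U + E + κ + 2)))) * (2 ^ κ * Λ ^ κ)) := by
          have := hr1'.trans (hinv (U + E + κ + 2))
          gcongr
      _ = 2 ^ (U + E + 2 * κ + 3) * W := by
          rw [hW, show U + E + κ + 2 = (U + 2) + E + κ by ring, show U + E + 2 * κ + 3 = (U + 2) + E + κ + κ + 1 by ring]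
          simp only [pow_add Λ (U + 2 + E) κ, pow_add Λ (U + 2) E, pow_succ (2 : ℝ) (U + 2 + E + κ + κ), pow_add (2 : ℝ) (U + 2 + E + κ) κ]
          have := (hΛp κ).ne'
          have := (hΛp E).ne'
          have := (hΛp (U + 2)).ne'
          field_simp
  have t6 : ∑ k ∈ Icc 1 Kd, ∑ a ∈ L k, (Y * (2 * Λ / z)) * (1 / (Nat.totient k : ℝ)) ≤ 2 ^ (κ + 1) * W := by
    refine (hfam _ (by positivity)).trans ?_
    calc A * ((Y * (2 * Λ / z)) * (2 ^ κ * Λ ^ κ)) ≤ A * ((Y * (2 * Λ / Λ ^ (κ + U + 3))) * (2 ^ κ * Λ ^ κ)) := by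
          have h1 : 2 * Λ / (z : ℝ) ≤ 2 * Λ / Λ ^ (κ + U + 3) :=
            div_le_div_of_nonneg_left (by positivity) (hΛp _) hz1
          gcongr
      _ = 2 ^ (κ + 1) * W := by
          rw [hW, show κ + U + 3 = (U + 2) + κ + 1 by ring]
          simp only [pow_succ Λ (U + 2 + κ), pow_add Λ (U + 2) κ, pow_succ (2 : ℝ) κ]
          have := (hΛp κ).ne'
          have := (hΛp (U + 2)).ne'
          field_simp
  have s1 := hsmall 2 (by have := h2P 1 (by omega); linarith)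
  have s2 := hsmall (2 ^ (U + 2)) (h2P _ (by omega))
  have s3 := hsmall (2 ^ (U + 2 * κ + 2)) (h2P _ (by omega))
  have s5 := hsmall (2 ^ (U + E + 2 * κ + 3)) (h2P _ (by omega))
  have s6 := hsmall (2 ^ (κ + 1)) (h2P _ (by omega))
  have hfin : 6 * (A * Y / Λ ^ (U + 1)) ≤ A * Y / Λ ^ U := by
    have h1 : A * Y / Λ ^ U = Λ * (A * Y / Λ ^ (U + 1)) := by
      rw [pow_succ]; field_simp
    rw [h1]
    apply mul_le_mul_of_nonneg_right _ (by positivity)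
    have : (6 : ℝ) ≤ 2 ^ 20 := by norm_num
    linarith
  linarith

end Pool.Agent.Y868.TA
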