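import Pool.Agent.Y868.TA.B1
import Pool.Agent.H373R2.T7.SupE2

/-! Prefix sums along progressions. -/

set_option autoImplicit false

namespace Pool.Agent.Y868.TA

open Finset
open Pool.Agent.H373R2.T7
open H343E (Fam)

lemma mem_class (k : ℕ) (hk : 1 ≤ k) (s : ℤ) (n : ℕ) : n ≡ (s % (k : ℤ)).toNat [MOD k] ↔ (k : ℤ) ∣ (n : ℤ) - s := by
  have hk0 : (k : ℤ) ≠ 0 := by exact_mod_cast (by omega : k ≠ 0)
  have h1 : (((s % (k : ℤ)).toNat : ℕ) : ℤ) = s % k := Int.toNat_of_nonneg (Int.emod_nonneg s hk0)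
  rw [Nat.modEq_iff_dvd, h1]
  have h2 : (k : ℤ) ∣ s - s % k := Int.dvd_self_sub_emod
  constructor
  · intro h
    have h3 := (dvd_add h h2).neg_right
    have e : -(s % (k : ℤ) - n + (s - s % k)) = n - s := by ring
    rwa [e] at h3
  · intro h
    have h3 := (dvd_add h h2).neg_right
    have e : -((n : ℤ) - s + (s - s % (k : ℤ))) = s % k - n := by ring
    rwa [e] at h3

lemma card_class (a b k v : ℕ) (hk : 1 ≤ k) (hab : a ≤ b) :
    (((Ioc a b).filter (fun n => n ≡ v [MOD k])).card : ℝ) ≤ ((b : ℝ) - a) / k + 1 := by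
  have h := Nat.Ioc_filter_modEq_card a b (by omega : 0 < k) v
  have hk0 : (0 : ℝ) < k := by exact_mod_cast hk
  have h2 : ((((Ioc a b).filter (fun n => n ≡ v [MOD k])).card : ℤ) : ℝ) =
      ((max (⌊((b : ℚ) - v) / k⌋ - ⌊((a : ℚ) - v) / k⌋) 0 : ℤ) : ℝ) := by
    exact_mod_cast congrArg (fun t : ℤ => (t : ℝ)) h
  have h3 : ((((Ioc a b).filter (fun n => n ≡ v [MOD k])).card : ℤ) : ℝ) =
      (((Ioc a b).filter (fun n => n ≡ v [MOD k])).card : ℝ) := by push_cast; rfl
  rw [← h3, h2]
  have hab' : (a : ℝ) ≤ b := by exact_mod_cast hab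
  have hnn : 0 ≤ ((b : ℝ) - a) / k := div_nonneg (by linarith) hk0.le
  rcases le_total (⌊((b : ℚ) - v) / k⌋ - ⌊((a : ℚ) - v) / k⌋) 0 with h4 | h4
  · rw [max_eq_right h4]
    push_cast
    linarith
  · rw [max_eq_left h4]
    have h5 : ((⌊((b : ℚ) - v) / k⌋ : ℤ) : ℚ) ≤ ((b : ℚ) - v) / k := Int.floor_le _
    have h6 : ((a : ℚ) - v) / k - 1 < ((⌊((a : ℚ) - v) / k⌋ : ℤ) : ℚ) := Int.sub_one_lt_floor _
    have h7 : (((⌊((b : ℚ) - v) / k⌋ - ⌊((a : ℚ) - v) / k⌋ : ℤ)) : ℚ) ≤ ((b : ℚ) - a) / k + 1 := by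
      push_cast
      have e : ((b : ℚ) - a) / k = ((b : ℚ) - v) / k - ((a : ℚ) - v) / k := by ring
      rw [e]; linarith
    generalize (⌊((b : ℚ) - v) / k⌋ - ⌊((a : ℚ) - v) / k⌋) = t at h7 ⊢
    have h8 : (((t : ℤ) : ℚ) : ℝ) ≤ ((((b : ℚ) - a) / k + 1 : ℚ) : ℝ) := Rat.cast_le.2 h7
    push_cast at h8
    exact h8

lemma cs_zero (F : ℕ → ℝ) (k a : ℕ) : cs F 0 k a = 0 := by
  unfold cs; simp

lemma cs_split (F : ℕ → ℝ) (Y0 Y1 k a : ℕ) (h : Y0 ≤ Y1) :
    cs F Y1 k a = cs F Y0 k a + ∑ n ∈ (Ioc Y0 Y1).filter (fun n => n ≡ a [MOD k]), F n := by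
  unfold cs
  have h1 : (Icc 1 Y1).filter (fun n => n ≡ a [MOD k]) = (Icc 1 Y0).filter (fun n => n ≡ a [MOD k]) ∪
      (Ioc Y0 Y1).filter (fun n => n ≡ a [MOD k]) := by
    rw [← filter_union]
    congr 1
    ext n
    simp only [mem_Icc, mem_union, mem_Ioc]
    omega
  rw [h1, sum_union]
  rw [disjoint_left]
  intro n hn1 hn2
  rw [mem_filter, mem_Icc] at hn1
  rw [mem_filter, mem_Ioc] at hn2
  omega

/-- sums of a function along a progression as prefix sums over a class -/
lemma prefix_class (F : ℕ → ℝ) (hF : F 0 = 0) (e : ℤ) (m q : ℕ) (hm : 1 ≤ m) (hq : 1 ≤ q) (r0 : ℕ) (hr0 : r0 < q) (y : ℕ) :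
    ∑ j ∈ (Icc 1 y).filter (fun j => j % q = r0), F (e + m * j).toNat =
      cs F (e + m * y).toNat (m * q) ((e + m * r0) % ((m * q : ℕ) : ℤ)).toNat -
      cs F e.toNat (m * q) ((e + m * r0) % ((m * q : ℕ) : ℤ)).toNat := by
  set n0 := ((e + m * r0) % ((m * q : ℕ) : ℤ)).toNat with hn0
  have hmq : 1 ≤ m * q := Nat.mul_pos hm hq
  have hm0 : (0 : ℤ) < m := by exact_mod_cast hm
  induction y with
  | zero => simp
  | succ y ih =>
    have hIcc : Icc 1 (y + 1) = insert (y + 1) (Icc 1 y) := by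
      ext n; simp only [mem_Icc, mem_insert]; omega
    have hnot : y + 1 ∉ Icc 1 y := by simp
    have hL : ∑ j ∈ (Icc 1 (y + 1)).filter (fun j => j % q = r0), F (e + m * j).toNat =
        (if (y + 1) % q = r0 then F (e + m * ((y + 1 : ℕ) : ℤ)).toNat else 0) +
        ∑ j ∈ (Icc 1 y).filter (fun j => j % q = r0), F (e + m * j).toNat := by
      rw [sum_filter, hIcc, sum_insert hnot, sum_filter]
    rw [hL, ih]
    set Y0 := (e + m * (y : ℤ)).toNat with hY0
    set Y1 := (e + m * ((y + 1 : ℕ) : ℤ)).toNat with hY1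
    have hle : Y0 ≤ Y1 := by
      apply Int.toNat_le_toNat
      push_cast
      nlinarith
    rw [cs_split F Y0 Y1 (m * q) n0 hle]
    have hkey : ∑ n ∈ (Ioc Y0 Y1).filter (fun n => n ≡ n0 [MOD m * q]), F n =
        if (y + 1) % q = r0 then F Y1 else 0 := by
      rcases le_or_gt (e + m * ((y + 1 : ℕ) : ℤ)) 0 with hneg | hpos
      · have h1 : Y1 = 0 := Int.toNat_of_nonpos hneg
        have h2 : Y0 = 0 := by omega
        rw [h1, h2, hF]
        simp
      · have hY1' : (Y1 : ℤ) = e + m * ((y + 1 : ℕ) : ℤ) := Int.toNat_of_nonneg hpos.le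
        have hY0' : e + m * (y : ℤ) ≤ Y0 := Int.self_le_toNat _
        have huniq : ∀ n ∈ Ioc Y0 Y1, n ≡ n0 [MOD m * q] → n = Y1 ∧ (y + 1) % q = r0 := by
          intro n hn hc
          rw [mem_Ioc] at hn
          rw [hn0, mem_class (m * q) hmq] at hc
          have h1 : (n : ℤ) - (e + m * r0) = ((n : ℤ) - Y1) + m * (((y + 1 : ℕ) : ℤ) - r0) := by
            rw [hY1']; ring
          rw [h1] at hc
          have h2 : (m : ℤ) ∣ (n : ℤ) - Y1 := by
            have h3 : (m : ℤ) ∣ ((m * q : ℕ) : ℤ) := by push_cast; exact dvd_mul_right _ _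
            have h4 := h3.trans hc
            exact (Int.dvd_add_left (dvd_mul_right _ _)).1 h4
          have h5 : (n : ℤ) - Y1 = 0 := by
            apply Int.eq_zero_of_abs_lt_dvd h2
            have h6 : (n : ℤ) ≤ Y1 := by exact_mod_cast hn.2
            have h7 : (Y0 : ℤ) < n := by exact_mod_cast hn.1
            rw [abs_lt]
            push_cast at hY1'
            constructor
            · linarith
            · linarith
          have h8 : n = Y1 := by
            have : (n : ℤ) = Y1 := by linarith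
            exact_mod_cast this
          refine ⟨h8, ?_⟩
          rw [h5, zero_add] at hc
          push_cast at hc
          have h9 : (q : ℤ) ∣ ((y : ℤ) + 1) - r0 := Int.dvd_of_mul_dvd_mul_left hm0.ne' hc
          have h10 : r0 ≡ y + 1 [MOD q] := by
            rw [Nat.modEq_iff_dvd]; push_cast; exact h9
          have h11 : r0 % q = (y + 1) % q := h10
          rw [Nat.mod_eq_of_lt hr0] at h11
          exact h11.symm
        split_ifs with hmod
        · have hset : (Ioc Y0 Y1).filter (fun n => n ≡ n0 [MOD m * q]) = {Y1} := by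
            ext n
            rw [mem_filter, mem_singleton]
            constructor
            · rintro ⟨h1, h2⟩; exact (huniq n h1 h2).1
            · rintro rfl
              refine ⟨?_, ?_⟩
              · rw [mem_Ioc]
                refine ⟨?_, le_rfl⟩
                by_contra hcon
                have h1 : Y0 = Y1 := by omega
                have h2 : (Y1 : ℤ) ≤ Y0 := by rw [h1]
                rcases le_or_gt (e + m * (y : ℤ)) 0 with h3 | h3
                · have h4 : Y0 = 0 := Int.toNat_of_nonpos h3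
                  have h5 : (0 : ℤ) < Y1 := by rw [hY1']; exact hpos
                  rw [h4] at h2
                  push_cast at h2
                  linarith
                · have h4 : (Y0 : ℤ) = e + m * (y : ℤ) := Int.toNat_of_nonneg h3.le
                  rw [hY1', h4] at h2
                  push_cast at h2
                  linarith
              · rw [hn0, mem_class (m * q) hmq, hY1']
                have h1 : (q : ℤ) ∣ ((y : ℤ) + 1) - r0 := by
                  have h2 : r0 ≡ y + 1 [MOD q] := by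
                    unfold Nat.ModEq
                    rw [Nat.mod_eq_of_lt hr0, hmod]
                  rw [Nat.modEq_iff_dvd] at h2
                  push_cast at h2
                  exact h2
                have h2 : e + m * ((y + 1 : ℕ) : ℤ) - (e + m * r0) = m * (((y : ℤ) + 1) - r0) := by push_cast; ring
                rw [h2]
                push_cast
                exact mul_dvd_mul_left _ h1
          rw [hset, sum_singleton]
        · have hset : (Ioc Y0 Y1).filter (fun n => n ≡ n0 [MOD m * q]) = ∅ := by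
            rw [filter_eq_empty_iff]
            intro n h1 h2
            exact hmod (huniq n h1 h2).2
          rw [hset, sum_empty]
    rw [hkey]
    ring

/-- the maximum of a prefix sum over a grid -/
lemma grid_class (F : ℕ → ℝ) (M : ℝ) (J H0 k a Y : ℕ) (hM : ∀ n, n ≤ J * H0 → |F n| ≤ M) (hM0 : 0 ≤ M) (hk : 1 ≤ k)
    (hH : 1 ≤ H0) (hY : Y ≤ J * H0) :
    |cs F Y k a| ≤ ∑ i ∈ Icc 1 J, |cs F (i * H0) k a| + ((H0 : ℝ) / k + 1) * M := by
  set i := Y / H0 with hi
  have hiJ : i ≤ J := by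
    rw [hi]
    calc Y / H0 ≤ (J * H0) / H0 := Nat.div_le_div_right hY
      _ = J := Nat.mul_div_cancel _ (by omega)
  have h1 : i * H0 ≤ Y := Nat.div_mul_le_self _ _
  have h2 : Y < i * H0 + H0 := by
    have := Nat.lt_div_mul_add (a := Y) (b := H0) (by omega)
    rw [← hi] at this
    exact this
  rw [cs_split F (i * H0) Y k a h1]
  have hk0 : (0 : ℝ) < k := by exact_mod_cast hk
  have h3 : |∑ n ∈ (Ioc (i * H0) Y).filter (fun n => n ≡ a [MOD k]), F n| ≤ ((H0 : ℝ) / k + 1) * M := by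
    refine (abs_sum_le_sum_abs _ _).trans ?_
    have h4 : ∀ n ∈ (Ioc (i * H0) Y).filter (fun n => n ≡ a [MOD k]), |F n| ≤ M := by
      intro n hn
      rw [mem_filter, mem_Ioc] at hn
      exact hM n (hn.1.2.trans hY)
    refine (sum_le_sum h4).trans ?_
    rw [sum_const, nsmul_eq_mul]
    apply mul_le_mul_of_nonneg_right _ hM0
    refine (card_class (i * H0) Y k a hk h1).trans ?_
    have h5 : (Y : ℝ) - ((i * H0 : ℕ) : ℝ) ≤ H0 := by
      have : (Y : ℝ) ≤ ((i * H0 : ℕ) : ℝ) + H0 := by exact_mod_cast h2.le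
      linarith
    have := div_le_div_of_nonneg_right h5 hk0.le
    linarith
  have h4 : |cs F (i * H0) k a| ≤ ∑ i ∈ Icc 1 J, |cs F (i * H0) k a| := by
    rcases Nat.eq_zero_or_pos i with h | h
    · rw [h, zero_mul, cs_zero, abs_zero]
      exact sum_nonneg fun _ _ => abs_nonneg _
    · exact single_le_sum (f := fun i => |cs F (i * H0) k a|) (fun _ _ => abs_nonneg _) (mem_Icc.2 ⟨h, hiJ⟩)
  exact (abs_add_le _ _).trans (add_le_add h4 h3)

lemma lamz_zero' (z : ℕ) (hz : 2 ≤ z) : lamz z 0 = 0 := by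
  unfold lamz
  rw [if_neg]
  intro h
  exact h 2 (mem_pz.2 ⟨hz, Nat.prime_two⟩) (dvd_zero 2)

lemma FF_zero (z : ℕ) (hz : 2 ≤ z) : FF z 0 = 0 := by
  unfold FF th
  rw [if_neg Nat.not_prime_zero, lamz_zero' z hz, sub_zero]

/-- a class which is not reduced -/
lemma nc_class (z k a X Y : ℕ) (p : ℕ) (hp : p.Prime) (hpz : p ≤ z) (hpk : p ∣ k) (hpa : p ∣ a) (hX : 1 ≤ X) (hYX : Y ≤ X) :
    |cs (FF z) Y k a| ≤ Real.log X := by
  have hlog : 0 ≤ Real.log X := Real.log_nonneg (by exact_mod_cast hX)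
  have h1 : ∀ n ∈ (Icc 1 Y).filter (fun n => n ≡ a [MOD k]), FF z n = if n = p then th p else 0 := by
    intro n hn
    rw [mem_filter] at hn
    have hpn : p ∣ n := (hn.2.dvd_iff hpk).2 hpa
    have h2 : lamz z n = 0 := by
      unfold lamz
      rw [if_neg]
      intro h
      exact h p (mem_pz.2 ⟨hpz, hp⟩) hpn
    unfold FF
    rw [h2, sub_zero]
    split_ifs with h3
    · rw [h3]
    · unfold th
      rw [if_neg]
      intro h4
      exact h3 ((Nat.prime_dvd_prime_iff_eq hp h4).1 hpn).symm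
  unfold cs
  rw [sum_congr rfl h1, sum_ite_eq']
  split_ifs with h2
  · rw [abs_of_nonneg (th_nonneg p)]
    exact th_le p X hX ((mem_Icc.1 (mem_filter.1 h2).1).2.trans hYX)
  · rw [abs_zero]; exact hlog

end Pool.Agent.Y868.TA
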