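import Pool.Agent.Y868.TA.B2
import Pool.Agent.Y868.TA.C1
import Pool.Agent.Y868.TA.A2

/-! The sums over all classes, and the major arcs. -/

set_option autoImplicit false

namespace Pool.Agent.Y868.TA

open Finset
open Pool.Agent.H373R2.T7
open Pool.Agent.H807R2.Dav
open H343E (Fam)

/-- the class of `e + m r₀` modulo `m q` -/
def n0 (e : ℤ) (m q r0 : ℕ) : ℕ := ((e + m * r0) % ((m * q : ℕ) : ℤ)).toNat

/-- no large prime divides both `m` and `c` -/
def good (z : ℕ) (c : ℤ) (m : ℕ) : Prop := ∀ p : ℕ, p.Prime → p ∣ m → (p : ℤ) ∣ c → p ≤ z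

lemma n0_lt (e : ℤ) (m q r0 : ℕ) (hm : 1 ≤ m) (hq : 1 ≤ q) : n0 e m q r0 < m * q := by
  unfold n0
  have hmq : 0 < m * q := Nat.mul_pos hm hq
  have h0 : (0 : ℤ) < ((m * q : ℕ) : ℤ) := by exact_mod_cast hmq
  have h1 := Int.emod_lt_of_pos (e + m * r0) h0
  have h2 := Int.emod_nonneg (e + m * r0) h0.ne'
  omega

lemma n0_inj (e : ℤ) (m q : ℕ) (hm : 1 ≤ m) (hq : 1 ≤ q) (a b : ℕ) (ha : a < q) (hb : b < q)
    (h : n0 e m q a = n0 e m q b) : a = b := by
  have hmq : 1 ≤ m * q := Nat.mul_pos hm hq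
  have hm0 : (m : ℤ) ≠ 0 := by exact_mod_cast (by omega : m ≠ 0)
  have h0 : ((m * q : ℕ) : ℤ) ≠ 0 := by exact_mod_cast (by omega : m * q ≠ 0)
  unfold n0 at h
  have h1 : (e + m * a) % ((m * q : ℕ) : ℤ) = (e + m * b) % ((m * q : ℕ) : ℤ) := by
    rw [← Int.toNat_of_nonneg (Int.emod_nonneg (e + m * a) h0), ← Int.toNat_of_nonneg (Int.emod_nonneg (e + m * b) h0), h]
  have h2 : ((m * q : ℕ) : ℤ) ∣ (e + m * a) - (e + m * b) := Int.ModEq.dvd (show (e + m * b) % ((m * q : ℕ) : ℤ) = (e + m * a) % ((m * q : ℕ) : ℤ) from h1.symm)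
  have h3 : (e + (m : ℤ) * a) - (e + m * b) = m * ((a : ℤ) - b) := by ring
  rw [h3] at h2
  push_cast at h2
  have h4 : (q : ℤ) ∣ (a : ℤ) - b := Int.dvd_of_mul_dvd_mul_left hm0 h2
  have h5 : (a : ℤ) - b = 0 := by
    apply Int.eq_zero_of_abs_lt_dvd h4
    rw [abs_lt]
    constructor <;> omega
  omega

open Classical in
theorem class_sum (U : ℕ) : ∃ B E0 : ℕ, ∀ E : ℕ, ∃ Y0 : ℕ, ∀ X z : ℕ, Real.log X ^ E0 ≤ z → (z : ℝ) ≤ Real.log X ^ E →
    ∀ Y : ℕ, Y0 ≤ Y → Y ≤ X → X ≤ Y ^ 2 → ∀ x q : ℕ, 1 ≤ q → q ≤ z →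
    ((x * q : ℕ) : ℝ) ≤ Y / Real.log X ^ B → ((x * q : ℕ) : ℝ) ^ 2 ≤ q * Y / Real.log X ^ B →
    ∀ (c : ℤ) (e : ℕ → ℤ), (∀ m : ℕ, (m : ℤ) ∣ e m - c) →
    ∑ m ∈ (Icc 1 x).filter (fun m => good z c m), ∑ r0 ∈ range q, |cs (FF z) Y (m * q) (n0 (e m) m q r0)| ≤
      q * Y / Real.log X ^ U + x * q * Real.log X := by
  obtain ⟨B, E0, hBV⟩ := bv_FF U
  refine ⟨B, E0, fun E => ?_⟩
  obtain ⟨Y0, h0⟩ := hBV E
  refine ⟨max Y0 1, fun X z hz1 hz2 Y hY hYX hXY x q hq hqz hK1 hK2 c e he => ?_⟩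
  have hY1 : 1 ≤ Y := (le_max_right _ _).trans hY
  have hX1 : 1 ≤ X := hY1.trans hYX
  have hlogX : 0 ≤ Real.log X := Real.log_nonneg (by exact_mod_cast hX1)
  set L : ℕ → Finset ℕ := fun k => if q ∣ k ∧ 1 ≤ k then ((range q).image (fun r0 => n0 (e (k / q)) (k / q) q r0)).filter
    (fun a => a.Coprime k) else ∅ with hLd
  have hL : Fam (q : ℝ) L := by
    constructor
    · intro k a ha
      rw [hLd] at ha
      by_cases hk : q ∣ k ∧ 1 ≤ k
      · simp only [if_pos hk] at ha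
        rw [mem_filter, mem_image] at ha
        obtain ⟨⟨r0, hr0, rfl⟩, hcop⟩ := ha
        refine ⟨?_, hcop⟩
        have hkq : k / q * q = k := Nat.div_mul_cancel hk.1
        have hm : 1 ≤ k / q := Nat.div_pos (Nat.le_of_dvd hk.2 hk.1) hq
        have := n0_lt (e (k / q)) (k / q) q r0 hm hq
        rwa [hkq] at this
      · simp only [if_neg hk] at ha
        simp at ha
    · intro k
      rw [hLd]
      by_cases hk : q ∣ k ∧ 1 ≤ k
      · simp only [if_pos hk]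
        have h1 := (card_filter_le ((range q).image (fun r0 => n0 (e (k / q)) (k / q) q r0)) (fun a => a.Coprime k)).trans
          card_image_le
        rw [card_range] at h1
        exact_mod_cast h1
      · simp only [if_neg hk]
        simp
  have hbv := h0 X z hz1 hz2 Y ((le_max_left _ _).trans hY) hYX hXY q (by exact_mod_cast hq) (by exact_mod_cast hqz)
    (x * q) hK1 hK2 L hL
  -- one modulus
  have hm1 : ∀ m ∈ (Icc 1 x).filter (fun m => good z c m), ∑ r0 ∈ range q, |cs (FF z) Y (m * q) (n0 (e m) m q r0)| ≤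
      ∑ a ∈ L (m * q), |cs (FF z) Y (m * q) a| + q * Real.log X := by
    intro m hm
    rw [mem_filter, mem_Icc] at hm
    obtain ⟨⟨hm1, hmx⟩, hgood⟩ := hm
    have hmq : 1 ≤ m * q := Nat.mul_pos hm1 hq
    rw [← sum_filter_add_sum_filter_not (range q) (fun r0 => (n0 (e m) m q r0).Coprime (m * q))]
    apply add_le_add
    · apply le_of_eq
      have h1 : L (m * q) = ((range q).filter (fun r0 => (n0 (e m) m q r0).Coprime (m * q))).image (fun r0 => n0 (e m) m q r0) := by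
        rw [hLd]
        simp only [if_pos (⟨Dvd.intro_left m rfl, hmq⟩ : q ∣ m * q ∧ 1 ≤ m * q)]
        rw [Nat.mul_div_cancel m (by omega : 0 < q), filter_image]
      rw [h1, sum_image]
      intro a ha b hb hab
      rw [mem_coe, mem_filter, mem_range] at ha hb
      exact n0_inj (e m) m q hm1 hq a b ha.1 hb.1 hab
    · have h1 : ∀ r0 ∈ (range q).filter (fun r0 => ¬ (n0 (e m) m q r0).Coprime (m * q)),
          |cs (FF z) Y (m * q) (n0 (e m) m q r0)| ≤ Real.log X := by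
        intro r0 hr0
        rw [mem_filter, mem_range] at hr0
        obtain ⟨p, hp, hpa, hpk⟩ := Nat.Prime.not_coprime_iff_dvd.1 hr0.2
        have hpz : p ≤ z := by
          rcases (hp.dvd_mul).1 hpk with h | h
          · apply hgood p hp h
            have h2 : (p : ℤ) ∣ ((n0 (e m) m q r0 : ℕ) : ℤ) := by exact_mod_cast hpa
            have h3 : ((m * q : ℕ) : ℤ) ∣ ((n0 (e m) m q r0 : ℕ) : ℤ) - (e m + m * r0) :=
              (mem_class (m * q) hmq (e m + m * r0) (n0 (e m) m q r0)).1 (Nat.ModEq.refl _)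
            have h4 : (p : ℤ) ∣ (m : ℤ) := by exact_mod_cast h
            have h5 : (p : ℤ) ∣ ((m * q : ℕ) : ℤ) := by exact_mod_cast hpk
            have h6 := dvd_sub h2 (h5.trans h3)
            have e1 : ((n0 (e m) m q r0 : ℕ) : ℤ) - (((n0 (e m) m q r0 : ℕ) : ℤ) - (e m + m * r0)) = (e m - c) + m * r0 + c := by ring
            rw [e1] at h6
            have h7 : (p : ℤ) ∣ (e m - c) + m * r0 := dvd_add (h4.trans (he m)) (Dvd.dvd.mul_right h4 _)
            exact (Int.dvd_add_right h7).1 h6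
          · exact (Nat.le_of_dvd (by omega) h).trans hqz
        exact nc_class z (m * q) _ X Y p hp hpz hpk hpa hX1 hYX
      refine (sum_le_sum h1).trans ?_
      rw [sum_const, nsmul_eq_mul]
      apply mul_le_mul_of_nonneg_right _ hlogX
      have := (card_filter_le (range q) (fun r0 => ¬ (n0 (e m) m q r0).Coprime (m * q)))
      rw [card_range] at this
      exact_mod_cast this
  refine (sum_le_sum hm1).trans ?_
  rw [sum_add_distrib]
  apply add_le_add
  · refine le_trans ?_ hbv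
    have h1 : ∑ m ∈ (Icc 1 x).filter (fun m => good z c m), ∑ a ∈ L (m * q), |cs (FF z) Y (m * q) a| =
        ∑ k ∈ ((Icc 1 x).filter (fun m => good z c m)).image (fun m => m * q), ∑ a ∈ L k, |cs (FF z) Y k a| := by
      rw [sum_image]
      intro a _ b _ hab
      exact Nat.eq_of_mul_eq_mul_right (by omega : 0 < q) hab
    rw [h1]
    apply sum_le_sum_of_subset_of_nonneg
    · intro k hk
      rw [mem_image] at hk
      obtain ⟨m, hm, rfl⟩ := hk
      rw [mem_filter, mem_Icc] at hm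
      rw [mem_Icc]
      exact ⟨Nat.mul_pos hm.1.1 hq, Nat.mul_le_mul_right q hm.1.2⟩
    · intro _ _ _
      exact sum_nonneg fun _ _ => abs_nonneg _
  · rw [sum_const, nsmul_eq_mul]
    have h1 : ((#((Icc 1 x).filter (fun m => good z c m)) : ℕ) : ℝ) ≤ x := by
      have := card_filter_le (Icc 1 x) (fun m => good z c m)
      rw [Nat.card_Icc, Nat.add_sub_cancel] at this
      exact_mod_cast this
    calc ((#((Icc 1 x).filter (fun m => good z c m)) : ℕ) : ℝ) * (q * Real.log X) ≤ x * (q * Real.log X) :=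
          mul_le_mul_of_nonneg_right h1 (by positivity)
      _ = _ := by ring

/-- the functions of `r` -/
noncomputable def GG (z : ℕ) (c : ℤ) (R m : ℕ) (r : ℤ) : ℝ := if |r| ≤ (R : ℤ) then FF z (c + m * r).toNat else 0

/-- reindexing the transform -/
lemma Gh_shift (z : ℕ) (c : ℤ) (R m : ℕ) (θ : ℝ) :
    ‖Gh (GG z c R) R m θ‖ = ‖∑ j ∈ Icc 1 (2 * R + 1), ((FF z ((c - m * (R + 1)) + m * j).toNat : ℝ) : ℂ) * ee ((j : ℝ) * θ)‖ := by
  have h1 : Gh (GG z c R) R m θ = ee (-((R + 1 : ℝ) * θ)) *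
      ∑ j ∈ Icc 1 (2 * R + 1), ((FF z ((c - m * (R + 1)) + m * j).toNat : ℝ) : ℂ) * ee ((j : ℝ) * θ) := by
    unfold Gh
    have h2 : Icc (-(R : ℤ)) R = (Icc 1 (2 * R + 1)).image (fun j : ℕ => (j : ℤ) - (R + 1)) := by
      ext r
      rw [mem_Icc, mem_image]
      constructor
      · rintro ⟨h1, h2⟩
        refine ⟨(r + (R + 1)).toNat, ?_, ?_⟩
        · rw [mem_Icc]; omega
        · rw [Int.toNat_of_nonneg (by linarith)]; ring
      · rintro ⟨j, hj, rfl⟩
        rw [mem_Icc] at hj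
        omega
    rw [h2, sum_image (by intro a _ b _ h; simpa using h), mul_sum]
    refine sum_congr rfl fun j hj => ?_
    rw [mem_Icc] at hj
    have h3 : |(j : ℤ) - (R + 1)| ≤ (R : ℤ) := by rw [abs_le]; omega
    have h4 : GG z c R m ((j : ℤ) - (R + 1)) = FF z ((c - m * (R + 1)) + m * j).toNat := by
      unfold GG
      rw [if_pos h3]
      congr 2
      ring
    rw [h4]
    have h5 : ee ((((j : ℤ) - (R + 1) : ℤ) : ℝ) * θ) = ee (-((R + 1 : ℝ) * θ)) * ee ((j : ℝ) * θ) := by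
      rw [← ee_add]; congr 1; push_cast; ring
    rw [h5]; ring
  rw [h1, norm_mul, norm_ee, one_mul]

lemma mod_twist (f : ℕ → ℝ) (y q u : ℕ) (hq : 1 ≤ q) :
    ‖∑ n ∈ Icc 1 y, ((f n : ℝ) : ℂ) * ee (n * ((u : ℝ) / q))‖ ≤
      ∑ r0 ∈ range q, |∑ n ∈ (Icc 1 y).filter (fun n => n % q = r0), f n| := by
  have hq0 : (q : ℝ) ≠ 0 := by
    have : (0 : ℝ) < q := by exact_mod_cast hq
    exact this.ne'
  have h1 : ∑ n ∈ Icc 1 y, ((f n : ℝ) : ℂ) * ee (n * ((u : ℝ) / q)) =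
      ∑ r0 ∈ range q, (((∑ n ∈ (Icc 1 y).filter (fun n => n % q = r0), f n : ℝ)) : ℂ) * ee (r0 * ((u : ℝ) / q)) := by
    rw [← sum_fiberwise_of_maps_to (s := Icc 1 y) (t := range q)
      (g := fun n => n % q) (fun n _ => mem_range.2 (Nat.mod_lt _ (by omega)))]
    apply sum_congr rfl
    intro r0 _
    push_cast
    rw [sum_mul]
    apply sum_congr rfl
    intro n hn
    rw [mem_filter] at hn
    congr 1
    obtain ⟨t, ht⟩ : ∃ t : ℕ, t = n / q := ⟨_, rfl⟩
    have h6 : (n : ℝ) * ((u : ℝ) / q) = r0 * ((u : ℝ) / q) + (((u * t : ℕ) : ℤ) : ℝ) := by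
      have h7 := Nat.mod_add_div n q
      rw [hn.2, ← ht] at h7
      have h8 : (n : ℝ) = r0 + q * (t : ℝ) := by exact_mod_cast h7.symm
      rw [h8]
      push_cast
      field_simp
    rw [h6, ee_add_int]
  rw [h1]
  refine (norm_sum_le _ _).trans (sum_le_sum fun c _ => ?_)
  rw [norm_mul, norm_ee, mul_one, Complex.norm_real, Real.norm_eq_abs]

end Pool.Agent.Y868.TA
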