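import Pool.Agent.Y868.TA.C2

/-! The major arcs. -/

set_option autoImplicit false

namespace Pool.Agent.Y868.TA

open Finset
open Pool.Agent.H373R2.T7
open Pool.Agent.H807R2.Dav
open H343E (Fam)

/-- one transform near a fraction -/
lemma Gh_le (z : ℕ) (hz : 2 ≤ z) (c : ℤ) (R m q u J H0 : ℕ) (hm : 1 ≤ m) (hq : 1 ≤ q) (hH : 1 ≤ H0)
    (hX : |c| + (m : ℤ) * R ≤ ((J * H0 : ℕ) : ℤ)) (M : ℝ) (hM : ∀ n, n ≤ J * H0 → |FF z n| ≤ M) (hM0 : 0 ≤ M)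
    (θ δ : ℝ) (hθ : |θ - (u : ℝ) / q| ≤ δ) :
    ‖Gh (GG z c R) R m θ‖ ≤ (1 + 7 * (2 * R + 1) * δ) * (2 * ∑ r0 ∈ range q,
      (∑ i ∈ Icc 1 J, |cs (FF z) (i * H0) (m * q) (n0 (c - m * (R + 1)) m q r0)| + ((H0 : ℝ) / (m * q : ℕ) + 1) * M)) := by
  have hδ : 0 ≤ δ := (abs_nonneg _).trans hθ
  rw [Gh_shift]
  set e : ℤ := c - m * (R + 1) with he
  set γ : ℝ := θ - (u : ℝ) / q with hγ
  set f : ℕ → ℝ := fun j => FF z (e + m * j).toNat with hf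
  set M0 : ℝ := 2 * ∑ r0 ∈ range q,
      (∑ i ∈ Icc 1 J, |cs (FF z) (i * H0) (m * q) (n0 e m q r0)| + ((H0 : ℝ) / (m * q : ℕ) + 1) * M) with hM0d
  have hmq : 1 ≤ m * q := Nat.mul_pos hm hq
  have hm0 : (0 : ℤ) < m := by exact_mod_cast hm
  have hR0 : (0 : ℤ) ≤ R := Int.natCast_nonneg _
  have hM00 : 0 ≤ M0 := by
    rw [hM0d]
    have : 0 ≤ ∑ r0 ∈ range q,
      (∑ i ∈ Icc 1 J, |cs (FF z) (i * H0) (m * q) (n0 e m q r0)| + ((H0 : ℝ) / (m * q : ℕ) + 1) * M) :=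
      sum_nonneg fun _ _ => add_nonneg (sum_nonneg fun _ _ => abs_nonneg _) (by positivity)
    linarith
  have hpart : ∀ y : ℕ, y ≤ 2 * R + 1 → ‖∑ j ∈ Icc 1 y, ((f j : ℝ) : ℂ) * ee (j * ((u : ℝ) / q))‖ ≤ M0 := by
    intro y hy
    refine (mod_twist f y q u hq).trans ?_
    rw [hM0d, mul_sum]
    refine sum_le_sum fun r0 hr0 => ?_
    rw [mem_range] at hr0
    have h1 := prefix_class (FF z) (FF_zero z hz) e m q hm hq r0 hr0 y
    have h2 : ∑ n ∈ (Icc 1 y).filter (fun n => n % q = r0), f n =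
        cs (FF z) (e + m * y).toNat (m * q) (n0 e m q r0) - cs (FF z) e.toNat (m * q) (n0 e m q r0) := h1
    rw [h2]
    have hc1 := abs_le.1 (le_refl |c|)
    have hy' : (y : ℤ) ≤ 2 * R + 1 := by exact_mod_cast hy
    have hY1 : (e + m * y).toNat ≤ J * H0 := by
      rw [Int.toNat_le]
      refine le_trans ?_ hX
      rw [he]
      have h3 : (m : ℤ) * y ≤ m * (2 * R + 1) := mul_le_mul_of_nonneg_left hy' hm0.le
      linarith [hc1.2]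
    have hY2 : e.toNat ≤ J * H0 := by
      rw [Int.toNat_le]
      refine le_trans ?_ hX
      rw [he]
      have h3 : (0 : ℤ) ≤ (m : ℤ) * R := by positivity
      linarith [hc1.2]
    have g1 := grid_class (FF z) M J H0 (m * q) (n0 e m q r0) _ hM hM0 hmq hH hY1
    have g2 := grid_class (FF z) M J H0 (m * q) (n0 e m q r0) _ hM hM0 hmq hH hY2
    refine (abs_sub _ _).trans ?_
    linarith
  have h1 := abel_ee (fun j => ((f j : ℝ) : ℂ) * ee (j * ((u : ℝ) / q))) γ M0 (2 * R + 1) hpart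
  have h2 : ∑ j ∈ Icc 1 (2 * R + 1), ((FF z (e + m * j).toNat : ℝ) : ℂ) * ee ((j : ℝ) * θ) =
      ∑ j ∈ Icc 1 (2 * R + 1), (((f j : ℝ) : ℂ) * ee (j * ((u : ℝ) / q))) * ee (j * γ) := by
    apply sum_congr rfl
    intro j _
    rw [mul_assoc, ← ee_add]
    congr 2
    rw [hγ]
    ring
  rw [h2]
  refine h1.trans ?_
  rw [mul_comm]
  apply mul_le_mul_of_nonneg_right _ hM00
  have h4 : ‖ee γ - 1‖ ≤ 7 * δ := by
    have h5 := dd_le γ
    unfold dd at h5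
    rw [norm_sub_rev] at h5
    refine h5.trans ?_
    have hpi : Real.pi < 3.15 := Real.pi_lt_d2
    have h6 : 0 ≤ |γ| := abs_nonneg _
    nlinarith
  push_cast
  have h5 : (2 * (R : ℝ) + 1) * ‖ee γ - 1‖ ≤ (2 * R + 1) * (7 * δ) := mul_le_mul_of_nonneg_left h4 (by positivity)
  linarith

lemma harm_le (x : ℕ) : ∑ m ∈ Icc 1 x, 1 / (m : ℝ) ≤ 1 + Real.log x := by
  have h2 : ∑ n ∈ Icc 1 x, 1 / (n : ℝ) = ((harmonic x : ℚ) : ℝ) := by
    rw [harmonic_eq_sum_Icc]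
    push_cast
    simp
  rw [h2]
  exact harmonic_le_one_add_log x

open Classical in
/-- the sum of the transforms on the major arcs -/
theorem maj_sum (U : ℕ) : ∃ B E0 : ℕ, ∀ E : ℕ, ∃ Y0 : ℕ, ∀ J H0 z : ℕ, Real.log (J * H0 : ℕ) ^ E0 ≤ z →
    (z : ℝ) ≤ Real.log (J * H0 : ℕ) ^ E → 2 ≤ z → Y0 ≤ H0 → 1 ≤ J → J ≤ H0 → ∀ x Q0 R : ℕ, Q0 ≤ z →
    ((x * Q0 : ℕ) : ℝ) ^ 2 ≤ H0 / Real.log (J * H0 : ℕ) ^ B → ∀ c : ℤ, |c| + (x : ℤ) * R ≤ ((J * H0 : ℕ) : ℤ) →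
    ∀ M : ℝ, (∀ n, n ≤ J * H0 → |FF z n| ≤ M) → 0 ≤ M → ∀ w : ℕ → ℝ, (∀ m, |w m| ≤ 1) → (∀ m, ¬ good z c m → w m = 0) →
    ∀ q u : ℕ, 1 ≤ q → q ≤ Q0 → ∀ θ δ : ℝ, |θ - (u : ℝ) / q| ≤ δ →
    ∑ m ∈ Icc 1 x, |w m| * ‖Gh (GG z c R) R m θ‖ ≤ (1 + 7 * (2 * R + 1) * δ) * (2 *
      (J * (Q0 * (J * H0 : ℕ) / Real.log (J * H0 : ℕ) ^ U + x * Q0 * Real.log (J * H0 : ℕ)) +
        (H0 * (1 + Real.log x) + x * Q0) * M)) := by
  obtain ⟨B, E0, hBV⟩ := class_sum U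
  refine ⟨B, E0, fun E => ?_⟩
  obtain ⟨Y0, h0⟩ := hBV E
  refine ⟨max Y0 3, fun J H0 z hz1 hz2 hz H0Y hJ hJH x Q0 R hQ0z hK c hc M hM hM0 w hw hwg q u hq hqQ θ δ hθ => ?_⟩
  have hH0 : 3 ≤ H0 := (le_max_right _ _).trans H0Y
  have hY0 : Y0 ≤ H0 := (le_max_left _ _).trans H0Y
  set X := J * H0 with hX
  have hX1 : 1 ≤ X := Nat.mul_pos hJ (by omega)
  have hX3 : 3 ≤ X := by
    calc 3 ≤ H0 := hH0
      _ = 1 * H0 := (one_mul _).symm
      _ ≤ X := Nat.mul_le_mul_right _ hJ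
  have hΛ1 : 1 ≤ Real.log X := by
    have h1 : Real.log 3 ≤ Real.log X := Real.log_le_log (by norm_num) (by exact_mod_cast hX3)
    have h2 : (1 : ℝ) ≤ Real.log 3 := by
      rw [Real.le_log_iff_exp_le (by norm_num)]
      exact Real.exp_one_lt_d9.le.trans (by norm_num)
    linarith
  have hΛ0 : 0 < Real.log X := by linarith
  have hδ : 0 ≤ δ := (abs_nonneg _).trans hθ
  have hκ0 : 0 ≤ 1 + 7 * (2 * (R : ℝ) + 1) * δ := by positivity
  set e : ℕ → ℤ := fun m => c - m * (R + 1) with he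
  have hq0 : (0 : ℝ) < q := by exact_mod_cast hq
  have hqr : (q : ℝ) ≤ Q0 := by exact_mod_cast hqQ
  have hH0r : (0 : ℝ) < H0 := by exact_mod_cast (by omega : 0 < H0)
  set S : ℕ → Finset ℕ := fun x => (Icc 1 x).filter (fun m => good z c m) with hS
  -- reduction to good `m`
  have h1 : ∑ m ∈ Icc 1 x, |w m| * ‖Gh (GG z c R) R m θ‖ ≤ ∑ m ∈ S x, ‖Gh (GG z c R) R m θ‖ := by
    rw [hS, sum_filter]
    refine sum_le_sum fun m _ => ?_
    by_cases hg : good z c m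
    · rw [if_pos hg]
      exact mul_le_of_le_one_left (norm_nonneg _) (hw m)
    · rw [if_neg hg, hwg m hg, abs_zero, zero_mul]
  refine h1.trans ?_
  have h2 : ∀ m ∈ S x, ‖Gh (GG z c R) R m θ‖ ≤ (1 + 7 * (2 * R + 1) * δ) * (2 * ∑ r0 ∈ range q,
      (∑ i ∈ Icc 1 J, |cs (FF z) (i * H0) (m * q) (n0 (e m) m q r0)| + ((H0 : ℝ) / (m * q : ℕ) + 1) * M)) := by
    intro m hm
    rw [hS, mem_filter, mem_Icc] at hm
    have hmx : (m : ℤ) ≤ x := by exact_mod_cast hm.1.2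
    refine Gh_le z hz c R m q u J H0 hm.1.1 hq (by omega) ?_ M hM hM0 θ δ hθ
    refine le_trans ?_ hc
    have : (m : ℤ) * R ≤ x * R := mul_le_mul_of_nonneg_right hmx (Int.natCast_nonneg _)
    linarith
  refine (sum_le_sum h2).trans ?_
  rw [← mul_sum, ← mul_sum]
  apply mul_le_mul_of_nonneg_left _ hκ0
  apply mul_le_mul_of_nonneg_left _ (by norm_num)
  simp only [sum_add_distrib]
  apply add_le_add
  · have h3 : ∑ m ∈ S x, ∑ r0 ∈ range q, ∑ i ∈ Icc 1 J, |cs (FF z) (i * H0) (m * q) (n0 (e m) m q r0)| =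
        ∑ i ∈ Icc 1 J, ∑ m ∈ S x, ∑ r0 ∈ range q, |cs (FF z) (i * H0) (m * q) (n0 (e m) m q r0)| := by
      calc ∑ m ∈ S x, ∑ r0 ∈ range q, ∑ i ∈ Icc 1 J, |cs (FF z) (i * H0) (m * q) (n0 (e m) m q r0)| =
          ∑ m ∈ S x, ∑ i ∈ Icc 1 J, ∑ r0 ∈ range q, |cs (FF z) (i * H0) (m * q) (n0 (e m) m q r0)| :=
            sum_congr rfl fun m _ => sum_comm
        _ = _ := sum_comm
    rw [h3]
    have h4 : ∀ i ∈ Icc 1 J, ∑ m ∈ S x, ∑ r0 ∈ range q, |cs (FF z) (i * H0) (m * q) (n0 (e m) m q r0)| ≤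
        Q0 * X / Real.log X ^ U + x * Q0 * Real.log X := by
      intro i hi
      rw [mem_Icc] at hi
      have hiH : H0 ≤ i * H0 := Nat.le_mul_of_pos_left _ hi.1
      have hiX : i * H0 ≤ X := Nat.mul_le_mul_right _ hi.2
      have hXi : X ≤ (i * H0) ^ 2 := by
        calc X = J * H0 := rfl
          _ ≤ H0 * H0 := Nat.mul_le_mul_right _ hJH
          _ ≤ (i * H0) * (i * H0) := Nat.mul_le_mul hiH hiH
          _ = (i * H0) ^ 2 := by ring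
      have hiHr : (H0 : ℝ) ≤ ((i * H0 : ℕ) : ℝ) := by exact_mod_cast hiH
      have hxq : ((x * q : ℕ) : ℝ) ≤ ((x * Q0 : ℕ) : ℝ) := by exact_mod_cast Nat.mul_le_mul_left x hqQ
      have hsq : ((x * q : ℕ) : ℝ) ^ 2 ≤ ((i * H0 : ℕ) : ℝ) / Real.log X ^ B := by
        calc ((x * q : ℕ) : ℝ) ^ 2 ≤ ((x * Q0 : ℕ) : ℝ) ^ 2 := pow_le_pow_left₀ (Nat.cast_nonneg _) hxq 2
          _ ≤ H0 / Real.log X ^ B := hK
          _ ≤ _ := div_le_div_of_nonneg_right hiHr (by positivity)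
      have hlin : ((x * q : ℕ) : ℝ) ≤ ((i * H0 : ℕ) : ℝ) / Real.log X ^ B := by
        refine le_trans ?_ hsq
        exact_mod_cast Nat.le_self_pow two_ne_zero (x * q)
      have hq1r : (1 : ℝ) ≤ q := by exact_mod_cast hq
      have h5 := h0 X z hz1 hz2 (i * H0) (hY0.trans hiH) hiX hXi x q hq (hqQ.trans hQ0z) hlin
        (hsq.trans (div_le_div_of_nonneg_right (le_mul_of_one_le_left (Nat.cast_nonneg _) hq1r) (by positivity))) c e
        (fun m => ⟨-(R + 1), by rw [he]; ring⟩)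
      refine h5.trans (add_le_add ?_ ?_)
      · apply div_le_div_of_nonneg_right _ (by positivity)
        have : ((i * H0 : ℕ) : ℝ) ≤ X := by exact_mod_cast hiX
        gcongr
      · gcongr
    refine (sum_le_sum h4).trans ?_
    rw [sum_const, Nat.card_Icc, nsmul_eq_mul, Nat.add_sub_cancel]
  · have h3 : ∀ m ∈ S x, ∑ r0 ∈ range q, ((H0 : ℝ) / (m * q : ℕ) + 1) * M ≤ (H0 * (1 / (m : ℝ)) + Q0) * M := by
      intro m hm
      rw [hS, mem_filter, mem_Icc] at hm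
      have hm0 : (0 : ℝ) < m := by exact_mod_cast hm.1.1
      rw [sum_const, card_range, nsmul_eq_mul, ← mul_assoc]
      apply mul_le_mul_of_nonneg_right _ hM0
      push_cast
      have h4 : (q : ℝ) * ((H0 : ℝ) / (m * q) + 1) = H0 * (1 / (m : ℝ)) + q := by field_simp
      rw [h4]
      linarith
    have h3' : ∑ m ∈ S x, ∑ r0 ∈ range q, ((H0 : ℝ) / (m * q : ℕ) + 1) * M ≤ ∑ m ∈ Icc 1 x, (H0 * (1 / (m : ℝ)) + Q0) * M := by
      refine (sum_le_sum h3).trans ?_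
      apply sum_le_sum_of_subset_of_nonneg (filter_subset _ _)
      intro _ _ _
      positivity
    have h4 : ∑ m ∈ Icc 1 x, (H0 * (1 / (m : ℝ)) + Q0) * M = (H0 * (∑ m ∈ Icc 1 x, 1 / (m : ℝ)) + x * Q0) * M := by
      rw [← sum_mul, sum_add_distrib, ← mul_sum, sum_const, Nat.card_Icc, nsmul_eq_mul, Nat.add_sub_cancel]
    have h5 : (H0 * (∑ m ∈ Icc 1 x, 1 / (m : ℝ)) + x * Q0) * M ≤ (H0 * (1 + Real.log x) + x * Q0) * M := by
      have := harm_le x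
      gcongr
    have h6 : ∑ m ∈ S x, ∑ r0 ∈ range q, ((H0 : ℝ) / (m * q : ℕ) + 1) * M =
        ∑ m ∈ S x, ∑ _r0 ∈ range q, ((H0 : ℝ) / (m * q : ℕ) + 1) * M := rfl
    rw [h4] at h3'
    exact h3'.trans h5

end Pool.Agent.Y868.TA
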