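import Pool.Agent.Y868.TA.C3

/-! The second moment over the box: size of the functions and the bad arguments. -/

set_option autoImplicit false

namespace Pool.Agent.Y868.TA

open Finset
open Pool.Agent.H373R2.T7

open Classical in
lemma bad_count (x z : ℕ) (hz : 1 ≤ z) (c : ℤ) (hc : c ≠ 0) :
    (((Icc 1 x).filter (fun m => ¬ good z c m)).card : ℝ) ≤ 2 * Real.log c.natAbs * (x / z) := by
  have hz0 : (0 : ℝ) < z := by exact_mod_cast hz
  have hc1 : 1 ≤ c.natAbs := by omega
  have hsub : (Icc 1 x).filter (fun m => ¬ good z c m) ⊆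
      (c.natAbs.primeFactors.filter (fun p => z < p)).biUnion (fun p => (Icc 1 x).filter (fun m => p ∣ m)) := by
    intro m hm
    rw [mem_filter] at hm
    have h1 := hm.2
    unfold good at h1
    push Not at h1
    obtain ⟨p, hp, hpm, hpc, hpz⟩ := h1
    rw [mem_biUnion]
    refine ⟨p, ?_, mem_filter.2 ⟨hm.1, hpm⟩⟩
    rw [mem_filter, Nat.mem_primeFactors]
    exact ⟨⟨hp, Int.natCast_dvd.1 hpc, by omega⟩, hpz⟩
  have h1 : ∀ p ∈ c.natAbs.primeFactors.filter (fun p => z < p), (((Icc 1 x).filter (fun m => p ∣ m)).card : ℝ) ≤ x / z := by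
    intro p hp
    rw [mem_filter, Nat.mem_primeFactors] at hp
    have h2 : ((Icc 1 x).filter (fun m => p ∣ m)).card = x / p := by
      have : Icc 1 x = Ioc 0 x := by ext; simp [Nat.succ_le_iff]
      rw [this]
      exact Nat.Ioc_filter_dvd_card_eq_div x p
    rw [h2]
    have h3 : ((x / p : ℕ) : ℝ) ≤ x / p := Nat.cast_div_le
    refine h3.trans ?_
    exact div_le_div_of_nonneg_left (Nat.cast_nonneg _) hz0 (by exact_mod_cast hp.2.le)
  calc (((Icc 1 x).filter (fun m => ¬ good z c m)).card : ℝ)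
      ≤ ∑ p ∈ c.natAbs.primeFactors.filter (fun p => z < p), (((Icc 1 x).filter (fun m => p ∣ m)).card : ℝ) := by
        exact_mod_cast (card_le_card hsub).trans card_biUnion_le
    _ ≤ ∑ p ∈ c.natAbs.primeFactors.filter (fun p => z < p), (x / z : ℝ) := sum_le_sum h1
    _ = ((c.natAbs.primeFactors.filter (fun p => z < p)).card : ℝ) * (x / z) := by rw [sum_const, nsmul_eq_mul]
    _ ≤ _ := by
        apply mul_le_mul_of_nonneg_right _ (by positivity)
        refine le_trans ?_ (Pool.Agent.H398R2.BV.omega_le_log c.natAbs hc1)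
        exact_mod_cast card_le_card (filter_subset _ _)

/-- the size of the difference function -/
lemma FF_abs (z n X : ℕ) (hX : 1 ≤ X) (hn : n ≤ X) (hV : (Vz z)⁻¹ ≤ Real.log X) : |FF z n| ≤ Real.log X := by
  have h1 := th_nonneg n
  have h2 := th_le n X hX hn
  have h3 := lamz_nonneg z n
  have h4 : lamz z n ≤ Real.log X := by
    unfold lamz
    split_ifs
    · exact hV
    · exact Real.log_nonneg (by exact_mod_cast hX)
  unfold FF
  rw [abs_le]
  constructor <;> linarith

lemma GG_sq (z : ℕ) (c : ℤ) (R x X : ℕ) (hX : 1 ≤ X) (hV : (Vz z)⁻¹ ≤ Real.log X)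
    (hc : |c| + (x : ℤ) * R ≤ X) :
    ∑ m ∈ Icc 1 x, ∑ r ∈ Icc (-(R : ℤ)) R, GG z c R m r ^ 2 ≤ x * ((2 * R + 1) * Real.log X ^ 2) := by
  have h1 : ∀ m ∈ Icc 1 x, ∑ r ∈ Icc (-(R : ℤ)) R, GG z c R m r ^ 2 ≤ (2 * R + 1) * Real.log X ^ 2 := by
    intro m hm
    rw [mem_Icc] at hm
    have h2 : ∀ r ∈ Icc (-(R : ℤ)) R, GG z c R m r ^ 2 ≤ Real.log X ^ 2 := by
      intro r hr
      rw [mem_Icc] at hr
      unfold GG
      rw [if_pos (abs_le.2 hr), ← sq_abs]
      apply pow_le_pow_left₀ (abs_nonneg _)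
      apply FF_abs z _ X hX _ hV
      rw [Int.toNat_le]
      refine le_trans ?_ hc
      have h3 : (m : ℤ) ≤ x := by exact_mod_cast hm.2
      have h4 : (m : ℤ) * r ≤ x * R := by
        have h5 : (m : ℤ) * r ≤ m * R := mul_le_mul_of_nonneg_left hr.2 (Int.natCast_nonneg _)
        have h6 : (m : ℤ) * R ≤ x * R := mul_le_mul_of_nonneg_right h3 (Int.natCast_nonneg _)
        linarith
      linarith [le_abs_self c]
    refine (sum_le_sum h2).trans ?_
    rw [sum_const, nsmul_eq_mul, Int.card_Icc]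
    have h3 : (((R : ℤ) + 1 - -(R : ℤ)).toNat : ℝ) = 2 * R + 1 := by
      have : ((R : ℤ) + 1 - -(R : ℤ)).toNat = 2 * R + 1 := by omega
      rw [this]; push_cast; ring
    rw [h3]
  refine (sum_le_sum h1).trans ?_
  rw [sum_const, Nat.card_Icc, nsmul_eq_mul, Nat.add_sub_cancel]

end Pool.Agent.Y868.TA
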