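import Pool.Agent.Y868.TA.D1

/-! The second moment over the box. -/

set_option autoImplicit false

namespace Pool.Agent.Y868.TA

open Finset Filter
open Pool.Agent.H373R2.T7
open Pool.Agent.H807R2.Dav

lemma evt_polylog (N : ℕ) : ∃ x0 : ℕ, ∀ x : ℕ, x0 ≤ x → Real.log x ^ N ≤ x := by
  obtain ⟨x0, h⟩ := ev_log' N 1
  refine ⟨max x0 1, fun x hx => ?_⟩
  have h1 := h x ((le_max_left _ _).trans hx)
  have hx1 : (1 : ℝ) ≤ x := by exact_mod_cast (le_max_right _ _).trans hx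
  rw [one_mul] at h1
  refine h1.trans ?_
  rw [Real.sqrt_le_left (by linarith)]
  nlinarith

/-- numerics for the major arcs -/
lemma numS (K C0 K3 U1 A1 V : ℕ) (hV : V = A1 + 2 * K + C0 + 2) (hK3 : K3 = V + K + 3) (hU1 : U1 = V + K3 + C0 + K + 1)
    (L Λ J X Q0 R H0 x B D : ℝ) (hLK : 1000 * ((K : ℝ) + 4) ≤ L) (hLx : L ^ (2 * K3 + 2 * V + C0 + 10) ≤ x)
    (hΛ1 : L ≤ Λ) (hΛ2 : Λ ≤ (K + 4) * L) (hJ0 : 0 ≤ J) (hJ : J ≤ L ^ K3) (hX0 : 0 ≤ X) (hX : X ≤ 5 * (B * x * L ^ K))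
    (hQ0 : 0 ≤ Q0) (hQ : Q0 ≤ L ^ C0) (hR0 : 0 ≤ R) (hR : R ≤ 3 * (B * L ^ K)) (hH0 : 0 ≤ H0)
    (hH : H0 ≤ 8 * (B * x * L ^ K) / L ^ K3 + 1) (hBx : x ≤ B) (hD0 : 0 < D) (hBD : B ≤ D * x * L ^ K) :
    (1 + 7 * (2 * R + 1) * (L ^ C0 / (x * D))) * (2 * (J * (Q0 * X / Λ ^ U1 + x * Q0 * Λ) + (H0 * (1 + L) + x * Q0) * Λ)) ≤
      B * x / L ^ A1 := by
  have hK0 : (0 : ℝ) ≤ K := Nat.cast_nonneg K
  have hL0 : 0 < L := by linarith
  have hL1 : 1 ≤ L := by linarith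
  have hL4 : 4000 ≤ L := by linarith
  have hΛ0 : 0 < Λ := by linarith
  have hLp : ∀ n : ℕ, 0 < L ^ n := fun n => by positivity
  have hLp1 : ∀ n : ℕ, 1 ≤ L ^ n := fun n => one_le_pow₀ hL1
  have hx1 : 1 ≤ x := (hLp1 _).trans hLx
  have hx0 : 0 < x := by linarith
  have hB0 : 0 < B := by linarith
  have hLL : ∀ {i j : ℕ}, i ≤ j → L ^ i ≤ L ^ j := fun h => pow_le_pow_right₀ hL1 h
  set T : ℝ := B * x / L ^ (V + 1) with hT
  have hT0 : 0 < T := by positivity
  -- the first factor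
  have f1 : 1 + 7 * (2 * R + 1) * (L ^ C0 / (x * D)) ≤ 50 * L ^ (2 * K + C0) := by
    have h1 : 2 * R + 1 ≤ 7 * (D * x * L ^ (2 * K)) := by
      have h2 : 1 ≤ B * L ^ K := by
        have := hLp1 K
        nlinarith
      have h3 : B * L ^ K ≤ D * x * L ^ K * L ^ K := mul_le_mul_of_nonneg_right hBD (hLp K).le
      have h4 : D * x * L ^ K * L ^ K = D * x * L ^ (2 * K) := by rw [two_mul, pow_add]; ring
      rw [h4] at h3
      linarith
    have h5 : 7 * (2 * R + 1) * (L ^ C0 / (x * D)) ≤ 7 * (7 * (D * x * L ^ (2 * K))) * (L ^ C0 / (x * D)) := by gcongr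
    have h6 : 7 * (7 * (D * x * L ^ (2 * K))) * (L ^ C0 / (x * D)) = 49 * L ^ (2 * K + C0) := by
      rw [pow_add]; field_simp; ring
    have := hLp1 (2 * K + C0)
    linarith
  -- the terms
  have ta : J * (Q0 * X / Λ ^ U1) ≤ 5 * T := by
    have h1 : L ^ U1 ≤ Λ ^ U1 := pow_le_pow_left₀ hL0.le hΛ1 _
    calc J * (Q0 * X / Λ ^ U1) ≤ L ^ K3 * (L ^ C0 * (5 * (B * x * L ^ K)) / L ^ U1) := by gcongr
      _ = 5 * T := by
          rw [hT, hU1, show V + K3 + C0 + K + 1 = (V + 1) + K3 + C0 + K by ring]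
          simp only [pow_add L (V + 1 + K3 + C0) K, pow_add L (V + 1 + K3) C0, pow_add L (V + 1) K3]
          have := (hLp K).ne'
          have := (hLp C0).ne'
          have := (hLp K3).ne'
          have := (hLp (V + 1)).ne'
          field_simp
  have hΛL2 : Λ ≤ L ^ 2 := by nlinarith
  have tb : J * (x * Q0 * Λ) ≤ T := by
    rw [hT, le_div_iff₀ (hLp _)]
    calc J * (x * Q0 * Λ) * L ^ (V + 1) ≤ L ^ K3 * (x * L ^ C0 * L ^ 2) * L ^ (V + 1) := by gcongr
      _ = L ^ (K3 + C0 + 2 + (V + 1)) * x := by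
          simp only [pow_add L (K3 + C0 + 2) (V + 1), pow_add L (K3 + C0) 2, pow_add L K3 C0]; ring
      _ ≤ B * x := by
          apply mul_le_mul_of_nonneg_right _ hx0.le
          exact (hLL (by omega)).trans (hLx.trans hBx)
  have td : x * Q0 * Λ ≤ T := by
    rw [hT, le_div_iff₀ (hLp _)]
    calc x * Q0 * Λ * L ^ (V + 1) ≤ x * L ^ C0 * L ^ 2 * L ^ (V + 1) := by gcongr
      _ = L ^ (C0 + 2 + (V + 1)) * x := by
          simp only [pow_add L (C0 + 2) (V + 1), pow_add L C0 2]; ring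
      _ ≤ B * x := by
          apply mul_le_mul_of_nonneg_right _ hx0.le
          exact (hLL (by omega)).trans (hLx.trans hBx)
  have tc : H0 * (1 + L) * Λ ≤ (16 * (K + 4) + 1) * T := by
    have h1 : (1 + L) * Λ ≤ 2 * (K + 4) * L ^ 2 := by
      have : (1 + L) * Λ ≤ (2 * L) * ((K + 4) * L) := by
        apply mul_le_mul (by linarith) hΛ2 hΛ0.le (by positivity)
      calc (1 + L) * Λ ≤ (2 * L) * ((K + 4) * L) := this
        _ = _ := by ring
    calc H0 * (1 + L) * Λ = H0 * ((1 + L) * Λ) := by ring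
      _ ≤ (8 * (B * x * L ^ K) / L ^ K3 + 1) * (2 * (K + 4) * L ^ 2) := by gcongr
      _ = 16 * (K + 4) * (B * x * L ^ K * L ^ 2 / L ^ K3) + 2 * (K + 4) * L ^ 2 := by ring
      _ = 16 * (K + 4) * T + 2 * (K + 4) * L ^ 2 := by
          congr 2
          rw [hT, hK3, show V + K + 3 = (V + 1) + K + 2 by ring]
          simp only [pow_add L (V + 1 + K) 2, pow_add L (V + 1) K]
          have := (hLp K).ne'
          have := (hLp 2).ne'
          have := (hLp (V + 1)).ne'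
          field_simp
      _ ≤ 16 * (K + 4) * T + T := by
          have h2 : 2 * ((K : ℝ) + 4) * L ^ 2 ≤ T := by
            rw [hT, le_div_iff₀ (hLp _)]
            have h3 : 2 * ((K : ℝ) + 4) ≤ L := by linarith
            calc 2 * ((K : ℝ) + 4) * L ^ 2 * L ^ (V + 1) ≤ L * L ^ 2 * L ^ (V + 1) := by gcongr
              _ = L ^ (V + 4) := by ring
              _ ≤ B := (hLL (by omega)).trans (hLx.trans hBx)
              _ ≤ B * x := le_mul_of_one_le_right hB0.le hx1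
          linarith
      _ = _ := by ring
  have hin : J * (Q0 * X / Λ ^ U1 + x * Q0 * Λ) + (H0 * (1 + L) + x * Q0) * Λ ≤ B * x / L ^ V := by
    have h1 : J * (Q0 * X / Λ ^ U1 + x * Q0 * Λ) + (H0 * (1 + L) + x * Q0) * Λ =
        J * (Q0 * X / Λ ^ U1) + J * (x * Q0 * Λ) + H0 * (1 + L) * Λ + x * Q0 * Λ := by ring
    have h2 : B * x / L ^ V = L * T := by
      rw [hT, pow_succ]; field_simp
    rw [h1, h2]
    have h3 : 5 * T + T + (16 * (K + 4) + 1) * T + T = (16 * (K + 4) + 8) * T := by ring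
    have h4 : (16 * ((K : ℝ) + 4) + 8) * T ≤ L * T := by
      apply mul_le_mul_of_nonneg_right _ hT0.le
      linarith
    linarith
  have hin0 : 0 ≤ J * (Q0 * X / Λ ^ U1 + x * Q0 * Λ) + (H0 * (1 + L) + x * Q0) * Λ := by positivity
  calc _ ≤ (50 * L ^ (2 * K + C0)) * (2 * (B * x / L ^ V)) := by
        apply mul_le_mul f1 (mul_le_mul_of_nonneg_left hin (by norm_num)) (by positivity) (by positivity)
    _ = 100 / L ^ 2 * (B * x / L ^ A1) := by
        rw [hV, show A1 + 2 * K + C0 + 2 = A1 + (2 * K + C0) + 2 by ring]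
        simp only [pow_add L (A1 + (2 * K + C0)) 2, pow_add L A1 (2 * K + C0)]
        have := (hLp (2 * K + C0)).ne'
        have := (hLp A1).ne'
        field_simp
        ring
    _ ≤ 1 * (B * x / L ^ A1) := by
        apply mul_le_mul_of_nonneg_right _ (by positivity)
        rw [div_le_one (hLp 2)]
        nlinarith
    _ = _ := one_mul _

lemma numV2 (K U C0 A1 : ℕ) (hA1 : A1 = 3 * C0 + K + U + 2) (L x B D : ℝ) (hL : 1000 ≤ L) (hx : 0 < x) (hD : 0 < D)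
    (hB : 0 < B) :
    (L ^ C0 * ((2 * L ^ C0) * (3 * (L ^ C0 / (x * D))))) * (D * ((D * x * L ^ K * x / L ^ A1) * (B * x / L ^ A1))) ≤
      (1 / 2) * (D * B * x ^ 2 / L ^ U) := by
  have hL0 : 0 < L := by linarith
  have hL1 : 1 ≤ L := by linarith
  have h6 : L ^ A1 = L ^ C0 * L ^ C0 * L ^ C0 * L ^ K * L ^ U * L ^ 2 := by
    rw [hA1, show 3 * C0 + K + U + 2 = C0 + C0 + C0 + K + U + 2 by ring]
    simp only [pow_add L (C0 + C0 + C0 + K + U) 2, pow_add L (C0 + C0 + C0 + K) U, pow_add L (C0 + C0 + C0) K,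
      pow_add L (C0 + C0) C0, pow_add L C0 C0]
  have hA : 1 ≤ L ^ A1 := one_le_pow₀ hL1
  have hc : 0 < L ^ C0 := by positivity
  have hk : 0 < L ^ K := by positivity
  have hu : 0 < L ^ U := by positivity
  have h2 : 1000000 ≤ L ^ 2 := by nlinarith
  have hA0 : 0 < L ^ A1 := by linarith
  set c := L ^ C0
  set k := L ^ K
  set u := L ^ U
  set t := L ^ 2
  set A := L ^ A1
  have e1 : (c * ((2 * c) * (3 * (c / (x * D))))) * (D * ((D * x * k * x / A) * (B * x / A))) =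
      (D * B * x ^ 2) * (6 * (c * c * c * k) / (A * A)) := by
    field_simp
    ring
  have e2 : (1 / 2) * (D * B * x ^ 2 / u) = (D * B * x ^ 2) * (1 / (2 * u)) := by
    field_simp
  rw [e1, e2]
  apply mul_le_mul_of_nonneg_left _ (by positivity)
  rw [div_le_div_iff₀ (by positivity) (by positivity), one_mul]
  have h3 : 6 * (c * c * c * k) * (2 * u) = 12 * (c * c * c * k * u) := by ring
  have h4 : c * c * c * k * u ≤ A := by
    rw [h6]
    exact le_mul_of_one_le_right (by positivity) (by linarith)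
  have h5 : 12 * (c * c * c * k * u) ≤ c * c * c * k * u * t := by
    have : 0 < c * c * c * k * u := by positivity
    nlinarith
  rw [h3]
  calc 12 * (c * c * c * k * u) ≤ c * c * c * k * u * t := h5
    _ = A := h6.symm
    _ ≤ A * A := le_mul_of_one_le_left hA0.le hA

/-- numerics for the sum of the two parts -/
lemma numV (K U C0 A1 : ℕ) (hC0 : C0 = K + U + 6) (hA1 : A1 = 3 * C0 + K + U + 2)
    (L Λ Q0 Q R x B D S : ℝ) (hLK : 1000 * ((K : ℝ) + 4) ^ 2 ≤ L) (hLx : L ^ C0 ≤ x) (hLD : L ^ C0 ≤ D)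
    (hΛ0 : 0 ≤ Λ) (hΛ2 : Λ ≤ (K + 4) * L) (hQ0 : 1 ≤ Q0) (hQ01 : L ^ C0 / 2 ≤ Q0) (hQ02 : Q0 ≤ L ^ C0)
    (hQ1 : 1 ≤ Q) (hQa : Q ≤ x * D / L ^ C0) (hQb : x * D / L ^ C0 ≤ Q + 1) (hlogQ : Real.log Q ≤ (K + 1) * L)
    (hR1 : R ≤ 3 * (B * L ^ K)) (hR2 : 3 * (B * L ^ K) ≤ R + 1) (hR0 : 0 ≤ R) (hB1 : 1 ≤ B) (hDB : D * x ≤ B * L ^ K)
    (hBD : B ≤ D * x * L ^ K) (hS0 : 0 ≤ S) (hS : S ≤ B * x / L ^ A1) :
    (39 * x * D / Q0 + 39 * D + 3 * x * (1 + Real.log Q) + 3 * Q * (1 + Real.log Q)) * (x * ((2 * R + 1) * Λ ^ 2)) +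
      Q0 * ((Q0 + 1) * (2 / (Q + 1) + 1 / (4 * R + 1))) * (D * S ^ 2) ≤ D * B * x ^ 2 / L ^ U := by
  have hK0 : (0 : ℝ) ≤ K := Nat.cast_nonneg K
  have hK4 : (1 : ℝ) ≤ K + 4 := by linarith
  have hL1000 : 1000 * ((K : ℝ) + 4) ≤ L := by nlinarith
  have hL0 : 0 < L := by linarith
  have hL1 : 1 ≤ L := by linarith
  have hL1000' : 1000 ≤ L := by linarith
  have hLp : ∀ n : ℕ, 0 < L ^ n := fun n => by positivity
  have hLp1 : ∀ n : ℕ, 1 ≤ L ^ n := fun n => one_le_pow₀ hL1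
  have hx1 : 1 ≤ x := (hLp1 _).trans hLx
  have hx0 : 0 < x := by linarith
  have hD0 : 0 < D := (hLp C0).trans_le hLD
  have hB0 : 0 < B := by linarith
  set W : ℝ := x * D / L ^ C0 with hW
  have hW0 : 0 < W := by positivity
  have hlogQ0 : 0 ≤ Real.log Q := Real.log_nonneg hQ1
  -- the row sum
  have hDW : D ≤ W := by rw [hW, le_div_iff₀ (hLp _), mul_comm]; exact mul_le_mul_of_nonneg_right hLx hD0.le
  have hxW : x ≤ W := by rw [hW, le_div_iff₀ (hLp _)]; exact mul_le_mul_of_nonneg_left hLD hx0.le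
  have hρ : 39 * x * D / Q0 + 39 * D + 3 * x * (1 + Real.log Q) + 3 * Q * (1 + Real.log Q) ≤ L ^ 2 * W := by
    have h1 : 39 * x * D / Q0 ≤ 78 * W := by
      rw [div_le_iff₀ (by linarith)]
      have h2 : 78 * W * (L ^ C0 / 2) = 39 * x * D := by
        rw [hW]
        have := (hLp C0).ne'
        field_simp
        ring
      have h3 : 78 * W * (L ^ C0 / 2) ≤ 78 * W * Q0 := mul_le_mul_of_nonneg_left hQ01 (by positivity)
      linarith
    have h4 : 1 + Real.log Q ≤ (K + 2) * L := by linarith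
    have h5 : 3 * x * (1 + Real.log Q) ≤ 3 * W * ((K + 2) * L) := by gcongr
    have h6 : 3 * Q * (1 + Real.log Q) ≤ 3 * W * ((K + 2) * L) := by gcongr
    have h7 : 78 * W + 39 * W + 3 * W * ((K + 2) * L) + 3 * W * ((K + 2) * L) ≤ L ^ 2 * W := by
      have h8 : 117 + 6 * (((K : ℝ) + 2) * L) ≤ L ^ 2 := by nlinarith
      nlinarith
    linarith
  have hρ0 : 0 ≤ 39 * x * D / Q0 + 39 * D + 3 * x * (1 + Real.log Q) + 3 * Q * (1 + Real.log Q) := by positivity
  have hR3 : 2 * R + 1 ≤ 7 * (B * L ^ K) := by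
    have : 1 ≤ B * L ^ K := by
      have := hLp1 K
      nlinarith
    linarith
  have t1 : (39 * x * D / Q0 + 39 * D + 3 * x * (1 + Real.log Q) + 3 * Q * (1 + Real.log Q)) * (x * ((2 * R + 1) * Λ ^ 2)) ≤
      (1 / 2) * (D * B * x ^ 2 / L ^ U) := by
    calc (39 * x * D / Q0 + 39 * D + 3 * x * (1 + Real.log Q) + 3 * Q * (1 + Real.log Q)) * (x * ((2 * R + 1) * Λ ^ 2))
        ≤ (L ^ 2 * W) * (x * ((7 * (B * L ^ K)) * ((K + 4) * L) ^ 2)) := by
          apply mul_le_mul hρ _ (by positivity) (by positivity)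
          apply mul_le_mul_of_nonneg_left _ hx0.le
          apply mul_le_mul hR3 (pow_le_pow_left₀ hΛ0 hΛ2 2) (by positivity) (by positivity)
      _ = (7 * (K + 4) ^ 2) * (D * B * x ^ 2) * (L ^ 4 * L ^ K / L ^ C0) := by rw [hW]; ring
      _ = (7 * (K + 4) ^ 2) / L ^ 2 * (D * B * x ^ 2 / L ^ U) := by
          rw [hC0, show K + U + 6 = K + U + 4 + 2 by ring]
          simp only [pow_add L (K + U + 4) 2, pow_add L (K + U) 4, pow_add L K U]
          have := (hLp K).ne'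
          have := (hLp U).ne'
          field_simp
      _ ≤ (1 / 2) * (D * B * x ^ 2 / L ^ U) := by
          apply mul_le_mul_of_nonneg_right _ (by positivity)
          rw [div_le_iff₀ (hLp 2)]
          nlinarith [sq_nonneg (L - 1)]
  have t2 : Q0 * ((Q0 + 1) * (2 / (Q + 1) + 1 / (4 * R + 1))) * (D * S ^ 2) ≤ (1 / 2) * (D * B * x ^ 2 / L ^ U) := by
    have h1 : 2 / (Q + 1) ≤ 2 * (L ^ C0 / (x * D)) := by
      rw [div_le_iff₀ (by linarith)]
      have h2 : 2 * (L ^ C0 / (x * D)) * (x * D / L ^ C0) = 2 := by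
        have := (hLp C0).ne'
        field_simp
      have h3 : 2 * (L ^ C0 / (x * D)) * (x * D / L ^ C0) ≤ 2 * (L ^ C0 / (x * D)) * (Q + 1) :=
        mul_le_mul_of_nonneg_left hQb (by positivity)
      linarith
    have h2 : 1 / (4 * R + 1) ≤ L ^ C0 / (x * D) := by
      rw [div_le_div_iff₀ (by positivity) (by positivity), one_mul]
      have h3 : x * D ≤ 4 * R + 1 := by
        have h4 : D * x ≤ R + 1 - 2 * (B * L ^ K) := by linarith
        have h5 : 1 ≤ B * L ^ K := by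
          have := hLp1 K
          nlinarith
        linarith
      have h4 : 4 * R + 1 ≤ L ^ C0 * (4 * R + 1) := le_mul_of_one_le_left (by positivity) (hLp1 _)
      linarith
    have h3 : Q0 * ((Q0 + 1) * (2 / (Q + 1) + 1 / (4 * R + 1))) ≤ L ^ C0 * ((2 * L ^ C0) * (3 * (L ^ C0 / (x * D)))) := by
      have h5 : Q0 + 1 ≤ 2 * L ^ C0 := by linarith
      have h6 : 2 / (Q + 1) + 1 / (4 * R + 1) ≤ 3 * (L ^ C0 / (x * D)) := by linarith
      have : 0 ≤ 2 / (Q + 1) + 1 / (4 * R + 1) := by positivity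
      gcongr
    have h4 : D * S ^ 2 ≤ D * ((B * x / L ^ A1) * (B * x / L ^ A1)) := by
      rw [sq]
      apply mul_le_mul_of_nonneg_left _ hD0.le
      exact mul_le_mul hS hS hS0 (by positivity)
    have h5 : D * ((B * x / L ^ A1) * (B * x / L ^ A1)) ≤ D * ((D * x * L ^ K * x / L ^ A1) * (B * x / L ^ A1)) := by
      gcongr
    refine (mul_le_mul h3 (h4.trans h5) (by positivity) (by positivity)).trans ?_
    exact numV2 K U C0 A1 hA1 L x B D hL1000' hx0 hD0 hB0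
  linarith

end Pool.Agent.Y868.TA
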