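import Pool.Agent.Y868.TA.D2

/-! The second moment over the box: assembly. -/

set_option autoImplicit false

namespace Pool.Agent.Y868.TA

open Finset Filter
open Pool.Agent.H373R2.T7
open Pool.Agent.H807R2.Dav

open Classical in
theorem second_good (U K : ℕ) : ∃ C E1 : ℕ, ∀ E : ℕ, ∃ x0 : ℕ, ∀ x : ℕ, x0 ≤ x → ∀ z : ℕ,
    Real.log x ^ E1 ≤ z → (z : ℝ) ≤ Real.log x ^ E → ∀ D B : ℕ, Real.log x ^ C ≤ D → (D : ℝ) ≤ (x : ℝ) ^ K →
    (D : ℝ) * x ≤ B * Real.log x ^ K → (B : ℝ) ≤ D * x * Real.log x ^ K →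
    ∀ φ : ℕ → ℤ, (∀ m ∈ Icc 1 x, ((|φ m| : ℤ) : ℝ) ≤ B * Real.log x ^ K) →
    ∀ c : ℤ, ((|c| : ℤ) : ℝ) ≤ B * x * Real.log x ^ K → ∀ w : ℕ → ℝ, (∀ m, |w m| ≤ 1) →
    (∀ m, ¬ good z c m → w m = 0) →
    ∑ a ∈ Icc 1 D, ∑ b ∈ Icc 1 B, (∑ m ∈ Icc 1 x, w m * FF z (c + m * (φ m + (a : ℤ) * m + (b : ℤ))).toNat) ^ 2 ≤
      D * B * x ^ 2 / Real.log x ^ U := by
  obtain ⟨C0, hC0⟩ : ∃ C0, C0 = K + U + 6 := ⟨_, rfl⟩
  obtain ⟨A1, hA1⟩ : ∃ A1, A1 = 3 * C0 + K + U + 2 := ⟨_, rfl⟩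
  obtain ⟨V, hV⟩ : ∃ V, V = A1 + 2 * K + C0 + 2 := ⟨_, rfl⟩
  obtain ⟨K3, hK3⟩ : ∃ K3, K3 = V + K + 3 := ⟨_, rfl⟩
  obtain ⟨U1, hU1⟩ : ∃ U1, U1 = V + K3 + C0 + K + 1 := ⟨_, rfl⟩
  obtain ⟨B', E0, hmaj⟩ := maj_sum U1
  refine ⟨2 * C0 + K3 + B' + 1, E0 + C0 + 1, fun E => ?_⟩
  obtain ⟨Y0, hY⟩ := hmaj E
  obtain ⟨nv, hnv⟩ := Vz_inv_small E
  obtain ⟨n1, h1⟩ := ev_L' (1000 * ((K : ℝ) + 4) ^ (B' + E0 + 2))
  obtain ⟨n2, h2⟩ := evt_polylog (2 * K3 + 2 * V + C0 + 2 * K + 10)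
  refine ⟨max (max n1 n2) (max Y0 nv), fun x hx z hz1 hz2 D B hD1 hD2 hDB hBD φ hφ c hc w hw hwg => ?_⟩
  have a1 := h1 x (le_trans (le_trans (le_max_left _ _) (le_max_left _ _)) hx)
  have a2 := h2 x (le_trans (le_trans (le_max_right _ _) (le_max_left _ _)) hx)
  have hxY : Y0 ≤ x := le_trans (le_trans (le_max_left _ _) (le_max_right _ _)) hx
  have hxv : nv ≤ x := le_trans (le_trans (le_max_right _ _) (le_max_right _ _)) hx
  set L := Real.log x with hLd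
  have hK0 : (0 : ℝ) ≤ K := Nat.cast_nonneg K
  have hK4 : (1 : ℝ) ≤ K + 4 := by linarith
  have hKp : ∀ n : ℕ, n ≤ B' + E0 + 2 → 1000 * ((K : ℝ) + 4) ^ n ≤ L := by
    intro n hn
    refine le_trans ?_ a1
    have := pow_le_pow_right₀ hK4 hn
    linarith
  have hL1000 : 1000 ≤ L := by have := hKp 0 (by omega); simpa using this
  have hL0 : 0 < L := by linarith
  have hL1 : 1 ≤ L := by linarith
  have hLp : ∀ n : ℕ, 0 < L ^ n := fun n => by positivity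
  have hLp1 : ∀ n : ℕ, 1 ≤ L ^ n := fun n => one_le_pow₀ hL1
  have hLL : ∀ {i j : ℕ}, i ≤ j → L ^ i ≤ L ^ j := fun h => pow_le_pow_right₀ hL1 h
  have hLx : ∀ n : ℕ, n ≤ 2 * K3 + 2 * V + C0 + 2 * K + 10 → L ^ n ≤ x := fun n hn => (hLL hn).trans a2
  have hx1r : (1 : ℝ) ≤ x := (hLp1 _).trans a2
  have hx1 : 1 ≤ x := by exact_mod_cast hx1r
  have hx0 : (0 : ℝ) < x := by linarith
  have hD0 : (0 : ℝ) < D := (hLp _).trans_le hD1
  have hDC0 : L ^ C0 ≤ D := (hLL (by omega)).trans hD1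
  -- `x ≤ B`
  have hxB : (x : ℝ) ≤ B := by
    have h3 : L ^ K ≤ D := (hLL (by omega)).trans hD1
    have h4 : L ^ K * x ≤ B * L ^ K := (mul_le_mul_of_nonneg_right h3 hx0.le).trans hDB
    have h5 : (x : ℝ) * L ^ K ≤ B * L ^ K := by linarith
    exact le_of_mul_le_mul_right h5 (hLp K)
  have hB1 : (1 : ℝ) ≤ B := hx1r.trans hxB
  have hB0 : (0 : ℝ) < B := by linarith
  -- the parameters
  obtain ⟨J, hJd⟩ : ∃ J : ℕ, J = ⌊L ^ K3⌋₊ := ⟨_, rfl⟩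
  have hJ1 : (J : ℝ) ≤ L ^ K3 := by rw [hJd]; exact Nat.floor_le (by positivity)
  have hJ2 : L ^ K3 / 2 ≤ J := by
    have := Nat.lt_floor_add_one (L ^ K3)
    rw [← hJd] at this
    have h3 : L ≤ L ^ K3 := le_self_pow₀ hL1 (by omega)
    linarith
  have hJ1' : 1 ≤ J := by
    have h3 : L ≤ L ^ K3 := le_self_pow₀ hL1 (by omega)
    have : (1 : ℝ) ≤ J := by linarith
    exact_mod_cast this
  have hJ0 : (0 : ℝ) < J := by exact_mod_cast hJ1'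
  obtain ⟨H0, hHd⟩ : ∃ H0 : ℕ, H0 = ⌈4 * (B * x * L ^ K) / J⌉₊ := ⟨_, rfl⟩
  have hBxL0 : (0 : ℝ) < B * x * L ^ K := by positivity
  have hH1 : 4 * (B * x * L ^ K) / J ≤ H0 := by rw [hHd]; exact Nat.le_ceil _
  have hH2 : (H0 : ℝ) ≤ 4 * (B * x * L ^ K) / J + 1 := by
    rw [hHd]; exact (Nat.ceil_lt_add_one (by positivity)).le
  have hX1 : 4 * (B * x * L ^ K) ≤ ((J * H0 : ℕ) : ℝ) := by
    rw [div_le_iff₀ hJ0] at hH1
    push_cast
    linarith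
  have hX2 : ((J * H0 : ℕ) : ℝ) ≤ 5 * (B * x * L ^ K) := by
    have h3 : (J : ℝ) * H0 ≤ J * (4 * (B * x * L ^ K) / J + 1) := mul_le_mul_of_nonneg_left hH2 hJ0.le
    have h4 : (J : ℝ) * (4 * (B * x * L ^ K) / J + 1) = 4 * (B * x * L ^ K) + J := by field_simp
    have h5 : (J : ℝ) ≤ B * x * L ^ K := by
      calc (J : ℝ) ≤ L ^ K3 := hJ1
        _ ≤ x := hLx _ (by omega)
        _ ≤ B * x := le_mul_of_one_le_left hx0.le hB1
        _ ≤ B * x * L ^ K := le_mul_of_one_le_right (by positivity) (hLp1 K)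
    push_cast
    linarith
  have hH3 : (H0 : ℝ) ≤ 8 * (B * x * L ^ K) / L ^ K3 + 1 := by
    refine hH2.trans ?_
    have h3 : 4 * (B * x * L ^ K) / J ≤ 4 * (B * x * L ^ K) / (L ^ K3 / 2) :=
      div_le_div_of_nonneg_left (by positivity) (by positivity) hJ2
    have h4 : 4 * (B * x * L ^ K) / (L ^ K3 / 2) = 8 * (B * x * L ^ K) / L ^ K3 := by
      field_simp; ring
    linarith
  have hH4 : 4 * (D * x ^ 2) / L ^ K3 ≤ H0 := by
    refine le_trans ?_ hH1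
    have h3 : 4 * (B * x * L ^ K) / L ^ K3 ≤ 4 * (B * x * L ^ K) / J :=
      div_le_div_of_nonneg_left (by positivity) hJ0 hJ1
    refine le_trans ?_ h3
    apply div_le_div_of_nonneg_right _ (hLp _).le
    have h4 : (D : ℝ) * x * x ≤ B * L ^ K * x := mul_le_mul_of_nonneg_right hDB hx0.le
    nlinarith
  have hH5 : (x : ℝ) ≤ H0 := by
    refine le_trans ?_ hH4
    rw [le_div_iff₀ (hLp _)]
    have h3 : L ^ K3 ≤ D := (hLL (by omega)).trans hD1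
    have h4 : (x : ℝ) * L ^ K3 ≤ x * D := mul_le_mul_of_nonneg_left h3 hx0.le
    have h5 : (x : ℝ) * D ≤ D * x ^ 2 := by
      have h6 : (x : ℝ) ≤ x ^ 2 := by nlinarith
      nlinarith
    have h6 : (0 : ℝ) < D * x ^ 2 := by positivity
    linarith
  have hJH : J ≤ H0 := by
    have h3 : (J : ℝ) ≤ H0 := (hJ1.trans (hLx _ (by omega))).trans hH5
    exact_mod_cast h3
  have hYH : Y0 ≤ H0 := by
    have h3 : (x : ℝ) ≤ H0 := hH5
    have h4 : x ≤ H0 := by exact_mod_cast h3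
    exact hxY.trans h4
  obtain ⟨X, hXd⟩ : ∃ X : ℕ, X = J * H0 := ⟨_, rfl⟩
  rw [← hXd] at hX1 hX2
  have hxX : (x : ℝ) ≤ X := by
    have h3 : (x : ℝ) ≤ B * x := le_mul_of_one_le_left hx0.le hB1
    have h4 : (B : ℝ) * x ≤ B * x * L ^ K := le_mul_of_one_le_right (by positivity) (hLp1 K)
    linarith
  have hX0 : (0 : ℝ) < X := by linarith
  set Λ := Real.log X with hΛd
  have hΛ1 : L ≤ Λ := Real.log_le_log hx0 hxX
  have hΛ2 : Λ ≤ (K + 4) * L := by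
    have h3 : (X : ℝ) ≤ (x : ℝ) ^ (K + 4) := by
      calc (X : ℝ) ≤ 5 * (B * x * L ^ K) := hX2
        _ ≤ 5 * ((D * x * L ^ K) * x * L ^ K) := by gcongr
        _ ≤ 5 * (((x : ℝ) ^ K * x * L ^ K) * x * L ^ K) := by gcongr
        _ = (x : ℝ) ^ (K + 2) * (5 * L ^ (2 * K)) := by rw [two_mul K, pow_add L K K, pow_add (x : ℝ) K 2]; ring
        _ ≤ (x : ℝ) ^ (K + 2) * (x ^ 2) := by
            apply mul_le_mul_of_nonneg_left _ (by positivity)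
            have h4 : 5 * L ^ (2 * K) ≤ L ^ (2 * K + 1) := by
              rw [pow_succ]
              have := hLp (2 * K)
              nlinarith
            have h5 := hLx (2 * K + 1) (by omega)
            nlinarith
        _ = (x : ℝ) ^ (K + 4) := by ring
    have h4 := Real.log_le_log hX0 h3
    rw [Real.log_pow] at h4
    push_cast at h4
    exact h4
  have hΛ0 : 0 < Λ := by linarith
  have hzE0 : Λ ^ E0 ≤ z := by
    calc Λ ^ E0 ≤ ((K + 4) * L) ^ E0 := pow_le_pow_left₀ hΛ0.le hΛ2 _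
      _ = ((K : ℝ) + 4) ^ E0 * L ^ E0 := mul_pow _ _ _
      _ ≤ L * L ^ E0 := by
          apply mul_le_mul_of_nonneg_right _ (hLp _).le
          have h3 := hKp E0 (by omega)
          have h4 : (0 : ℝ) < ((K : ℝ) + 4) ^ E0 := by positivity
          linarith
      _ = L ^ (E0 + 1) := by ring
      _ ≤ L ^ (E0 + C0 + 1) := hLL (by omega)
      _ ≤ z := hz1
  have hzE : (z : ℝ) ≤ Λ ^ E := hz2.trans (pow_le_pow_left₀ hL0.le hΛ1 _)
  have hz2' : 2 ≤ z := by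
    have h3 : L ≤ L ^ (E0 + C0 + 1) := le_self_pow₀ hL1 (by omega)
    have : (2 : ℝ) ≤ z := by linarith
    exact_mod_cast this
  have hxX' : x ≤ X := by exact_mod_cast hxX
  have hX1' : 1 ≤ X := hx1.trans hxX'
  have hVz : (Vz z)⁻¹ ≤ Λ := hnv X (hxv.trans hxX') z (by omega) hzE
  obtain ⟨Q0, hQ0d⟩ : ∃ Q0 : ℕ, Q0 = ⌊L ^ C0⌋₊ := ⟨_, rfl⟩
  have hC0L : L ≤ L ^ C0 := le_self_pow₀ hL1 (by omega)
  have hQ01 : (Q0 : ℝ) ≤ L ^ C0 := by rw [hQ0d]; exact Nat.floor_le (by positivity)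
  have hQ02 : L ^ C0 / 2 ≤ Q0 := by
    have := Nat.lt_floor_add_one (L ^ C0)
    rw [← hQ0d] at this
    linarith
  have hQ0r : (1 : ℝ) ≤ Q0 := by linarith
  have hQ0n : 1 ≤ Q0 := by exact_mod_cast hQ0r
  have hQ0z : Q0 ≤ z := by
    have h3 : (Q0 : ℝ) ≤ z := hQ01.trans ((hLL (by omega)).trans hz1)
    exact_mod_cast h3
  obtain ⟨Q, hQd⟩ : ∃ Q : ℕ, Q = ⌊(x : ℝ) * D / L ^ C0⌋₊ := ⟨_, rfl⟩
  have hQa : (Q : ℝ) ≤ x * D / L ^ C0 := by rw [hQd]; exact Nat.floor_le (by positivity)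
  have hQb : (x : ℝ) * D / L ^ C0 ≤ Q + 1 := by rw [hQd]; exact (Nat.lt_floor_add_one _).le
  have hQ1 : 1 ≤ Q := by
    rw [hQd]
    apply Nat.le_floor
    rw [Nat.cast_one, le_div_iff₀ (hLp _), one_mul]
    calc L ^ C0 ≤ D := hDC0
      _ ≤ x * D := le_mul_of_one_le_left hD0.le hx1r
  have hQ1r : (1 : ℝ) ≤ Q := by exact_mod_cast hQ1
  have hlogQ : Real.log Q ≤ (K + 1) * L := by
    have h3 : (Q : ℝ) ≤ (x : ℝ) ^ (K + 1) := by
      calc (Q : ℝ) ≤ x * D / L ^ C0 := hQa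
        _ ≤ x * D := div_le_self (by positivity) (hLp1 _)
        _ ≤ x * (x : ℝ) ^ K := by gcongr
        _ = (x : ℝ) ^ (K + 1) := by ring
    have h4 := Real.log_le_log (by linarith) h3
    rw [Real.log_pow] at h4
    push_cast at h4
    exact h4
  obtain ⟨R, hRd⟩ : ∃ R : ℕ, R = ⌊3 * (B * L ^ K)⌋₊ := ⟨_, rfl⟩
  have hR1 : (R : ℝ) ≤ 3 * (B * L ^ K) := by rw [hRd]; exact Nat.floor_le (by positivity)
  have hR2 : 3 * (B * L ^ K) ≤ R + 1 := by rw [hRd]; exact (Nat.lt_floor_add_one _).le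
  have hBLK : (B : ℝ) ≤ B * L ^ K := le_mul_of_one_le_right hB0.le (hLp1 K)
  have hBR : B ≤ 2 * R := by
    have h3 : (B : ℝ) ≤ 2 * R := by linarith
    exact_mod_cast h3
  -- the size of the linear forms
  have hform : ∀ t : ℤ, ((|t| : ℤ) : ℝ) ≤ 3 * (B * L ^ K) → |t| ≤ (R : ℤ) := by
    intro t ht
    have h3 : ((|t| : ℤ) : ℝ) = ((t.natAbs : ℕ) : ℝ) := by
      rw [Nat.cast_natAbs]
    rw [h3] at ht
    have h4 : t.natAbs ≤ R := by
      rw [hRd]; exact Nat.le_floor ht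
    rw [Int.abs_eq_natAbs]
    exact_mod_cast h4
  have ham : ∀ m ∈ Icc 1 x, ∀ a ∈ Icc 1 D, (a : ℝ) * m ≤ B * L ^ K := by
    intro m hm a ha
    rw [mem_Icc] at hm ha
    have h3 : (a : ℝ) ≤ D := by exact_mod_cast ha.2
    have h4 : (m : ℝ) ≤ x := by exact_mod_cast hm.2
    calc (a : ℝ) * m ≤ D * x := by gcongr
      _ ≤ _ := hDB
  have hRf : ∀ m ∈ Icc 1 x, ∀ a ∈ Icc 1 D, |φ m + (a : ℤ) * m| ≤ R := by
    intro m hm a ha
    apply hform
    have h3 := hφ m hm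
    have h4 := ham m hm a ha
    have h5 : |φ m + (a : ℤ) * m| ≤ |φ m| + (a : ℤ) * m := by
      refine (abs_add_le _ _).trans ?_
      rw [abs_of_nonneg (by positivity : (0 : ℤ) ≤ (a : ℤ) * m)]
    have h6 : ((|φ m + (a : ℤ) * m| : ℤ) : ℝ) ≤ ((|φ m| : ℤ) : ℝ) + (a : ℝ) * m := by exact_mod_cast h5
    linarith
  -- the height of the values
  have hcR : |c| + (x : ℤ) * R ≤ ((J * H0 : ℕ) : ℤ) := by
    have h3 : ((|c| : ℤ) : ℝ) + (x : ℝ) * R ≤ X := by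
      have h4 : (x : ℝ) * R ≤ x * (3 * (B * L ^ K)) := mul_le_mul_of_nonneg_left hR1 hx0.le
      have h5 : (x : ℝ) * (3 * (B * L ^ K)) = 3 * (B * x * L ^ K) := by ring
      linarith
    rw [← hXd]
    exact_mod_cast h3
  have hKc : ((x * Q0 : ℕ) : ℝ) ^ 2 ≤ H0 / Λ ^ B' := by
    rw [le_div_iff₀ (by positivity)]
    refine le_trans ?_ hH4
    rw [le_div_iff₀ (hLp _)]
    push_cast
    calc ((x : ℝ) * Q0) ^ 2 * Λ ^ B' * L ^ K3 ≤ ((x : ℝ) * L ^ C0) ^ 2 * ((K + 4) * L) ^ B' * L ^ K3 := by gcongr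
      _ = x ^ 2 * (L ^ C0 * L ^ C0 * (((K : ℝ) + 4) ^ B' * L ^ B') * L ^ K3) := by rw [mul_pow, mul_pow]; ring
      _ ≤ x ^ 2 * (L ^ C0 * L ^ C0 * (L * L ^ B') * L ^ K3) := by
          have h3 : ((K : ℝ) + 4) ^ B' ≤ L := by
            have h3 := hKp B' (by omega)
            have h4 : (0 : ℝ) < ((K : ℝ) + 4) ^ B' := by positivity
            linarith
          gcongr
      _ = x ^ 2 * L ^ (2 * C0 + K3 + B' + 1) := by
          rw [show 2 * C0 + K3 + B' + 1 = C0 + C0 + K3 + B' + 1 by ring]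
          simp only [pow_succ L (C0 + C0 + K3 + B'), pow_add L (C0 + C0 + K3) B', pow_add L (C0 + C0) K3, pow_add L C0 C0]
          ring
      _ ≤ x ^ 2 * D := by gcongr
      _ ≤ 4 * (D * x ^ 2) := by
          have : (0 : ℝ) < D * x ^ 2 := by positivity
          linarith
  have hMF : ∀ n, n ≤ J * H0 → |FF z n| ≤ Λ := by
    intro n hn
    rw [← hXd] at hn
    exact FF_abs z n X hX1' hn hVz
  -- the major arcs
  set S : ℝ := (1 + 7 * (2 * R + 1) * (L ^ C0 / (x * D))) * (2 *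
      (J * (Q0 * X / Λ ^ U1 + x * Q0 * Λ) + (H0 * (1 + L) + x * Q0) * Λ)) with hSd
  have hmajor : ∀ θ, Maj Q0 Q θ → ∑ m ∈ Icc 1 x, |w m| * ‖Gh (GG z c R) R m θ‖ ≤ S := by
    intro θ hθ
    obtain ⟨q, hq, u, _, hqu⟩ := hθ
    rw [mem_Icc] at hq
    have hq1 : (1 : ℝ) ≤ q := by exact_mod_cast hq.1
    have hδ : |θ - (u : ℝ) / q| ≤ L ^ C0 / (x * D) := by
      refine hqu.trans ?_
      rw [div_le_div_iff₀ (by positivity) (by positivity), one_mul]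
      rw [div_le_iff₀ (hLp _)] at hQb
      have h3 : (Q : ℝ) + 1 ≤ q * (Q + 1) := le_mul_of_one_le_left (by positivity) hq1
      calc (x : ℝ) * D ≤ (Q + 1) * L ^ C0 := hQb
        _ ≤ (q * (Q + 1)) * L ^ C0 := by gcongr
        _ = _ := by ring
    have h3 := hY J H0 z (by rw [← hXd]; exact hzE0) (by rw [← hXd]; exact hzE) hz2' hYH hJ1' hJH x Q0 R hQ0z
      (by rw [← hXd]; exact hKc) c hcR Λ hMF hΛ0.le w hw hwg q u hq.1 hq.2 θ (L ^ C0 / (x * D)) hδ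
    rw [← hXd, ← hΛd, ← hLd] at h3
    exact h3
  have hS0 : 0 ≤ S := by rw [hSd]; positivity
  have hSle : S ≤ B * x / L ^ A1 := by
    rw [hSd]
    exact numS K C0 K3 U1 A1 V hV hK3 hU1 L Λ J X Q0 R H0 x B D (by simpa using hKp 1 (by omega)) (hLx _ (by omega)) hΛ1 hΛ2
      hJ0.le hJ1 hX0.le hX2 (by linarith) hQ01 (Nat.cast_nonneg _) hR1 (Nat.cast_nonneg _) hH3 hxB hD0 hBD
  have habs := absV x D B R Q0 Q hQ0n hQ1 φ (GG z c R) (fun m r hr => by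
    unfold GG
    rw [if_neg (not_le.2 hr)]) hRf hBR w hw S hmajor
  have hGG := GG_sq z c R x X hX1' hVz (by rw [hXd]; exact hcR)
  have hleft : ∑ a ∈ Icc 1 D, ∑ b ∈ Icc 1 B, (∑ m ∈ Icc 1 x, w m * FF z (c + m * (φ m + (a : ℤ) * m + (b : ℤ))).toNat) ^ 2 =
      ∑ a ∈ Icc 1 D, ∑ b ∈ Icc 1 B, (∑ m ∈ Icc 1 x, w m * GG z c R m (φ m + (a : ℤ) * m + (b : ℤ))) ^ 2 := by
    refine sum_congr rfl fun a ha => sum_congr rfl fun b hb => ?_
    congr 1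
    refine sum_congr rfl fun m hm => ?_
    unfold GG
    rw [if_pos]
    apply hform
    have h3 := hφ m hm
    have h4 := ham m hm a ha
    rw [mem_Icc] at hb
    have h5 : |φ m + (a : ℤ) * m + (b : ℤ)| ≤ |φ m| + (a : ℤ) * m + b := by
      refine (abs_add_le _ _).trans ?_
      rw [abs_of_nonneg (by positivity : (0 : ℤ) ≤ (b : ℤ))]
      have := abs_add_le (φ m) ((a : ℤ) * m)
      rw [abs_of_nonneg (by positivity : (0 : ℤ) ≤ (a : ℤ) * m)] at this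
      linarith
    have h6 : ((|φ m + (a : ℤ) * m + (b : ℤ)| : ℤ) : ℝ) ≤ ((|φ m| : ℤ) : ℝ) + (a : ℝ) * m + b := by exact_mod_cast h5
    have h7 : (b : ℝ) ≤ B := by exact_mod_cast hb.2
    linarith
  rw [hleft]
  refine habs.trans ?_
  have hlogQ0 : 0 ≤ Real.log Q := Real.log_nonneg hQ1r
  have hρ0 : 0 ≤ 39 * (x : ℝ) * D / Q0 + 39 * D + 3 * x * (1 + Real.log Q) + 3 * Q * (1 + Real.log Q) := by positivity
  have h3 := mul_le_mul_of_nonneg_left hGG hρ0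
  have h4 := numV K U C0 A1 hC0 hA1 L Λ Q0 Q R x B D S (by simpa using hKp 2 (by omega)) (hLx _ (by omega)) hDC0 hΛ0.le
    hΛ2 hQ0r hQ02 hQ01 hQ1r hQa hQb hlogQ hR1 hR2 (Nat.cast_nonneg _) hB1 hDB hBD hS0 hSle
  linarith

open Classical in
/-- the second moment over the box, all arguments -/
theorem second (U K : ℕ) : ∃ C E1 : ℕ, ∀ E : ℕ, ∃ x0 : ℕ, ∀ x : ℕ, x0 ≤ x → ∀ z : ℕ,
    Real.log x ^ E1 ≤ z → (z : ℝ) ≤ Real.log x ^ E → ∀ D B : ℕ, Real.log x ^ C ≤ D → (D : ℝ) ≤ (x : ℝ) ^ K →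
    (D : ℝ) * x ≤ B * Real.log x ^ K → (B : ℝ) ≤ D * x * Real.log x ^ K →
    ∀ φ : ℕ → ℤ, (∀ m ∈ Icc 1 x, ((|φ m| : ℤ) : ℝ) ≤ B * Real.log x ^ K) →
    ∀ c : ℤ, c ≠ 0 → ((|c| : ℤ) : ℝ) ≤ B * x * Real.log x ^ K → ∀ w : ℕ → ℝ, (∀ m, |w m| ≤ 1) →
    ∑ a ∈ Icc 1 D, ∑ b ∈ Icc 1 B, (∑ m ∈ Icc 1 x, w m * FF z (c + m * (φ m + (a : ℤ) * m + (b : ℤ))).toNat) ^ 2 ≤
      D * B * x ^ 2 / Real.log x ^ U := by
  obtain ⟨C, E1, hgood⟩ := second_good (U + 1) K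
  refine ⟨C + K, E1 + U + 6, fun E => ?_⟩
  obtain ⟨x0, h0⟩ := hgood E
  obtain ⟨nv, hnv⟩ := Vz_inv_small E
  obtain ⟨n1, h1⟩ := ev_L' (1000 * ((K : ℝ) + 4) ^ 2)
  obtain ⟨n2, h2⟩ := evt_polylog (2 * K + 2)
  refine ⟨max (max n1 n2) (max x0 nv), fun x hx z hz1 hz2 D B hD1 hD2 hDB hBD φ hφ c hc0 hc w hw => ?_⟩
  have a1 := h1 x (le_trans (le_trans (le_max_left _ _) (le_max_left _ _)) hx)
  have a2 := h2 x (le_trans (le_trans (le_max_right _ _) (le_max_left _ _)) hx)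
  have hx0' : x0 ≤ x := le_trans (le_trans (le_max_left _ _) (le_max_right _ _)) hx
  have hxv : nv ≤ x := le_trans (le_trans (le_max_right _ _) (le_max_right _ _)) hx
  set L := Real.log x with hLd
  have hK0 : (0 : ℝ) ≤ K := Nat.cast_nonneg K
  have hL1000 : 1000 * ((K : ℝ) + 4) ≤ L := by nlinarith
  have hL0 : 0 < L := by linarith
  have hL1 : 1 ≤ L := by linarith
  have hLp : ∀ n : ℕ, 0 < L ^ n := fun n => by positivity
  have hLp1 : ∀ n : ℕ, 1 ≤ L ^ n := fun n => one_le_pow₀ hL1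
  have hLL : ∀ {i j : ℕ}, i ≤ j → L ^ i ≤ L ^ j := fun h => pow_le_pow_right₀ hL1 h
  have hx1r : (1 : ℝ) ≤ x := (hLp1 _).trans a2
  have hx1 : 1 ≤ x := by exact_mod_cast hx1r
  have hx0 : (0 : ℝ) < x := by linarith
  have hD0 : (0 : ℝ) < D := (hLp _).trans_le hD1
  have hxB : (x : ℝ) ≤ B := by
    have h3 : L ^ K ≤ D := (hLL (by omega)).trans hD1
    have h4 : L ^ K * x ≤ B * L ^ K := (mul_le_mul_of_nonneg_right h3 hx0.le).trans hDB
    have h5 : (x : ℝ) * L ^ K ≤ B * L ^ K := by linarith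
    exact le_of_mul_le_mul_right h5 (hLp K)
  have hB1 : (1 : ℝ) ≤ B := hx1r.trans hxB
  have hB0 : (0 : ℝ) < B := by linarith
  have hBxL0 : (0 : ℝ) < B * x * L ^ K := by positivity
  -- the height
  obtain ⟨X, hXd⟩ : ∃ X : ℕ, X = ⌊4 * (B * x * L ^ K)⌋₊ := ⟨_, rfl⟩
  have hX1 : (X : ℝ) ≤ 4 * (B * x * L ^ K) := by rw [hXd]; exact Nat.floor_le (by positivity)
  have hxB2 : (x : ℝ) ≤ B * x * L ^ K := by
    have h3 : (x : ℝ) ≤ B * x := le_mul_of_one_le_left hx0.le hB1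
    have h4 : (B : ℝ) * x ≤ B * x * L ^ K := le_mul_of_one_le_right (by positivity) (hLp1 K)
    linarith
  have hX2 : (x : ℝ) ≤ X := by
    have := Nat.lt_floor_add_one (4 * (B * x * L ^ K))
    rw [← hXd] at this
    linarith
  have hX0 : (0 : ℝ) < X := by linarith
  set Λ := Real.log X with hΛd
  have hΛ1 : L ≤ Λ := Real.log_le_log hx0 hX2
  have hΛ2 : Λ ≤ (K + 4) * L := by
    have h3 : (X : ℝ) ≤ (x : ℝ) ^ (K + 4) := by
      calc (X : ℝ) ≤ 5 * (B * x * L ^ K) := by linarith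
        _ ≤ 5 * ((D * x * L ^ K) * x * L ^ K) := by gcongr
        _ ≤ 5 * (((x : ℝ) ^ K * x * L ^ K) * x * L ^ K) := by gcongr
        _ = (x : ℝ) ^ (K + 2) * (5 * L ^ (2 * K)) := by rw [two_mul K, pow_add L K K, pow_add (x : ℝ) K 2]; ring
        _ ≤ (x : ℝ) ^ (K + 2) * (x ^ 2) := by
            apply mul_le_mul_of_nonneg_left _ (by positivity)
            have h4 : 5 * L ^ (2 * K) ≤ L ^ (2 * K + 1) := by
              rw [pow_succ]
              have := hLp (2 * K)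
              nlinarith
            have h5 := (hLL (show 2 * K + 1 ≤ 2 * K + 2 by omega)).trans a2
            nlinarith
        _ = (x : ℝ) ^ (K + 4) := by ring
    have h4 := Real.log_le_log hX0 h3
    rw [Real.log_pow] at h4
    push_cast at h4
    exact h4
  have hΛ0 : 0 < Λ := by linarith
  have hX1' : 1 ≤ X := by
    have : (1 : ℝ) ≤ X := hx1r.trans hX2
    exact_mod_cast this
  have hzr : 1 ≤ (z : ℝ) := (hLp1 _).trans hz1
  have hz1' : 1 ≤ z := by exact_mod_cast hzr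
  have hVz : (Vz z)⁻¹ ≤ Λ := hnv X (hxv.trans (by exact_mod_cast hX2)) z hz1' (hz2.trans (pow_le_pow_left₀ hL0.le hΛ1 _))
  have hF : ∀ m ∈ Icc 1 x, ∀ a ∈ Icc 1 D, ∀ b ∈ Icc 1 B, |FF z (c + m * (φ m + (a : ℤ) * m + (b : ℤ))).toNat| ≤ Λ := by
    intro m hm a ha b hb
    apply FF_abs z _ X hX1' _ hVz
    rw [hXd]
    apply Nat.le_floor
    have hφm := hφ m hm
    rw [mem_Icc] at hm ha hb
    have h3 : (a : ℝ) ≤ D := by exact_mod_cast ha.2
    have h4 : (m : ℝ) ≤ x := by exact_mod_cast hm.2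
    have h5 : (b : ℝ) ≤ B := by exact_mod_cast hb.2
    have h6 : (a : ℝ) * m ≤ B * L ^ K := le_trans (by gcongr) hDB
    have h7 : (b : ℝ) ≤ B * L ^ K := h5.trans (le_mul_of_one_le_right hB0.le (hLp1 K))
    have h8 : ((φ m + (a : ℤ) * m + (b : ℤ) : ℤ) : ℝ) ≤ 3 * (B * L ^ K) := by
      have h9 : ((φ m : ℤ) : ℝ) ≤ ((|φ m| : ℤ) : ℝ) := by exact_mod_cast le_abs_self (φ m)
      push_cast at h9 hφm ⊢
      linarith
    have h10 : (m : ℝ) * ((φ m + (a : ℤ) * m + (b : ℤ) : ℤ) : ℝ) ≤ x * (3 * (B * L ^ K)) := by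
      calc (m : ℝ) * ((φ m + (a : ℤ) * m + (b : ℤ) : ℤ) : ℝ) ≤ m * (3 * (B * L ^ K)) := by gcongr
        _ ≤ _ := by gcongr
    have h11 : ((c + m * (φ m + (a : ℤ) * m + (b : ℤ)) : ℤ) : ℝ) ≤ 4 * (B * x * L ^ K) := by
      have h12 : ((c : ℤ) : ℝ) ≤ ((|c| : ℤ) : ℝ) := by exact_mod_cast le_abs_self c
      have h13 : ((c + m * (φ m + (a : ℤ) * m + (b : ℤ)) : ℤ) : ℝ) = (c : ℝ) + (m : ℝ) * ((φ m + (a : ℤ) * m + (b : ℤ) : ℤ) : ℝ) := by
        push_cast; ring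
      rw [h13]
      linarith
    rcases le_total (c + m * (φ m + (a : ℤ) * m + (b : ℤ))) 0 with h | h
    · rw [Int.toNat_of_nonpos h]
      push_cast
      positivity
    · have h14 : (((c + m * (φ m + (a : ℤ) * m + (b : ℤ))).toNat : ℕ) : ℝ) = ((c + m * (φ m + (a : ℤ) * m + (b : ℤ)) : ℤ) : ℝ) := by
        have h15 : (((c + m * (φ m + (a : ℤ) * m + (b : ℤ))).toNat : ℕ) : ℤ) = c + m * (φ m + (a : ℤ) * m + (b : ℤ)) := Int.toNat_of_nonneg h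
        exact_mod_cast congrArg (fun t : ℤ => (t : ℝ)) h15
      rw [h14]; exact h11
  -- the two parts
  set w' : ℕ → ℝ := fun m => if good z c m then w m else 0 with hw'
  have hgd := h0 x hx0' z ((hLL (by omega)).trans hz1) hz2 D B ((hLL (by omega)).trans hD1) hD2 hDB hBD φ hφ c hc w' (by
    intro m
    rw [hw']
    by_cases h : good z c m
    · simp only [if_pos h]; exact hw m
    · simp only [if_neg h, abs_zero]; exact zero_le_one) (by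
    intro m h
    rw [hw']
    simp only [if_neg h])
  have hbadc := bad_count x z hz1' c hc0
  have hlogc : Real.log c.natAbs ≤ Λ := by
    have h3 : ((c.natAbs : ℕ) : ℝ) = ((|c| : ℤ) : ℝ) := by rw [Nat.cast_natAbs]
    have h4 : ((c.natAbs : ℕ) : ℝ) ≤ X := by
      have h5 : c.natAbs ≤ X := by
        rw [hXd]
        apply Nat.le_floor
        rw [h3]
        linarith
      exact_mod_cast h5
    exact Real.log_le_log (by exact_mod_cast (by omega : 0 < c.natAbs)) h4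
  set τ : ℝ := 2 * Λ ^ 2 * (x / z) with hτ
  have hτ0 : 0 ≤ τ := by positivity
  have hbad : ∀ a ∈ Icc 1 D, ∀ b ∈ Icc 1 B, (∑ m ∈ Icc 1 x, w m * FF z (c + m * (φ m + (a : ℤ) * m + (b : ℤ))).toNat) ^ 2 ≤
      2 * (∑ m ∈ Icc 1 x, w' m * FF z (c + m * (φ m + (a : ℤ) * m + (b : ℤ))).toNat) ^ 2 + 2 * τ ^ 2 := by
    intro a ha b hb
    set f : ℕ → ℝ := fun m => FF z (c + m * (φ m + (a : ℤ) * m + (b : ℤ))).toNat with hf
    have h3 : ∑ m ∈ Icc 1 x, w m * f m = ∑ m ∈ Icc 1 x, w' m * f m + ∑ m ∈ (Icc 1 x).filter (fun m => ¬ good z c m), w m * f m := by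
      rw [sum_filter, ← sum_add_distrib]
      refine sum_congr rfl fun m _ => ?_
      rw [hw']
      by_cases h : good z c m
      · simp [h]
      · simp [h]
    have h4 : |∑ m ∈ (Icc 1 x).filter (fun m => ¬ good z c m), w m * f m| ≤ τ := by
      refine (abs_sum_le_sum_abs _ _).trans ?_
      have h5 : ∀ m ∈ (Icc 1 x).filter (fun m => ¬ good z c m), |w m * f m| ≤ Λ := by
        intro m hm
        rw [mem_filter] at hm
        rw [abs_mul]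
        calc |w m| * |f m| ≤ 1 * Λ := mul_le_mul (hw m) (hF m hm.1 a ha b hb) (abs_nonneg _) zero_le_one
          _ = Λ := one_mul _
      refine (sum_le_sum h5).trans ?_
      rw [sum_const, nsmul_eq_mul]
      calc (#((Icc 1 x).filter (fun m => ¬ good z c m)) : ℝ) * Λ ≤ (2 * Real.log c.natAbs * (x / z)) * Λ := by gcongr
        _ ≤ (2 * Λ * (x / z)) * Λ := by gcongr
        _ = τ := by rw [hτ]; ring
    rw [h3]
    have h6 := abs_le.1 h4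
    have h7 : (∑ m ∈ (Icc 1 x).filter (fun m => ¬ good z c m), w m * f m) ^ 2 ≤ τ ^ 2 := by
      rw [← sq_abs]
      exact pow_le_pow_left₀ (abs_nonneg _) h4 2
    nlinarith [sq_nonneg (∑ m ∈ Icc 1 x, w' m * f m - ∑ m ∈ (Icc 1 x).filter (fun m => ¬ good z c m), w m * f m)]
  have hsum := sum_le_sum fun a ha => sum_le_sum fun b hb => hbad a ha b hb
  refine hsum.trans ?_
  have h5 : ∑ a ∈ Icc 1 D, ∑ b ∈ Icc 1 B, (2 * (∑ m ∈ Icc 1 x, w' m * FF z (c + m * (φ m + (a : ℤ) * m + (b : ℤ))).toNat) ^ 2 + 2 * τ ^ 2) =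
      2 * ∑ a ∈ Icc 1 D, ∑ b ∈ Icc 1 B, (∑ m ∈ Icc 1 x, w' m * FF z (c + m * (φ m + (a : ℤ) * m + (b : ℤ))).toNat) ^ 2 +
        D * (B * (2 * τ ^ 2)) := by
    simp only [sum_add_distrib, ← mul_sum, sum_const, Nat.card_Icc, nsmul_eq_mul, Nat.add_sub_cancel]
    ring
  rw [h5]
  have h6 : τ ≤ x / L ^ (U + 1) := by
    have h7 : Λ ^ 2 ≤ L ^ 4 := by
      have h8 : Λ ≤ L ^ 2 := by nlinarith
      calc Λ ^ 2 ≤ (L ^ 2) ^ 2 := pow_le_pow_left₀ hΛ0.le h8 2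
        _ = L ^ 4 := by ring
    have h8 : (x : ℝ) / z ≤ x / L ^ (U + 6) := by
      apply div_le_div_of_nonneg_left hx0.le (hLp _)
      exact (hLL (by omega)).trans hz1
    calc τ ≤ 2 * L ^ 4 * (x / L ^ (U + 6)) := by rw [hτ]; gcongr
      _ = 2 / L * (x / L ^ (U + 1)) := by
          rw [show U + 6 = (U + 1) + 4 + 1 by ring, pow_succ L (U + 1 + 4), pow_add L (U + 1) 4]
          have := (hLp (U + 1)).ne'
          field_simp
      _ ≤ 1 * (x / L ^ (U + 1)) := by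
          apply mul_le_mul_of_nonneg_right _ (by positivity)
          rw [div_le_one hL0]
          linarith
      _ = _ := one_mul _
  have h7 : (D : ℝ) * (B * (2 * τ ^ 2)) ≤ (1 / 2) * (D * B * x ^ 2 / L ^ U) := by
    have h8 : τ ^ 2 ≤ (x / L ^ (U + 1)) ^ 2 := pow_le_pow_left₀ hτ0 h6 2
    have h9 : (x / L ^ (U + 1)) ^ 2 ≤ x ^ 2 / L ^ U * (1 / 4) := by
      rw [div_pow, div_mul_div_comm, mul_one]
      apply div_le_div_of_nonneg_left (by positivity) (by positivity)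
      have h10 : (L ^ (U + 1)) ^ 2 = L ^ U * (L ^ U * L ^ 2) := by ring
      rw [h10]
      apply mul_le_mul_of_nonneg_left _ (hLp U).le
      have h11 : 4 ≤ L ^ 2 := by nlinarith
      exact h11.trans (le_mul_of_one_le_left (hLp 2).le (hLp1 U))
    calc (D : ℝ) * (B * (2 * τ ^ 2)) ≤ D * (B * (2 * (x ^ 2 / L ^ U * (1 / 4)))) := by
          have := h8.trans h9
          gcongr
      _ = _ := by ring
  have h8 : (D : ℝ) * B * x ^ 2 / L ^ (U + 1) ≤ (1 / 4) * (D * B * x ^ 2 / L ^ U) := by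
    have h9 : (D : ℝ) * B * x ^ 2 / L ^ (U + 1) = (1 / L) * (D * B * x ^ 2 / L ^ U) := by
      rw [pow_succ]
      have := (hLp U).ne'
      field_simp
      try ring
    rw [h9]
    apply mul_le_mul_of_nonneg_right _ (by positivity)
    apply one_div_le_one_div_of_le (by norm_num)
    linarith
  have h9 : 0 ≤ (D : ℝ) * B * x ^ 2 / L ^ U := by positivity
  linarith

end Pool.Agent.Y868.TA
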