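import Pool.Agent.Y868.TA.D3

/-! Most polynomials of the box: all windows. -/

set_option autoImplicit false

namespace Pool.Agent.Y868.TA

open Finset Filter
open Pool.Agent.H373R2.T7

/-- the size of the summands -/
theorem size_FF (K E : ℕ) : ∃ x0 : ℕ, ∀ x : ℕ, x0 ≤ x → ∀ z : ℕ, 1 ≤ z → (z : ℝ) ≤ Real.log x ^ E → ∀ D B : ℕ,
    1 ≤ D → 1 ≤ B → (D : ℝ) ≤ (x : ℝ) ^ K →
    (D : ℝ) * x ≤ B * Real.log x ^ K → (B : ℝ) ≤ D * x * Real.log x ^ K →
    ∀ φ : ℕ → ℤ, (∀ m ∈ Icc 1 x, ((|φ m| : ℤ) : ℝ) ≤ B * Real.log x ^ K) →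
    ∀ c : ℤ, ((|c| : ℤ) : ℝ) ≤ B * x * Real.log x ^ K → 
    ∀ m ∈ Icc 1 x, ∀ a ∈ Icc 1 D, ∀ b ∈ Icc 1 B,
      |FF z (c + m * (φ m + (a : ℤ) * m + (b : ℤ))).toNat| ≤ (K + 4) * Real.log x := by
  obtain ⟨nv, hnv⟩ := Vz_inv_small E
  obtain ⟨n1, h1⟩ := ev_L' (1000 * ((K : ℝ) + 4) ^ 2)
  obtain ⟨n2, h2⟩ := evt_polylog (2 * K + 2)
  refine ⟨max (max n1 n2) nv, fun x hx z hz1' hz2 D B hD1 hB1n hD2 hDB hBD φ hφ c hc m hm a ha b hb => ?_⟩
  have a1 := h1 x (le_trans (le_trans (le_max_left _ _) (le_max_left _ _)) hx)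
  have a2 := h2 x (le_trans (le_trans (le_max_right _ _) (le_max_left _ _)) hx)
  have hxv : nv ≤ x := le_trans (le_max_right _ _) hx
  set L := Real.log x with hLd
  have hK0 : (0 : ℝ) ≤ K := Nat.cast_nonneg K
  have hL1000 : 1000 * ((K : ℝ) + 4) ≤ L := by nlinarith
  have hL0 : 0 < L := by linarith
  have hL1 : 1 ≤ L := by linarith
  have hLp : ∀ n : ℕ, 0 < L ^ n := fun n => by positivity
  have hLp1 : ∀ n : ℕ, 1 ≤ L ^ n := fun n => one_le_pow₀ hL1
  have hLL : ∀ {i j : ℕ}, i ≤ j → L ^ i ≤ L ^ j := fun h => pow_le_pow_right₀ hL1 h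
  have hx1r : (1 : ℝ) ≤ x := (hLp1 _).trans a2
  have hx0 : (0 : ℝ) < x := by linarith
  have hB1 : (1 : ℝ) ≤ B := by exact_mod_cast hB1n
  have hB0 : (0 : ℝ) < B := by linarith
  have hBxL0 : (0 : ℝ) < B * x * L ^ K := by positivity
  obtain ⟨X, hXd⟩ : ∃ X : ℕ, X = ⌊4 * (B * x * L ^ K)⌋₊ := ⟨_, rfl⟩
  have hX1 : (X : ℝ) ≤ 4 * (B * x * L ^ K) := by rw [hXd]; exact Nat.floor_le (by positivity)
  have hxB2 : (x : ℝ) ≤ B * x * L ^ K := by
    have h3 : (x : ℝ) ≤ B * x := le_mul_of_one_le_left hx0.le hB1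
    have h4 : (B : ℝ) * x ≤ B * x * L ^ K := le_mul_of_one_le_right (by positivity) (hLp1 K)
    linarith
  have hX2 : (x : ℝ) ≤ X := by
    have := Nat.lt_floor_add_one (4 * (B * x * L ^ K))
    rw [← hXd] at this
    linarith
  have hX0 : (0 : ℝ) < X := by linarith
  set Λ := Real.log X with hΛd
  have hΛ1 : L ≤ Λ := Real.log_le_log hx0 hX2
  have hΛ2 : Λ ≤ (K + 4) * L := by
    have h3 : (X : ℝ) ≤ (x : ℝ) ^ (K + 4) := by
      calc (X : ℝ) ≤ 5 * (B * x * L ^ K) := by linarith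
        _ ≤ 5 * ((D * x * L ^ K) * x * L ^ K) := by gcongr
        _ ≤ 5 * (((x : ℝ) ^ K * x * L ^ K) * x * L ^ K) := by gcongr
        _ = (x : ℝ) ^ (K + 2) * (5 * L ^ (2 * K)) := by rw [two_mul K, pow_add L K K, pow_add (x : ℝ) K 2]; ring
        _ ≤ (x : ℝ) ^ (K + 2) * (x ^ 2) := by
            apply mul_le_mul_of_nonneg_left _ (by positivity)
            have h4 : 5 * L ^ (2 * K) ≤ L ^ (2 * K + 1) := by
              rw [pow_succ]
              have := hLp (2 * K)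
              nlinarith
            have h5 := (hLL (show 2 * K + 1 ≤ 2 * K + 2 by omega)).trans a2
            nlinarith
        _ = (x : ℝ) ^ (K + 4) := by ring
    have h4 := Real.log_le_log hX0 h3
    rw [Real.log_pow] at h4
    push_cast at h4
    exact h4
  have hX1' : 1 ≤ X := by
    have : (1 : ℝ) ≤ X := hx1r.trans hX2
    exact_mod_cast this
  have hVz : (Vz z)⁻¹ ≤ Λ := hnv X (hxv.trans (by exact_mod_cast hX2)) z hz1' (hz2.trans (pow_le_pow_left₀ hL0.le hΛ1 _))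
  refine le_trans ?_ hΛ2
  apply FF_abs z _ X hX1' _ hVz
  rw [hXd]
  apply Nat.le_floor
  have hφm := hφ m hm
  rw [mem_Icc] at hm ha hb
  have h3 : (a : ℝ) ≤ D := by exact_mod_cast ha.2
  have h4 : (m : ℝ) ≤ x := by exact_mod_cast hm.2
  have h5 : (b : ℝ) ≤ B := by exact_mod_cast hb.2
  have h6 : (a : ℝ) * m ≤ B * L ^ K := le_trans (by gcongr) hDB
  have h7 : (b : ℝ) ≤ B * L ^ K := h5.trans (le_mul_of_one_le_right hB0.le (hLp1 K))
  have h8 : ((φ m + (a : ℤ) * m + (b : ℤ) : ℤ) : ℝ) ≤ 3 * (B * L ^ K) := by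
    have h9 : ((φ m : ℤ) : ℝ) ≤ ((|φ m| : ℤ) : ℝ) := by exact_mod_cast le_abs_self (φ m)
    push_cast at h9 hφm ⊢
    linarith
  have h10 : (m : ℝ) * ((φ m + (a : ℤ) * m + (b : ℤ) : ℤ) : ℝ) ≤ x * (3 * (B * L ^ K)) := by
    calc (m : ℝ) * ((φ m + (a : ℤ) * m + (b : ℤ) : ℤ) : ℝ) ≤ m * (3 * (B * L ^ K)) := by gcongr
      _ ≤ _ := by gcongr
  have h11 : ((c + m * (φ m + (a : ℤ) * m + (b : ℤ)) : ℤ) : ℝ) ≤ 4 * (B * x * L ^ K) := by
    have h12 : ((c : ℤ) : ℝ) ≤ ((|c| : ℤ) : ℝ) := by exact_mod_cast le_abs_self c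
    have h13 : ((c + m * (φ m + (a : ℤ) * m + (b : ℤ)) : ℤ) : ℝ) = (c : ℝ) + (m : ℝ) * ((φ m + (a : ℤ) * m + (b : ℤ) : ℤ) : ℝ) := by
      push_cast; ring
    rw [h13]
    linarith
  rcases le_total (c + m * (φ m + (a : ℤ) * m + (b : ℤ))) 0 with h | h
  · rw [Int.toNat_of_nonpos h]
    push_cast
    positivity
  · have h14 : (((c + m * (φ m + (a : ℤ) * m + (b : ℤ))).toNat : ℕ) : ℝ) = ((c + m * (φ m + (a : ℤ) * m + (b : ℤ)) : ℤ) : ℝ) := by
      have h15 : (((c + m * (φ m + (a : ℤ) * m + (b : ℤ))).toNat : ℕ) : ℤ) = c + m * (φ m + (a : ℤ) * m + (b : ℤ)) := Int.toNat_of_nonneg h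
      exact_mod_cast congrArg (fun t : ℤ => (t : ℝ)) h15
    rw [h14]; exact h11

/-- **Most pairs, all windows.** -/
theorem windows (U K : ℕ) : ∃ C E1 : ℕ, ∀ E : ℕ, ∃ x0 : ℕ, ∀ x : ℕ, x0 ≤ x → ∀ z : ℕ,
    Real.log x ^ E1 ≤ z → (z : ℝ) ≤ Real.log x ^ E → ∀ D B : ℕ, Real.log x ^ C ≤ D → (D : ℝ) ≤ (x : ℝ) ^ K →
    (D : ℝ) * x ≤ B * Real.log x ^ K → (B : ℝ) ≤ D * x * Real.log x ^ K →
    ∀ φ : ℕ → ℤ, (∀ m ∈ Icc 1 x, ((|φ m| : ℤ) : ℝ) ≤ B * Real.log x ^ K) →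
    ∀ c : ℤ, c ≠ 0 → ((|c| : ℤ) : ℝ) ≤ B * x * Real.log x ^ K → ∀ w : ℕ → ℝ, (∀ m, |w m| ≤ 1) →
    ∃ Bad ⊆ Icc 1 D ×ˢ Icc 1 B, (Bad.card : ℝ) ≤ D * B / Real.log x ^ U ∧
      ∀ a ∈ Icc 1 D, ∀ b ∈ Icc 1 B, (a, b) ∉ Bad → ∀ u v : ℕ, u ≤ v → v ≤ x →
        |∑ m ∈ Ioc u v, w m * FF z (c + m * (φ m + (a : ℤ) * m + (b : ℤ))).toNat| ≤ x / Real.log x ^ U := by
  classical
  obtain ⟨C, E1, hsec⟩ := second (4 * U + 10) K
  refine ⟨C + K, E1, fun E => ?_⟩
  obtain ⟨x0, h0⟩ := hsec E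
  obtain ⟨x1, hsz⟩ := size_FF K E
  obtain ⟨n1, h1⟩ := ev_L' (1000 * ((K : ℝ) + 4))
  obtain ⟨n2, h2⟩ := evt_polylog (2 * U + 10)
  refine ⟨max (max n1 n2) (max x0 x1), fun x hx z hz1 hz2 D B hD1 hD2 hDB hBD φ hφ c hc0 hc w hw => ?_⟩
  have a1 := h1 x (le_trans (le_trans (le_max_left _ _) (le_max_left _ _)) hx)
  have a2 := h2 x (le_trans (le_trans (le_max_right _ _) (le_max_left _ _)) hx)
  have hx0' : x0 ≤ x := le_trans (le_trans (le_max_left _ _) (le_max_right _ _)) hx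
  have hx1' : x1 ≤ x := le_trans (le_trans (le_max_right _ _) (le_max_right _ _)) hx
  set L := Real.log x with hLd
  have hK0 : (0 : ℝ) ≤ K := Nat.cast_nonneg K
  have hL0 : 0 < L := by linarith
  have hL1 : 1 ≤ L := by linarith
  have hL4000 : 4000 ≤ L := by linarith
  have hLp : ∀ n : ℕ, 0 < L ^ n := fun n => by positivity
  have hLp1 : ∀ n : ℕ, 1 ≤ L ^ n := fun n => one_le_pow₀ hL1
  have hLL : ∀ {i j : ℕ}, i ≤ j → L ^ i ≤ L ^ j := fun h => pow_le_pow_right₀ hL1 h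
  have hx1r : (1 : ℝ) ≤ x := (hLp1 _).trans a2
  have hx0 : (0 : ℝ) < x := by linarith
  have hD0 : (0 : ℝ) < D := (hLp _).trans_le hD1
  have hxB : (x : ℝ) ≤ B := by
    have h3 : L ^ K ≤ D := (hLL (by omega)).trans hD1
    have h4 : L ^ K * x ≤ B * L ^ K := (mul_le_mul_of_nonneg_right h3 hx0.le).trans hDB
    have h5 : (x : ℝ) * L ^ K ≤ B * L ^ K := by linarith
    exact le_of_mul_le_mul_right h5 (hLp K)
  have hB1 : (1 : ℝ) ≤ B := hx1r.trans hxB
  have hB0 : (0 : ℝ) < B := by linarith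
  have hzr : 1 ≤ (z : ℝ) := (hLp1 _).trans hz1
  have hz1' : 1 ≤ z := by exact_mod_cast hzr
  have hsize := hsz x hx1' z hz1' hz2 D B (by exact_mod_cast hD0) (by exact_mod_cast hB0) hD2 hDB hBD φ hφ c hc
  -- the grid
  obtain ⟨J, hJd⟩ : ∃ J : ℕ, J = ⌈L ^ (U + 3)⌉₊ := ⟨_, rfl⟩
  have hJ1 : L ^ (U + 3) ≤ J := by rw [hJd]; exact Nat.le_ceil _
  have hJ2 : (J : ℝ) ≤ 2 * L ^ (U + 3) := by
    have h3 := (Nat.ceil_lt_add_one (hLp (U + 3)).le).le
    rw [← hJd] at h3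
    have := hLp1 (U + 3)
    linarith
  have hJ0 : (0 : ℝ) < J := (hLp _).trans_le hJ1
  obtain ⟨H, hHd⟩ : ∃ H : ℕ, H = ⌈(x : ℝ) / J⌉₊ := ⟨_, rfl⟩
  have hH1 : (x : ℝ) / J ≤ H := by rw [hHd]; exact Nat.le_ceil _
  have hH2 : (H : ℝ) ≤ x / J + 1 := by
    rw [hHd]; exact (Nat.ceil_lt_add_one (by positivity)).le
  have hH3 : (H : ℝ) ≤ 2 * (x / L ^ (U + 3)) := by
    have h3 : (x : ℝ) / J ≤ x / L ^ (U + 3) := div_le_div_of_nonneg_left hx0.le (hLp _) hJ1
    have h4 : 1 ≤ (x : ℝ) / L ^ (U + 3) := by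
      rw [le_div_iff₀ (hLp _), one_mul]
      exact (hLL (by omega)).trans a2
    linarith
  have hHpos : 1 ≤ H := by
    rw [hHd]
    exact Nat.one_le_ceil_iff.2 (by positivity)
  have hJH : x ≤ J * H := by
    have h3 : (x : ℝ) ≤ J * H := by
      rw [div_le_iff₀ hJ0] at hH1
      linarith
    exact_mod_cast h3
  -- the sums over initial segments
  set f : ℕ → ℕ → ℕ → ℝ := fun a b m => FF z (c + m * (φ m + (a : ℤ) * m + (b : ℤ))).toNat with hf
  set T : ℕ → ℕ → ℕ → ℝ := fun i a b => ∑ m ∈ Icc 1 x, (if m ≤ i * H then w m else 0) * f a b m with hT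
  have hTsec : ∀ i, ∑ a ∈ Icc 1 D, ∑ b ∈ Icc 1 B, T i a b ^ 2 ≤ D * B * x ^ 2 / L ^ (4 * U + 10) := by
    intro i
    exact h0 x hx0' z hz1 hz2 D B ((hLL (by omega)).trans hD1) hD2 hDB hBD φ hφ c hc0 hc
      (fun m => if m ≤ i * H then w m else 0) (fun m => by
        split_ifs
        · exact hw m
        · rw [abs_zero]; exact zero_le_one)
  set τ : ℝ := x / (4 * L ^ U) with hτ
  have hτ0 : 0 < τ := by positivity
  set BadI : ℕ → Finset (ℕ × ℕ) := fun i => (Icc 1 D ×ˢ Icc 1 B).filter (fun p => τ < |T i p.1 p.2|) with hBadI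
  have hBadIc : ∀ i, ((BadI i).card : ℝ) ≤ D * B / L ^ (2 * U + 9) := by
    intro i
    have h3 : ((BadI i).card : ℝ) * τ ^ 2 ≤ ∑ a ∈ Icc 1 D, ∑ b ∈ Icc 1 B, T i a b ^ 2 := by
      calc ((BadI i).card : ℝ) * τ ^ 2 = ∑ p ∈ BadI i, τ ^ 2 := by rw [sum_const, nsmul_eq_mul]
        _ ≤ ∑ p ∈ BadI i, T i p.1 p.2 ^ 2 := by
            refine sum_le_sum fun p hp => ?_
            rw [hBadI, mem_filter] at hp
            rw [← sq_abs (T i p.1 p.2)]
            exact pow_le_pow_left₀ hτ0.le hp.2.le 2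
        _ ≤ ∑ p ∈ Icc 1 D ×ˢ Icc 1 B, T i p.1 p.2 ^ 2 :=
            sum_le_sum_of_subset_of_nonneg (filter_subset _ _) (fun _ _ _ => sq_nonneg _)
        _ = _ := by rw [sum_product]
    have h4 := h3.trans (hTsec i)
    rw [← le_div_iff₀ (by positivity)] at h4
    refine h4.trans ?_
    rw [hτ]
    have h5 : (D : ℝ) * B * x ^ 2 / L ^ (4 * U + 10) / (x / (4 * L ^ U)) ^ 2 = 16 / L * (D * B / L ^ (2 * U + 9)) := by
      rw [show 4 * U + 10 = (2 * U + 9) + U + U + 1 by ring]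
      simp only [pow_succ L (2 * U + 9 + U + U), pow_add L (2 * U + 9 + U) U, pow_add L (2 * U + 9) U]
      have := (hLp U).ne'
      have := (hLp (2 * U + 9)).ne'
      field_simp
      ring
    rw [h5]
    have h6 : 16 / L ≤ 1 := by rw [div_le_one hL0]; linarith
    calc 16 / L * (D * B / L ^ (2 * U + 9)) ≤ 1 * (D * B / L ^ (2 * U + 9)) :=
          mul_le_mul_of_nonneg_right h6 (by positivity)
      _ = _ := one_mul _
  refine ⟨(range (J + 1)).biUnion BadI, ?_, ?_, ?_⟩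
  · intro p hp
    rw [mem_biUnion] at hp
    obtain ⟨i, _, hi⟩ := hp
    rw [hBadI] at hi
    exact (mem_filter.1 hi).1
  · calc (((range (J + 1)).biUnion BadI).card : ℝ) ≤ ∑ i ∈ range (J + 1), ((BadI i).card : ℝ) := by
          exact_mod_cast card_biUnion_le
      _ ≤ ∑ i ∈ range (J + 1), (D * B / L ^ (2 * U + 9) : ℝ) := sum_le_sum fun i _ => hBadIc i
      _ = (J + 1) * (D * B / L ^ (2 * U + 9)) := by rw [sum_const, card_range, nsmul_eq_mul]; push_cast; ring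
      _ ≤ (4 * L ^ (U + 3)) * (D * B / L ^ (2 * U + 9)) := by
          apply mul_le_mul_of_nonneg_right _ (by positivity)
          have := hLp1 (U + 3)
          linarith
      _ = 4 / L ^ 6 * (D * B / L ^ U) := by
          rw [show 2 * U + 9 = U + (U + 3) + 6 by ring]
          simp only [pow_add L (U + (U + 3)) 6, pow_add L U (U + 3)]
          have := (hLp U).ne'
          have := (hLp (U + 3)).ne'
          field_simp
      _ ≤ 1 * (D * B / L ^ U) := by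
          apply mul_le_mul_of_nonneg_right _ (by positivity)
          rw [div_le_one (hLp 6)]
          have : L ≤ L ^ 6 := le_self_pow₀ hL1 (by norm_num)
          linarith
      _ = _ := one_mul _
  · intro a ha b hb hab u v huv hvx
    have hgood : ∀ i ∈ range (J + 1), |T i a b| ≤ τ := by
      intro i hi
      by_contra hcon
      rw [not_le] at hcon
      apply hab
      rw [mem_biUnion]
      refine ⟨i, hi, ?_⟩
      rw [hBadI, mem_filter, mem_product]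
      exact ⟨⟨ha, hb⟩, hcon⟩
    -- prefix sums
    have hpre : ∀ y : ℕ, y ≤ x → |∑ m ∈ Ioc 0 y, w m * f a b m| ≤ x / (2 * L ^ U) := by
      intro y hy
      set i := y / H with hi
      have hiJ : i ∈ range (J + 1) := by
        rw [mem_range, Nat.lt_succ_iff, hi]
        calc y / H ≤ (J * H) / H := Nat.div_le_div_right (hy.trans hJH)
          _ = J := Nat.mul_div_cancel _ (by omega)
      have h3 : i * H ≤ y := Nat.div_mul_le_self _ _
      have h4 : y < i * H + H := by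
        have := Nat.lt_div_mul_add (a := y) (b := H) (by omega)
        rw [← hi] at this
        exact this
      have h5 : ∑ m ∈ Ioc 0 y, w m * f a b m = T i a b + ∑ m ∈ Ioc (i * H) y, w m * f a b m := by
        have h6 : T i a b = ∑ m ∈ Ioc 0 (i * H), w m * f a b m := by
          rw [hT]
          have h7 : Ioc 0 (i * H) = (Icc 1 x).filter (fun m => m ≤ i * H) := by
            ext m
            rw [mem_Ioc, mem_filter, mem_Icc]
            omega
          rw [h7, sum_filter]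
          refine sum_congr rfl fun m _ => ?_
          split_ifs
          · rfl
          · rw [zero_mul]
        rw [h6, sum_Ioc_consecutive _ (Nat.zero_le _) h3]
      have h6 : |∑ m ∈ Ioc (i * H) y, w m * f a b m| ≤ H * ((K + 4) * L) := by
        refine (abs_sum_le_sum_abs _ _).trans ?_
        have h7 : ∀ m ∈ Ioc (i * H) y, |w m * f a b m| ≤ (K + 4) * L := by
          intro m hm
          rw [mem_Ioc] at hm
          rw [abs_mul]
          calc |w m| * |f a b m| ≤ 1 * ((K + 4) * L) :=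
                mul_le_mul (hw m) (hsize m (mem_Icc.2 ⟨by omega, by omega⟩) a ha b hb) (abs_nonneg _) zero_le_one
            _ = _ := one_mul _
        refine (sum_le_sum h7).trans ?_
        rw [sum_const, Nat.card_Ioc, nsmul_eq_mul]
        apply mul_le_mul_of_nonneg_right _ (by positivity)
        exact_mod_cast (by omega : y - i * H ≤ H)
      have h7 : (H : ℝ) * ((K + 4) * L) ≤ x / (4 * L ^ U) := by
        rw [le_div_iff₀ (by positivity)]
        calc (H : ℝ) * ((K + 4) * L) * (4 * L ^ U) ≤ (2 * (x / L ^ (U + 3))) * ((K + 4) * L) * (4 * L ^ U) := by gcongr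
          _ = 8 * (K + 4) / L ^ 2 * x := by
              rw [show U + 3 = U + 2 + 1 by ring, pow_succ L (U + 2), pow_add L U 2]
              have := (hLp U).ne'
              field_simp
              ring
          _ ≤ 1 * x := by
              apply mul_le_mul_of_nonneg_right _ hx0.le
              rw [div_le_one (hLp 2)]
              nlinarith
          _ = x := one_mul _
      rw [h5]
      refine (abs_add_le _ _).trans ?_
      have h8 := hgood i hiJ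
      rw [hτ] at h8
      have h9 : (x : ℝ) / (4 * L ^ U) + x / (4 * L ^ U) = x / (2 * L ^ U) := by
        field_simp; ring
      linarith
    have h3 : ∑ m ∈ Ioc u v, w m * f a b m = ∑ m ∈ Ioc 0 v, w m * f a b m - ∑ m ∈ Ioc 0 u, w m * f a b m := by
      rw [← sum_Ioc_consecutive _ (Nat.zero_le _) huv]; ring
    show |∑ m ∈ Ioc u v, w m * f a b m| ≤ x / L ^ U
    rw [h3]
    refine (abs_sub _ _).trans ?_
    have h4 := hpre v hvx
    have h5 := hpre u (huv.trans hvx)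
    have h9 : (x : ℝ) / (2 * L ^ U) + x / (2 * L ^ U) = x / L ^ U := by
      field_simp; ring
    linarith

end Pool.Agent.Y868.TA
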